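import Pool.Agent.MP_824cb5_co.T3.GDefs
import Pool.Agent.Mg.F824cb5.G21456a

section

namespace Pool.Agent.MP_824cb5_co.T3

abbrev V := ℤ × ℤ × ℤ

/-- the four linear forms with sum zero -/
def u (i : ℕ) (v : V) : ℤ :=
  match i with
  | 0 => v.1
  | 1 => v.2.1
  | 2 => v.2.2
  | _ => -v.1 - v.2.1 - v.2.2

def lin (x y z : ℤ) (a b c : V) : V :=
  (x * a.1 + y * b.1 + z * c.1, x * a.2.1 + y * b.2.1 + z * c.2.1,
    x * a.2.2 + y * b.2.2 + z * c.2.2)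

/-- the octahedral norm -/
def N (v : V) : ℤ := max (max |u 0 v| |u 1 v|) (max |u 2 v| |u 3 v|)

def det3 (a b c : V) : ℤ := dt a.1 a.2.1 a.2.2 b.1 b.2.1 b.2.2 c.1 c.2.1 c.2.2

def Adm (s : ℤ) (a b c : V) : Prop :=
  ∀ x y z : ℤ, ¬(x = 0 ∧ y = 0 ∧ z = 0) → s ≤ N (lin x y z a b c)

def AO (v : V) : Prop := v.1 % 2 = 1 ∧ v.2.1 % 2 = 1 ∧ v.2.2 % 2 = 1

def HasOdd (a b c : V) : Prop := ∃ x y z : ℤ, AO (lin x y z a b c)

theorem u_lin (i : ℕ) (x y z : ℤ) (a b c : V) :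
    u i (lin x y z a b c) = x * u i a + y * u i b + z * u i c := by
  rcases i with _ | _ | _ | i <;> simp only [u, lin]
  ring

theorem u_neg (i : ℕ) (a : V) : u i (-a) = -u i a := by
  rcases i with _ | _ | _ | i <;> simp [u]
  ring

theorem le_N (i : ℕ) (v : V) : |u i v| ≤ N v := by
  rcases i with _ | _ | _ | i
  · exact (le_max_left _ _).trans (le_max_left _ _)
  · exact (le_max_right _ _).trans (le_max_left _ _)
  · exact (le_max_left _ _).trans (le_max_right _ _)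
  · exact (le_max_right |u 2 v| |u 3 v|).trans (le_max_right _ _)

theorem N_abs (v : V) : ∃ i < 4, N v = |u i v| := by
  unfold N
  rcases max_choice (max |u 0 v| |u 1 v|) (max |u 2 v| |u 3 v|) with h | h <;> rw [h]
  · rcases max_choice |u 0 v| |u 1 v| with h | h <;> exact ⟨_, by norm_num, h⟩
  · rcases max_choice |u 2 v| |u 3 v| with h | h <;> exact ⟨_, by norm_num, h⟩

theorem N_nonneg (v : V) : 0 ≤ N v := (abs_nonneg _).trans (le_N 0 v)

theorem N_neg (v : V) : N (-v) = N v := by simp only [N, u_neg, abs_neg]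

theorem lin1 (a b c : V) : lin 1 0 0 a b c = a := by simp [lin]

theorem lin2 (a b c : V) : lin 0 1 0 a b c = b := by simp [lin]

theorem lin3 (a b c : V) : lin 0 0 1 a b c = c := by simp [lin]

theorem lin_lin (x y z a0 a1 a2 b0 b1 b2 c0 c1 c2 : ℤ) (a b c : V) :
    lin x y z (lin a0 a1 a2 a b c) (lin b0 b1 b2 a b c) (lin c0 c1 c2 a b c) =
      lin (x * a0 + y * b0 + z * c0) (x * a1 + y * b1 + z * c1) (x * a2 + y * b2 + z * c2)
        a b c := by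
  simp only [lin, Prod.mk.injEq]
  exact ⟨by ring, by ring, by ring⟩

theorem det_lin (a0 a1 a2 b0 b1 b2 c0 c1 c2 : ℤ) (a b c : V) :
    det3 (lin a0 a1 a2 a b c) (lin b0 b1 b2 a b c) (lin c0 c1 c2 a b c) =
      dt a0 a1 a2 b0 b1 b2 c0 c1 c2 * det3 a b c := by
  simp only [lin, det3, dt]
  ring

theorem HasOdd.uni {a b c : V} (h : HasOdd a b c) {a0 a1 a2 b0 b1 b2 c0 c1 c2 : ℤ}
    (hU : |dt a0 a1 a2 b0 b1 b2 c0 c1 c2| = 1) :
    HasOdd (lin a0 a1 a2 a b c) (lin b0 b1 b2 a b c) (lin c0 c1 c2 a b c) := by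
  obtain ⟨X, Y, Z, h⟩ := h
  have e : dt a0 a1 a2 b0 b1 b2 c0 c1 c2 * dt a0 a1 a2 b0 b1 b2 c0 c1 c2 = 1 := by
    rw [← abs_mul_abs_self, hU]; rfl
  refine ⟨dt a0 a1 a2 b0 b1 b2 c0 c1 c2 * dt X Y Z b0 b1 b2 c0 c1 c2,
    dt a0 a1 a2 b0 b1 b2 c0 c1 c2 * dt a0 a1 a2 X Y Z c0 c1 c2,
    dt a0 a1 a2 b0 b1 b2 c0 c1 c2 * dt a0 a1 a2 b0 b1 b2 X Y Z, ?_⟩
  rw [lin_lin]
  convert h using 2 <;> unfold dt at e ⊢
  · linear_combination X * e
  · linear_combination Y * e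
  · linear_combination Z * e

theorem Adm.uni {s : ℤ} {a b c : V} (h : Adm s a b c) {a0 a1 a2 b0 b1 b2 c0 c1 c2 : ℤ}
    (hU : dt a0 a1 a2 b0 b1 b2 c0 c1 c2 ≠ 0) :
    Adm s (lin a0 a1 a2 a b c) (lin b0 b1 b2 a b c) (lin c0 c1 c2 a b c) := by
  intro x y z hz
  rw [lin_lin]
  refine h _ _ _ fun ⟨h1, h2, h3⟩ => hz ⟨?_, ?_, ?_⟩ <;>
    refine (mul_eq_zero.1 ?_).resolve_left hU <;> unfold dt
  · linear_combination (b1 * c2 - b2 * c1) * h1 - (b0 * c2 - b2 * c0) * h2 +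
      (b0 * c1 - b1 * c0) * h3
  · linear_combination (c1 * a2 - c2 * a1) * h1 - (c0 * a2 - c2 * a0) * h2 +
      (c0 * a1 - c1 * a0) * h3
  · linear_combination (a1 * b2 - a2 * b1) * h1 - (a0 * b2 - a2 * b0) * h2 +
      (a0 * b1 - a1 * b0) * h3

/-- `p0, p1, p2, p3` is a permutation of `0, 1, 2, 3` -/
def P4 (p0 p1 p2 p3 : ℕ) : Prop :=
  p0 < 4 ∧ p1 < 4 ∧ p2 < 4 ∧ p3 < 4 ∧ 2 ^ p0 + 2 ^ p1 + 2 ^ p2 + 2 ^ p3 = 15

def T (p0 p1 p2 : ℕ) (v : V) : V := (u p0 v, u p1 v, u p2 v)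

theorem T_lin (p0 p1 p2 : ℕ) (x y z : ℤ) (a b c : V) :
    lin x y z (T p0 p1 p2 a) (T p0 p1 p2 b) (T p0 p1 p2 c) = T p0 p1 p2 (lin x y z a b c) := by
  simp only [T, u_lin]
  rfl

theorem P4.facts {p0 p1 p2 p3 : ℕ} (h : P4 p0 p1 p2 p3) :
    (∀ v, u 3 (T p0 p1 p2 v) = u p3 v) ∧
      (∀ a b c, |det3 (T p0 p1 p2 a) (T p0 p1 p2 b) (T p0 p1 p2 c)| = |det3 a b c|) ∧
      ∀ i < 4, i = p0 ∨ i = p1 ∨ i = p2 ∨ i = p3 := by
  obtain ⟨h0, h1, h2, h3, h⟩ := h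
  interval_cases p0 <;> interval_cases p1 <;> interval_cases p2 <;> interval_cases p3 <;>
    first
    | exact absurd h (by decide)
    | refine ⟨fun v => by simp only [u, T] <;> ring, fun a b c => ?_, by omega⟩
      rw [abs_eq_abs]
      simp only [u, T, det3, dt]
      first
      | (left; ring1)
      | (right; ring1)
      | (left; trivial)

theorem P4.N_eq {p0 p1 p2 p3 : ℕ} (h : P4 p0 p1 p2 p3) (v : V) : N (T p0 p1 p2 v) = N v := by
  refine le_antisymm ?_ ?_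
  · unfold N
    rw [h.facts.1]
    exact max_le (max_le (le_N p0 v) (le_N p1 v)) (max_le (le_N p2 v) (le_N p3 v))
  · obtain ⟨i, hi, e⟩ := N_abs v
    rw [e]
    rcases h.facts.2.2 i hi with rfl | rfl | rfl | rfl
    · exact le_N 0 (T _ _ _ v)
    · exact le_N 1 (T _ _ _ v)
    · exact le_N 2 (T _ _ _ v)
    · rw [← h.facts.1]; exact le_N 3 _

theorem AO.u {v : V} (h : AO v) (i : ℕ) : u i v % 2 = 1 := by
  obtain ⟨h1, h2, h3⟩ := h
  rcases i with _ | _ | _ | i <;> simp only [T3.u] <;> omega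

theorem HasOdd.perm {a b c : V} (h : HasOdd a b c) (p0 p1 p2 : ℕ) :
    HasOdd (T p0 p1 p2 a) (T p0 p1 p2 b) (T p0 p1 p2 c) := by
  obtain ⟨x, y, z, h⟩ := h
  exact ⟨x, y, z, by rw [T_lin]; exact ⟨h.u _, h.u _, h.u _⟩⟩

/-- a reduced basis of covolume `D` -/
structure RF (D : ℤ) (o : Prop) (a b c : V) : Prop where
  pos : 0 < N a
  h12 : N a ≤ N b
  h23 : N b ≤ N c
  r1 : ∀ x y z : ℤ, |x| = 1 → N a ≤ N (lin x y z a b c)
  r2 : ∀ x y z : ℤ, |y| = 1 → N b ≤ N (lin x y z a b c)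
  r3 : ∀ x y z : ℤ, |z| = 1 → N c ≤ N (lin x y z a b c)
  det : |det3 a b c| = D
  odd : o → HasOdd a b c

theorem RF.perm {D : ℤ} {o : Prop} {a b c : V} (h : RF D o a b c) {p0 p1 p2 p3 : ℕ}
    (hp : P4 p0 p1 p2 p3) : RF D o (T p0 p1 p2 a) (T p0 p1 p2 b) (T p0 p1 p2 c) := by
  refine ⟨?_, ?_, ?_, ?_, ?_, ?_, ?_, fun ho => (h.odd ho).perm _ _ _⟩ <;>
    simp only [T_lin, hp.N_eq, hp.facts.2.1]
  exacts [h.pos, h.h12, h.h23, h.r1, h.r2, h.r3, h.det]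

theorem RF.sign {D : ℤ} {o : Prop} {a b c : V} (h : RF D o a b c) {e1 e2 e3 : ℤ}
    (h1 : |e1| = 1) (h2 : |e2| = 1) (h3 : |e3| = 1) :
    RF D o (lin e1 0 0 a b c) (lin 0 e2 0 a b c) (lin 0 0 e3 a b c) ∧
      N (lin e1 0 0 a b c) = N a ∧ N (lin 0 e2 0 a b c) = N b ∧ N (lin 0 0 e3 a b c) = N c := by
  have n1 : N (lin e1 0 0 a b c) = N a := by simp [N, u_lin, abs_mul, h1]
  have n2 : N (lin 0 e2 0 a b c) = N b := by simp [N, u_lin, abs_mul, h2]
  have n3 : N (lin 0 0 e3 a b c) = N c := by simp [N, u_lin, abs_mul, h3]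
  have hU : |dt e1 0 0 0 e2 0 0 0 e3| = 1 := by simp [dt, abs_mul, h1, h2, h3]
  refine ⟨⟨?_, ?_, ?_, fun x y z hx => ?_, fun x y z hx => ?_, fun x y z hx => ?_, ?_,
    fun ho => (h.odd ho).uni hU⟩, n1, n2, n3⟩
  · rw [n1]; exact h.pos
  · rw [n1, n2]; exact h.h12
  · rw [n2, n3]; exact h.h23
  · rw [n1, lin_lin]; exact h.r1 _ _ _ (by simp [abs_mul, hx, h1])
  · rw [n2, lin_lin]; exact h.r2 _ _ _ (by simp [abs_mul, hx, h2])
  · rw [n3, lin_lin]; exact h.r3 _ _ _ (by simp [abs_mul, hx, h3])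
  · rw [det_lin, abs_mul, hU, one_mul, h.det]

theorem exists_red (s D : ℤ) (hs : 0 < s) (o : Prop) (a b c : V) (h1 : Adm s a b c)
    (h2 : |det3 a b c| = D) (h3 : o → HasOdd a b c) :
    ∃ a b c, RF D o a b c ∧ s ≤ N a := by
  classical
  have ex : ∃ n : ℕ, ∃ a b c, (Adm s a b c ∧ |det3 a b c| = D ∧ (o → HasOdd a b c)) ∧
      3 * N a + 2 * N b + N c = n :=
    ⟨(3 * N a + 2 * N b + N c).toNat, a, b, c, ⟨h1, h2, h3⟩, by
      have := N_nonneg a; have := N_nonneg b; have := N_nonneg c; omega⟩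
  obtain ⟨a, b, c, ⟨h1, h2, h3⟩, e⟩ := Nat.find_spec ex
  have key : ∀ a0 a1 a2 b0 b1 b2 c0 c1 c2 : ℤ, |dt a0 a1 a2 b0 b1 b2 c0 c1 c2| = 1 →
      3 * N a + 2 * N b + N c ≤
        3 * N (lin a0 a1 a2 a b c) + 2 * N (lin b0 b1 b2 a b c) + N (lin c0 c1 c2 a b c) := by
    intro a0 a1 a2 b0 b1 b2 c0 c1 c2 hU
    have p1 := N_nonneg (lin a0 a1 a2 a b c)
    have p2 := N_nonneg (lin b0 b1 b2 a b c)
    have p3 := N_nonneg (lin c0 c1 c2 a b c)
    have := Nat.find_min' ex (m := (3 * N (lin a0 a1 a2 a b c) + 2 * N (lin b0 b1 b2 a b c) +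
      N (lin c0 c1 c2 a b c)).toNat) ⟨_, _, _, ⟨h1.uni (fun h => by simp [h] at hU),
        by rw [det_lin, abs_mul, hU, one_mul, h2], fun ho => (h3 ho).uni hU⟩, by omega⟩
    omega
  have hs1 : s ≤ N a := by simpa [lin1] using h1 1 0 0 (by simp)
  refine ⟨a, b, c, ⟨by omega, ?_, ?_, fun x y z hx => ?_, fun x y z hx => ?_,
    fun x y z hx => ?_, h2, h3⟩, hs1⟩
  · have := key 0 1 0 1 0 0 0 0 1 (by simp [dt])
    rw [lin1, lin2, lin3] at this
    omega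
  · have := key 1 0 0 0 0 1 0 1 0 (by simp [dt])
    rw [lin1, lin2, lin3] at this
    omega
  · have := key x y z 0 1 0 0 0 1 (by simp [dt, hx])
    rw [lin2, lin3] at this
    omega
  · have := key 1 0 0 x y z 0 0 1 (by simp [dt, hx])
    rw [lin1, lin3] at this
    omega
  · have := key 1 0 0 0 1 0 x y z (by simp [dt, hx])
    rw [lin1, lin2] at this
    omega

end Pool.Agent.MP_824cb5_co.T3

end

section

namespace Pool.Agent.MP_824cb5_co.T3

open Finset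

def Concl (s D : ℤ) (o : Prop) : Prop :=
  147 * s ^ 3 ≤ 200 * D ∨ (19 * s ^ 3 ≤ 27 * D ∧ (o → Low s D))

theorem loc_concl {s D : ℤ} {o : Prop} (A B C : V) (hs : 0 < s) (hD : |det3 A B C| = D)
    (ho : o → HasOdd A B C) (h1 : s ≤ u 0 A) (h2 : s ≤ u 1 B) (h3 : s ≤ u 2 C)
    (h4 : s ≤ u 0 A + u 0 C) (h5 : s ≤ u 1 A + u 1 B) (h6 : s ≤ u 2 B + u 2 C)
    (h7 : s ≤ -(u 3 A + u 3 B + u 3 C)) (ha : u 0 B ≤ 0) (hb : u 1 C ≤ 0) (hc : u 2 A ≤ 0)
    (hk : 0 ≤ -4 * (u 0 A + u 1 B + u 2 C) -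
      2 * (u 0 A + u 0 C + (u 1 A + u 1 B) + (u 2 B + u 2 C)) + 23 * s +
        4 * (u 3 A + u 3 B + u 3 C)) : Concl s D o := by
  obtain ⟨a0, a1, a2⟩ := A
  obtain ⟨b0, b1, b2⟩ := B
  obtain ⟨c0, c1, c2⟩ := C
  simp only [u] at h1 h2 h3 h4 h5 h6 h7 ha hb hc hk
  have e : dL s (a0 - s) (b1 - s) (c2 - s) (a0 + c0 - s) (a1 + b1 - s) (b2 + c2 - s) (-b0) (-c1)
      (-a2) = det3 (a0, a1, a2) (b0, b1, b2) (c0, c1, c2) := by
    simp only [dL, det3, dt]; ring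
  have hl := le_abs_self (det3 (a0, a1, a2) (b0, b1, b2) (c0, c1, c2))
  rw [hD, ← e] at hl
  rcases local_bound s (a0 - s) (b1 - s) (c2 - s) (a0 + c0 - s) (a1 + b1 - s) (b2 + c2 - s)
    (a0 + a1 + a2 + b0 + b1 + b2 + c0 + c1 + c2 - s) (-b0) (-c1) (-a2) hs (by omega) (by omega)
    (by omega) (by omega) (by omega) (by omega) (by omega) (by omega) (by omega) (by omega)
    (by omega) (by omega) with h | h
  · exact Or.inl (by omega)
  refine Or.inr ⟨?_, fun g => ?_⟩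
  · have := mul_nonneg (sq_nonneg s) (show 0 ≤ 54 * (a0 - s + (b1 - s) + (c2 - s) +
      (a0 + a1 + a2 + b0 + b1 + b2 + c0 + c1 + c2 - s)) +
        27 * (a0 + c0 - s + (a1 + b1 - s) + (b2 + c2 - s)) by omega)
    omega
  · obtain ⟨z1, z2, z3, o1, o2, o3⟩ := ho g
    simp only [lin] at o1 o2 o3
    refine (loc_int s _ _ _ _ _ _ _ _ _ _ z1 z2 z3 hs (by omega) (by omega)
      (by omega) (by omega) (by omega) (by omega) (by omega) (by omega) (by omega) (by omega)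
      (by omega) ?_ ?_ ?_ h).mono hl
    · convert o1 using 2; ring
    · convert o2 using 2; ring
    · convert o3 using 2; ring

def vv (a b c : V) (i : ℕ) : ℤ :=
  [a.1, a.2.1, a.2.2, b.1, b.2.1, b.2.2, c.1, c.2.1, c.2.2].getD i 0

theorem dot9 (g0 g1 g2 g3 g4 g5 g6 g7 g8 : ℤ) (a b c : V) :
    dot 9 [g0, g1, g2, g3, g4, g5, g6, g7, g8] (vv a b c) =
      g0 * a.1 + g1 * a.2.1 + g2 * a.2.2 + g3 * b.1 + g4 * b.2.1 + g5 * b.2.2 + g6 * c.1 +
        g7 * c.2.1 + g8 * c.2.2 := by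
  simp only [dot, sum_range_succ, sum_range_zero, zero_add]
  rfl

theorem dot_uf (i : ℕ) (x y z : ℤ) (a b c : V) :
    dot 9 (uf i x y z) (vv a b c) = x * u i a + y * u i b + z * u i c := by
  rcases i with _ | _ | _ | i <;> simp only [uf, u, dot9] <;> ring

theorem dot_lc (x y z : ℤ) (f g h : List ℤ) (v : ℕ → ℤ) :
    dot 9 (lc x f y g z h) v = x * dot 9 f v + y * dot 9 g v + z * dot 9 h v := by
  rw [lc, dot_accS 9 _ _ _ _ _ _ _ (by simp), dot_replicate, zero_add]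

theorem gK_ok : gK.ok :=
  gK.ok_of (by decide +kernel) (by decide +kernel) (by decide +kernel) (by decide +kernel)
    (by decide +kernel)

theorem hyp {D : ℤ} {o : Prop} {a b c : V} (h : RF D o a b c) (i2 i3 : ℕ) (e1 : u 0 a = N a)
    (e2 : u i2 b = N b) (e3 : u i3 c = N c) (hc : N b + 2 * N c ≤ 6 * N a) :
    Hyp (gI i2 i3) (vv a b c) (Concl (N a) D o) := by
  have el : dot (gI i2 i3).K.n (gI i2 i3).ell (vv a b c) = N a := by
    show dot 9 (uf 0 1 0 0) _ = _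
    rw [dot_uf, e1]; ring
  have p1 := h.pos
  have p2 := h.h12
  have p3 := h.h23
  have hD := h.det
  have ea : a.1 = N a := e1
  refine ⟨gK_ok, show 9 ≤ 10 by decide, show srt gK gK.L 0 = true by decide +kernel,
    by rw [el]; omega, show 0 < 2 by decide, ?_, ?_, ?_, ?_, ?_⟩
  · rw [el]
    intro i hi
    have hi' : i < 9 := hi
    show (2 : ℤ) * |vv a b c i| ≤ (([2, 2, 2, 4, 4, 4, 5, 5, 5] : List ℕ).getD i 0 : ℕ) * N a
    have a0 : |vv a b c 0| ≤ N a := le_N 0 a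
    have a1 : |vv a b c 1| ≤ N a := le_N 1 a
    have a2 : |vv a b c 2| ≤ N a := le_N 2 a
    have a3 : |vv a b c 3| ≤ N b := le_N 0 b
    have a4 : |vv a b c 4| ≤ N b := le_N 1 b
    have a5 : |vv a b c 5| ≤ N b := le_N 2 b
    have a6 : |vv a b c 6| ≤ N c := le_N 0 c
    have a7 : |vv a b c 7| ≤ N c := le_N 1 c
    have a8 : |vv a b c 8| ≤ N c := le_N 2 c
    interval_cases i <;> simp only [List.getD_cons_succ, List.getD_cons_zero] <;> omega
  · intro g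
    left
    have := le_abs_self (det3 a b c)
    simp only [gI, gK, gT0, tval, dot9] at g
    rw [hD, det3, dt] at this
    rw [← ea]
    linarith
  · intro g
    left
    have := neg_le_abs (det3 a b c)
    simp only [gI, gK, gT1, tval, dot9] at g
    rw [hD, det3, dt] at this
    rw [← ea]
    linarith
  · intro d g
    have g' : gokB d = true := g
    rw [gokB, Bool.and_eq_true, beq_iff_eq, List.all_eq_true] at g'
    have g1 : |gz d| = 1 := by rw [Int.abs_eq_natAbs, g'.1]; rfl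
    have l1 : dot 9 (gbl i2 i3 d) (vv a b c) ≤ N (lin (zc d 1) (zc d 16) (zc d 256) a b c) := by
      unfold gz at g1
      unfold gbl
      generalize d / 4096 % 4 = j at g1
      rcases j with _ | _ | j
      · show dot 9 (uf 0 1 0 0) _ ≤ _
        rw [dot_uf, e1]; simpa using h.r1 _ _ _ g1
      · show dot 9 (uf i2 0 1 0) _ ≤ _
        rw [dot_uf, e2]; simpa using h.r2 _ _ _ g1
      · show dot 9 (uf i3 0 0 1) _ ≤ _
        rw [dot_uf, e3]; simpa using h.r3 _ _ _ g1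
    obtain ⟨i, hi, e⟩ := N_abs (lin (zc d 1) (zc d 16) (zc d 256) a b c)
    rw [e, u_lin] at l1
    rcases le_abs.1 l1 with l2 | l2
    · obtain ⟨k, k1, k2⟩ := List.any_eq_true.1 (g'.2 (2 * i) (List.mem_range.2 (by omega)))
      rw [beq_iff_eq] at k2
      refine ⟨k, List.mem_range.1 k1, l2.trans (le_of_eq ?_)⟩
      show _ = dot 9 (gbr d k) _
      rw [gbr, k2, if_pos (by omega), dot_uf, show 2 * i / 2 = i by omega]
    · obtain ⟨k, k1, k2⟩ := List.any_eq_true.1 (g'.2 (2 * i + 1) (List.mem_range.2 (by omega)))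
      rw [beq_iff_eq] at k2
      refine ⟨k, List.mem_range.1 k1, l2.trans (le_of_eq ?_)⟩
      show _ = dot 9 (gbr d k) _
      rw [gbr, k2, if_neg (by omega), dot_uf, show (2 * i + 1) / 2 = i by omega]
      ring
  · intro d g r
    have g' : gokC d = true := g
    have r' : ∀ f ∈ gcr d, 0 ≤ dot 9 f (vv a b c) := r
    rw [gokC, Bool.and_eq_true, beq_iff_eq, beq_iff_eq] at g'
    have hp : P4 (pc d 0) (pc d 1) (pc d 2) (pc d 3) :=
      ⟨Nat.mod_lt _ (by decide), Nat.mod_lt _ (by decide), Nat.mod_lt _ (by decide),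
        Nat.mod_lt _ (by decide), g'.2⟩
    have hU : |dt (uc d 0) (uc d 1) (uc d 2) (uc d 3) (uc d 4) (uc d 5) (uc d 6) (uc d 7)
      (uc d 8)| = 1 := by rw [Int.abs_eq_natAbs, g'.1]; rfl
    unfold gcr at r'
    generalize uc d 0 = a0, uc d 1 = a1, uc d 2 = a2, uc d 3 = b0, uc d 4 = b1, uc d 5 = b2,
      uc d 6 = c0, uc d 7 = c1, uc d 8 = c2, pc d 0 = p0, pc d 1 = p1, pc d 2 = p2,
      pc d 3 = p3 at hp hU r'
    simp only [crs, List.forall_mem_cons, dot_lc, dot_uf, dot_nil, e1] at r'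
    obtain ⟨r1, r2, r3, r4, r5, r6, r7, r8, r9, r10, r11, -⟩ := r'
    have t0 : ∀ v, u 0 (T p0 p1 p2 v) = u p0 v := fun _ => rfl
    have t1 : ∀ v, u 1 (T p0 p1 p2 v) = u p1 v := fun _ => rfl
    have t2 : ∀ v, u 2 (T p0 p1 p2 v) = u p2 v := fun _ => rfl
    refine loc_concl (T p0 p1 p2 (lin a0 a1 a2 a b c)) (T p0 p1 p2 (lin b0 b1 b2 a b c))
      (T p0 p1 p2 (lin c0 c1 c2 a b c)) h.pos
      (by rw [hp.facts.2.1, det_lin, abs_mul, hU, one_mul, hD])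
      (fun g => ((h.odd g).uni hU).perm _ _ _) ?_ ?_ ?_ ?_ ?_ ?_ ?_ ?_ ?_ ?_ ?_ <;>
      simp only [t0, t1, t2, hp.facts.1, u_lin] <;> linarith

end Pool.Agent.MP_824cb5_co.T3

end

section

namespace Pool.Agent.MP_824cb5_co.T3

theorem round_ex (a b c : V) (h : ∀ x y : ℤ, N c ≤ N (lin x y 1 a b c)) (p q : ℚ) :
    ∃ j < 4, (N c : ℚ) - N a / 2 - N b / 2 ≤ |(u j c : ℚ) - p * u j a - q * u j b| := by
  obtain ⟨j, hj, e⟩ := N_abs (lin (-round p) (-round q) 1 a b c)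
  refine ⟨j, hj, ?_⟩
  have h1 := h (-round p) (-round q)
  rw [e, u_lin] at h1
  have h2 : (N c : ℚ) ≤ |((u j c : ℚ) - p * u j a - q * u j b) + (p - round p) * u j a +
      (q - round q) * u j b| := by
    have : (N c : ℚ) ≤ ((|-round p * u j a + -round q * u j b + 1 * u j c| : ℤ) : ℚ) := by
      exact_mod_cast h1
    refine this.trans (le_of_eq ?_)
    push_cast
    congr 1
    ring
  have h3 : |(p - round p) * u j a| ≤ 1 / 2 * (N a : ℚ) := by
    rw [abs_mul]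
    exact mul_le_mul (abs_sub_round p) (by exact_mod_cast le_N j a) (abs_nonneg _) (by norm_num)
  have h4 : |(q - round q) * u j b| ≤ 1 / 2 * (N b : ℚ) := by
    rw [abs_mul]
    exact mul_le_mul (abs_sub_round q) (by exact_mod_cast le_N j b) (abs_nonneg _) (by norm_num)
  have h5 := abs_add_three ((u j c : ℚ) - p * u j a - q * u j b) ((p - round p) * u j a)
    ((q - round q) * u j b)
  linarith

theorem proj2 (a b : V) (h : ∀ x : ℤ, N b ≤ N (lin x 0 1 a 0 b)) (e : u 0 a = N a)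
    (hp : 0 < N a) : ∃ j < 4, (2 * N b - N a) * N a ≤ 2 * |u 0 a * u j b - u j a * u 0 b| := by
  obtain ⟨j, hj, h1⟩ := round_ex a 0 b (fun x y => by simpa [lin] using h x)
    ((u 0 b : ℚ) / N a) 0
  refine ⟨j, hj, ?_⟩
  have hq : (0 : ℚ) < N a := by exact_mod_cast hp
  have h0 : N (0 : V) = 0 := by simp [N, u]
  have h2 : (u j b : ℚ) - (u 0 b : ℚ) / N a * u j a - 0 * u j (0 : V) =
      ((N a : ℚ) * u j b - u j a * u 0 b) / N a := by field_simp; ring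
  rw [h2, abs_div, abs_of_pos hq, le_div_iff₀ hq, h0] at h1
  rw [e]
  have : ((2 * N b - N a) * N a : ℚ) ≤ 2 * |(N a : ℚ) * u j b - u j a * u 0 b| := by
    push_cast at h1
    linarith
  exact_mod_cast this

theorem proj3 (a b c : V) (h : ∀ x y : ℤ, N c ≤ N (lin x y 1 a b c))
    (hd : u 0 a * u 1 b - u 1 a * u 0 b ≠ 0) :
    (2 * N c - N a - N b) * |u 0 a * u 1 b - u 1 a * u 0 b| ≤ 2 * |det3 a b c| := by
  have hq : ((u 0 a : ℚ) * u 1 b - u 1 a * u 0 b) ≠ 0 := by exact_mod_cast hd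
  obtain ⟨j, hj, h1⟩ := round_ex a b c h
    (((u 0 c : ℚ) * u 1 b - u 1 c * u 0 b) / ((u 0 a : ℚ) * u 1 b - u 1 a * u 0 b))
    (((u 0 a : ℚ) * u 1 c - u 1 a * u 0 c) / ((u 0 a : ℚ) * u 1 b - u 1 a * u 0 b))
  have h2 : ∃ t : ℚ, |t| ≤ |(det3 a b c : ℚ)| ∧ (u j c : ℚ) -
      ((u 0 c : ℚ) * u 1 b - u 1 c * u 0 b) / ((u 0 a : ℚ) * u 1 b - u 1 a * u 0 b) * u j a -
      ((u 0 a : ℚ) * u 1 c - u 1 a * u 0 c) / ((u 0 a : ℚ) * u 1 b - u 1 a * u 0 b) * u j b =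
        t / ((u 0 a : ℚ) * u 1 b - u 1 a * u 0 b) := by
    have key : ∀ x A B y z t d : ℚ, d ≠ 0 → x * d - A * y - B * z = t →
        x - A / d * y - B / d * z = t / d := fun x A B y z t d h1 h2 => by
      rw [← h2]; field_simp
    interval_cases j
    · exact ⟨0, by simp, key _ _ _ _ _ _ _ hq (by ring)⟩
    · exact ⟨0, by simp, key _ _ _ _ _ _ _ hq (by ring)⟩
    · exact ⟨det3 a b c, le_rfl, key _ _ _ _ _ _ _ hq (by
        simp only [u, det3, dt]; push_cast; ring)⟩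
    · exact ⟨-det3 a b c, by simp, key _ _ _ _ _ _ _ hq (by
        simp only [u, det3, dt]; push_cast; ring)⟩
  obtain ⟨t, h3, h4⟩ := h2
  rw [h4, abs_div, le_div_iff₀ (abs_pos.2 hq)] at h1
  have : ((2 * N c - N a - N b) * |(u 0 a : ℚ) * u 1 b - u 1 a * u 0 b| : ℚ) ≤
      2 * |(det3 a b c : ℚ)| := by linarith
  exact_mod_cast this

theorem proj {D : ℤ} {o : Prop} {a b c : V} (h : RF D o a b c) (e : u 0 a = N a)
    (hc : 6 * N a ≤ N b + 2 * N c) : 3 * N a ^ 3 ≤ 4 * D := by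
  have p1 := h.pos
  have p2 := h.h12
  have p3 := h.h23
  obtain ⟨j, hj, h1⟩ := proj2 a b (fun x => by simpa [lin] using h.r2 x 1 0 (by simp)) e p1
  have h2 : 0 < (2 * N b - N a) * N a := mul_pos (by omega) p1
  have h3 : u 0 a * u j b - u j a * u 0 b ≠ 0 := fun h0 => by rw [h0, abs_zero] at h1; omega
  obtain ⟨p2, p3, hp⟩ : ∃ p2 p3, P4 0 j p2 p3 := by
    interval_cases j
    · exact (h3 (by ring)).elim
    · exact ⟨2, 3, by decide, by decide, by decide, by decide, by decide⟩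
    · exact ⟨1, 3, by decide, by decide, by decide, by decide, by decide⟩
    · exact ⟨1, 2, by decide, by decide, by decide, by decide, by decide⟩
  have h4 := proj3 _ _ _ (fun x y => (h.perm hp).r3 x y 1 (by simp)) h3
  rw [(h.perm hp).det, hp.N_eq, hp.N_eq, hp.N_eq] at h4
  have h5 : (2 * N c - N a - N b) * |u 0 a * u j b - u j a * u 0 b| ≤ 2 * D := h4
  generalize |u 0 a * u j b - u j a * u 0 b| = m at h1 h5
  generalize N a = x at *
  generalize N b = y at *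
  generalize N c = z at *
  have h6 := mul_le_mul_of_nonneg_left h1 (show 0 ≤ 2 * z - x - y by omega)
  have h7 : 3 * x ^ 2 ≤ (2 * z - x - y) * (2 * y - x) := by
    rcases le_total y (2 * x) with g | g
    · have := mul_nonneg (show 0 ≤ y - x by omega) (show 0 ≤ 2 * x - y by omega)
      have := mul_nonneg (show 0 ≤ y + 2 * z - 6 * x by omega) (show 0 ≤ 2 * y - x by omega)
      linarith
    · have := mul_nonneg (show 0 ≤ y - 2 * x by omega) (show 0 ≤ 2 * y + x by omega)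
      have := mul_nonneg (show 0 ≤ z - y by omega) (show 0 ≤ 2 * y - x by omega)
      linarith
  have h8 := mul_le_mul_of_nonneg_left h7 p1.le
  linarith

end Pool.Agent.MP_824cb5_co.T3

end
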