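import Pool.Agent.MP_824cb5_co.T3.GTop
import Pool.Agent.Mg.F824cb5.G595e8f
import Mathlib

section

namespace Pool.Agent.MP_824cb5_co.T3

theorem bds (a : V) : -N a ≤ a.1 ∧ a.1 ≤ N a ∧ -N a ≤ a.2.1 ∧ a.2.1 ≤ N a ∧ -N a ≤ a.2.2 ∧
    a.2.2 ≤ N a ∧ -N a ≤ -a.1 - a.2.1 - a.2.2 ∧ -a.1 - a.2.1 - a.2.2 ≤ N a :=
  ⟨(abs_le.1 (le_N 0 a)).1, (abs_le.1 (le_N 0 a)).2, (abs_le.1 (le_N 1 a)).1,
    (abs_le.1 (le_N 1 a)).2, (abs_le.1 (le_N 2 a)).1, (abs_le.1 (le_N 2 a)).2,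
    (abs_le.1 (le_N 3 a)).1, (abs_le.1 (le_N 3 a)).2⟩

section
variable {D : ℤ} {o : Prop} {a b c : V} (h : RF D o a b c) (hc : N b + 2 * N c ≤ 6 * N a)
  (e1 : u 0 a = N a)
include h hc e1

theorem std12 (e2 : u 1 b = N b) (e3 : u 2 c = N c) : Concl (N a) D o := by
  refine top12 _ _ (hyp h 1 2 e1 e2 e3 hc) ?_
  have := bds a; have := bds b; have := bds c; have := h.pos; have := h.h12; have := h.h23
  simp only [u] at e1 e2 e3
  simp only [SatL, c12, List.forall_mem_cons, dot9]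
  refine ⟨?_, ?_, ?_, ?_, ?_, ?_, ?_, ?_, ?_, ?_, ?_, ?_, ?_, ?_, ?_, ?_, ?_, ?_, ?_, ?_, ?_, ?_,
    ?_, ?_, ?_, by simp⟩ <;> exact ⟨by omega, fun h => by first | omega | cases h⟩

theorem std00 (e2 : u 0 b = N b) (e3 : u 0 c = N c) (s1 : u 2 a ≤ u 1 a) (s2 : u 3 a ≤ u 2 a) :
    Concl (N a) D o := by
  refine top00 _ _ (hyp h 0 0 e1 e2 e3 hc) ?_
  have := bds a; have := bds b; have := bds c; have := h.pos; have := h.h12; have := h.h23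
  simp only [u] at e1 e2 e3 s1 s2
  simp only [SatL, c00, List.forall_mem_cons, dot9]
  refine ⟨?_, ?_, ?_, ?_, ?_, ?_, ?_, ?_, ?_, ?_, ?_, ?_, ?_, ?_, ?_, ?_, ?_, ?_, ?_, ?_, ?_, ?_,
    ?_, ?_, ?_, ?_, ?_, by simp⟩ <;> exact ⟨by omega, fun h => by first | omega | cases h⟩

theorem std10 (e2 : u 1 b = N b) (e3 : u 0 c = N c) (s2 : u 3 a ≤ u 2 a) : Concl (N a) D o := by
  refine top10 _ _ (hyp h 1 0 e1 e2 e3 hc) ?_
  have := bds a; have := bds b; have := bds c; have := h.pos; have := h.h12; have := h.h23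
  simp only [u] at e1 e2 e3 s2
  simp only [SatL, c10, List.forall_mem_cons, dot9]
  refine ⟨?_, ?_, ?_, ?_, ?_, ?_, ?_, ?_, ?_, ?_, ?_, ?_, ?_, ?_, ?_, ?_, ?_, ?_, ?_, ?_, ?_, ?_,
    ?_, ?_, ?_, ?_, by simp⟩ <;> exact ⟨by omega, fun h => by first | omega | cases h⟩

theorem std01 (e2 : u 0 b = N b) (e3 : u 1 c = N c) (s2 : u 3 a ≤ u 2 a) : Concl (N a) D o := by
  refine top01 _ _ (hyp h 0 1 e1 e2 e3 hc) ?_
  have := bds a; have := bds b; have := bds c; have := h.pos; have := h.h12; have := h.h23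
  simp only [u] at e1 e2 e3 s2
  simp only [SatL, c01, List.forall_mem_cons, dot9]
  refine ⟨?_, ?_, ?_, ?_, ?_, ?_, ?_, ?_, ?_, ?_, ?_, ?_, ?_, ?_, ?_, ?_, ?_, ?_, ?_, ?_, ?_, ?_,
    ?_, ?_, ?_, ?_, by simp⟩ <;> exact ⟨by omega, fun h => by first | omega | cases h⟩

theorem std11 (e2 : u 1 b = N b) (e3 : u 1 c = N c) (s2 : u 3 a ≤ u 2 a) : Concl (N a) D o := by
  refine top11 _ _ (hyp h 1 1 e1 e2 e3 hc) ?_
  have := bds a; have := bds b; have := bds c; have := h.pos; have := h.h12; have := h.h23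
  simp only [u] at e1 e2 e3 s2
  simp only [SatL, c11, List.forall_mem_cons, dot9]
  refine ⟨?_, ?_, ?_, ?_, ?_, ?_, ?_, ?_, ?_, ?_, ?_, ?_, ?_, ?_, ?_, ?_, ?_, ?_, ?_, ?_, ?_, ?_,
    ?_, ?_, ?_, ?_, by simp⟩ <;> exact ⟨by omega, fun h => by first | omega | cases h⟩

end

theorem ex_two {i j : ℕ} (hi : i < 4) (hj : j < 4) (h : i ≠ j) (g : ℕ → ℤ) :
    ∃ k l, P4 i j k l ∧ g l ≤ g k := by
  have : ∀ i < 4, ∀ j < 4, i ≠ j → ∃ k < 4, ∃ l < 4, 2 ^ i + 2 ^ j + 2 ^ k + 2 ^ l = 15 := by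
    decide
  obtain ⟨k, hk, l, hl, e⟩ := this i hi j hj h
  rcases le_total (g l) (g k) with h | h
  · exact ⟨k, l, ⟨hi, hj, hk, hl, e⟩, h⟩
  · exact ⟨l, k, ⟨hi, hj, hl, hk, by omega⟩, h⟩

theorem ex_one {i : ℕ} (hi : i < 4) (g : ℕ → ℤ) :
    ∃ j k l, P4 i j k l ∧ g k ≤ g j ∧ g l ≤ g k := by
  have : ∀ i < 4, ∃ j < 4, ∃ k < 4, ∃ l < 4, 2 ^ i + 2 ^ j + 2 ^ k + 2 ^ l = 15 := by decide
  obtain ⟨j, hj, k, hk, l, hl, e⟩ := this i hi
  rcases le_total (g l) (g k) with h1 | h1 <;> rcases le_total (g k) (g j) with h2 | h2 <;>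
    rcases le_total (g l) (g j) with h3 | h3
  · exact ⟨j, k, l, ⟨hi, hj, hk, hl, e⟩, h2, h1⟩
  · exact ⟨j, k, l, ⟨hi, hj, hk, hl, e⟩, h2, h1⟩
  · exact ⟨k, j, l, ⟨hi, hk, hj, hl, by omega⟩, h2, h3⟩
  · exact ⟨k, l, j, ⟨hi, hk, hl, hj, by omega⟩, h1, h3⟩
  · exact ⟨j, l, k, ⟨hi, hj, hl, hk, by omega⟩, h3, h1⟩
  · exact ⟨l, j, k, ⟨hi, hl, hj, hk, by omega⟩, h3, h2⟩
  · exact ⟨l, k, j, ⟨hi, hl, hk, hj, by omega⟩, h1, h2⟩
  · exact ⟨l, k, j, ⟨hi, hl, hk, hj, by omega⟩, h1, h2⟩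

theorem ex_three : ∀ i < 4, ∀ j < 4, ∀ k < 4, i = j ∨ i = k ∨ j = k ∨
    ∃ l < 4, 2 ^ i + 2 ^ j + 2 ^ k + 2 ^ l = 15 := by decide

theorem concl_pos {D : ℤ} {o : Prop} {a b c : V} (h : RF D o a b c) {i j k : ℕ} (hi : i < 4)
    (hj : j < 4) (hk : k < 4) (e1 : u i a = N a) (e2 : u j b = N b) (e3 : u k c = N c) :
    Concl (N a) D o := by
  have hp3 : 0 < N a ^ 3 := pow_pos h.pos 3
  rcases le_total (6 * N a) (N b + 2 * N c) with hc | hc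
  · obtain ⟨p1, p2, p3, hp, -⟩ := ex_one hi fun _ => 0
    have := proj (h.perm hp) (by rw [hp.N_eq]; exact e1) (by simpa only [hp.N_eq] using hc)
    rw [hp.N_eq] at this
    exact Or.inl (by omega)
  by_cases h1 : i = j
  · subst h1
    by_cases h2 : i = k
    · subst h2
      obtain ⟨p1, p2, p3, hp, s1, s2⟩ := ex_one hi fun t => u t a
      rw [← hp.N_eq a]
      exact std00 (h.perm hp) (by simpa only [hp.N_eq] using hc) (by rw [hp.N_eq]; exact e1)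
        (by rw [hp.N_eq]; exact e2) (by rw [hp.N_eq]; exact e3) s1 (by rw [hp.facts.1]; exact s2)
    · obtain ⟨p2, p3, hp, s2⟩ := ex_two hi hk h2 fun t => u t a
      rw [← hp.N_eq a]
      exact std01 (h.perm hp) (by simpa only [hp.N_eq] using hc) (by rw [hp.N_eq]; exact e1)
        (by rw [hp.N_eq]; exact e2) (by rw [hp.N_eq]; exact e3) (by rw [hp.facts.1]; exact s2)
  by_cases h2 : i = k
  · subst h2
    obtain ⟨p2, p3, hp, s2⟩ := ex_two hi hj h1 fun t => u t a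
    rw [← hp.N_eq a]
    exact std10 (h.perm hp) (by simpa only [hp.N_eq] using hc) (by rw [hp.N_eq]; exact e1)
      (by rw [hp.N_eq]; exact e2) (by rw [hp.N_eq]; exact e3) (by rw [hp.facts.1]; exact s2)
  by_cases h3 : j = k
  · subst h3
    obtain ⟨p2, p3, hp, s2⟩ := ex_two hi hj h1 fun t => u t a
    rw [← hp.N_eq a]
    exact std11 (h.perm hp) (by simpa only [hp.N_eq] using hc) (by rw [hp.N_eq]; exact e1)
      (by rw [hp.N_eq]; exact e2) (by rw [hp.N_eq]; exact e3) (by rw [hp.facts.1]; exact s2)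
  · obtain ⟨l, hl, e⟩ :=
      (((ex_three i hi j hj k hk).resolve_left h1).resolve_left h2).resolve_left h3
    have hp : P4 i j k l := ⟨hi, hj, hk, hl, e⟩
    rw [← hp.N_eq a]
    exact std12 (h.perm hp) (by simpa only [hp.N_eq] using hc) (by rw [hp.N_eq]; exact e1)
      (by rw [hp.N_eq]; exact e2) (by rw [hp.N_eq]; exact e3)

theorem N_sign (v : V) : ∃ i < 4, ∃ e : ℤ, |e| = 1 ∧ e * u i v = N v := by
  obtain ⟨i, hi, h⟩ := N_abs v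
  rcases abs_choice (u i v) with g | g
  · exact ⟨i, hi, 1, by simp, by omega⟩
  · exact ⟨i, hi, -1, by simp, by omega⟩

theorem RF.concl {D : ℤ} {o : Prop} {a b c : V} (h : RF D o a b c) : Concl (N a) D o := by
  obtain ⟨i, hi, e1, g1, f1⟩ := N_sign a
  obtain ⟨j, hj, e2, g2, f2⟩ := N_sign b
  obtain ⟨k, hk, e3, g3, f3⟩ := N_sign c
  obtain ⟨h', n1, n2, n3⟩ := h.sign g1 g2 g3
  rw [← n1]
  exact concl_pos h' hi hj hk (by rw [n1, u_lin, f1]; ring) (by rw [n2, u_lin, f2]; ring)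
    (by rw [n3, u_lin, f3]; ring)

/-- lattices without an all-odd vector count twice -/
theorem low_even {s : ℤ} (hs : 1 ≤ s) {a b c : V} (h : Adm s a b c) :
    Low s (2 * |det3 a b c|) := by
  obtain ⟨a', b', c', h1, h2⟩ := exists_red s _ hs False a b c h rfl False.elim
  have h3 : s ^ 3 ≤ N a' ^ 3 := pow_le_pow_left₀ (by omega) h2 3
  have h4 : 19 * s ^ 3 ≤ 27 * |det3 a b c| := by
    have : 0 < s ^ 3 := pow_pos hs 3
    rcases h1.concl with g | g <;> omega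
  obtain ⟨t, rfl⟩ : ∃ t, s = 1 + t := ⟨s - 1, by ring⟩
  have h1 : 0 ≤ t := by omega
  have h2 := mul_nonneg h1 h1
  have h3 := mul_nonneg h1 h2
  exact low_A (by linarith)

theorem low_odd {s : ℤ} (hs : 3 ≤ s) {a b c : V} (h : Adm s a b c) (ho : HasOdd a b c) :
    Low s |det3 a b c| ∨ (s = 4 ∧ |det3 a b c| = 48) := by
  obtain ⟨a', b', c', h1, h2⟩ := exists_red s _ (by omega) True a b c h rfl fun _ => ho
  have h3 : s ^ 3 ≤ N a' ^ 3 := pow_le_pow_left₀ (by omega) h2 3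
  rcases h1.concl with g | ⟨g1, g2⟩
  · exact low_147 hs (by omega)
  rcases eq_or_lt_of_le h2 with e | e
  · exact Or.inl (e ▸ g2 trivial)
  · have h4 : (s + 1) ^ 3 ≤ N a' ^ 3 := pow_le_pow_left₀ (by omega) e 3
    have := sq_nonneg s
    exact Or.inl (low_A (by linarith))

end Pool.Agent.MP_824cb5_co.T3

end

section

namespace Pool.Agent.MP_824cb5_co.T3

/-- short even vectors `(p - 6, q - 6, t)` -/
def vecs : List (ℕ × ℕ × ℕ) :=
  [(12, 6, 0), (6, 12, 0), (6, 6, 6), (3, 9, 0), (9, 9, 0), (6, 3, 3), (3, 6, 3), (9, 6, 3), (6,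
    9, 3), (10, 6, 0), (6, 10, 0), (6, 6, 4), (4, 4, 2), (8, 4, 2), (4, 8, 2), (8, 8, 2), (2, 8,
    0), (10, 8, 0), (4, 10, 0), (8, 10, 0), (4, 8, 0), (8, 8, 0), (6, 2, 2), (6, 10, 2), (6, 4,
    2), (4, 6, 2), (8, 6, 2), (6, 8, 2), (2, 6, 2), (10, 6, 2), (6, 4, 4), (4, 6, 4), (8, 6, 4),
    (6, 8, 4), (5, 4, 1), (7, 4, 1), (5, 8, 1), (7, 8, 1), (4, 5, 1), (8, 5, 1), (4, 7, 1), (8, 7,
    1), (5, 5, 2), (7, 5, 2), (5, 7, 2), (7, 7, 2), (3, 7, 0), (9, 7, 0), (5, 9, 0), (7, 9, 0),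
    (6, 3, 1), (3, 6, 1), (9, 6, 1), (6, 9, 1), (6, 5, 3), (5, 6, 3), (7, 6, 3), (6, 7, 3), (4, 3,
    1), (8, 3, 1), (4, 9, 1), (8, 9, 1), (5, 3, 2), (7, 3, 2), (5, 9, 2), (7, 9, 2), (1, 7, 0),
    (11, 7, 0), (6, 1, 1), (3, 4, 1), (9, 4, 1), (1, 6, 1), (11, 6, 1), (3, 8, 1), (9, 8, 1), (6,
    11, 1), (3, 5, 2), (9, 5, 2), (3, 7, 2), (9, 7, 2), (5, 4, 3), (7, 4, 3), (4, 5, 3), (8, 5,
    3), (4, 7, 3), (8, 7, 3), (5, 8, 3), (7, 8, 3)]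

def hit (d1 d2 d3 x y z : ℕ) (e : ℕ × ℕ × ℕ) : Bool :=
  e.2.2 % d3 == 0 && ((e.2.1 + 330 - e.2.2 / d3 * z) % d2 == 0 &&
    (e.2.2 / d3 * y + (e.2.1 + 330 - e.2.2 / d3 * z) / d2 * x + 54 - e.1) % d1 == 0)

theorem srch : ((List.range 49).all fun d1 => (List.range 49).all fun d2 =>
    48 % (d1 * d2) != 0 || (List.range d2).all fun z => (List.range d1).all fun x =>
      (List.range d1).all fun y => vecs.any (hit d1 d2 (48 / (d1 * d2)) x y z)) = true := by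
  decide +kernel

theorem vecs_ok : ∀ e ∈ vecs, |(e.1 : ℤ) - 6| + |(e.2.1 : ℤ) - 6| + e.2.2 ≤ 6 ∧
    (e.1 + e.2.1 + e.2.2) % 2 = 0 ∧ ¬(e.1 = 6 ∧ e.2.1 = 6 ∧ e.2.2 = 0) := by decide +kernel

/-- every sublattice of index 48 has a nonzero even vector of norm at most 6 -/
theorem small48 (d1 d2 d3 x y z : ℕ) (h : d1 * d2 * d3 = 48) (hx : x < d1) (hy : y < d1)
    (hz : z < d2) : ∃ i j k : ℤ, ¬(i = 0 ∧ j = 0 ∧ k = 0) ∧
      (i * d1 + j * x + k * y + (j * d2 + k * z) + k * d3) % 2 = 0 ∧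
      |i * d1 + j * x + k * y| + |j * d2 + k * z| + |k * d3| ≤ 6 := by
  have h3 : 0 < d3 := Nat.pos_of_ne_zero fun e => by simp [e] at h
  have h12 : d1 * d2 ≤ 48 := Nat.le_of_dvd (by norm_num) ⟨d3, h.symm⟩
  have h1 : d1 ≤ 48 := (Nat.le_mul_of_pos_right _ (by omega)).trans h12
  have h2 : d2 ≤ 48 := (Nat.le_mul_of_pos_left _ (by omega)).trans h12
  have e3 : 48 / (d1 * d2) = d3 := by
    rw [← h]; exact Nat.mul_div_cancel_left _ (Nat.mul_pos (by omega) (by omega))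
  have s1 := List.all_eq_true.1 (List.all_eq_true.1 srch d1 (List.mem_range.2 (by omega))) d2
    (List.mem_range.2 (by omega))
  rw [e3, ← h, Nat.mul_mod_right] at s1
  obtain ⟨⟨p, q, t⟩, m1, m2⟩ := List.any_eq_true.1 (List.all_eq_true.1 (List.all_eq_true.1
    (List.all_eq_true.1 s1 z (List.mem_range.2 hz)) x (List.mem_range.2 hx)) y
      (List.mem_range.2 hy))
  obtain ⟨v1, v2, v3⟩ := vecs_ok _ m1
  simp only [hit, Bool.and_eq_true, beq_iff_eq] at m2 v1 v2 v3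
  obtain ⟨a1, a2, a3⟩ := m2
  obtain ⟨k, rfl⟩ := Nat.dvd_of_mod_eq_zero a1
  rw [Nat.mul_div_cancel_left _ h3] at a2 a3
  obtain ⟨j, ej⟩ := Nat.dvd_of_mod_eq_zero a2
  rw [ej, Nat.mul_div_cancel_left _ (by omega)] at a3
  obtain ⟨m, em⟩ := Nat.dvd_of_mod_eq_zero a3
  have b1 : k ≤ d3 * k := Nat.le_mul_of_pos_left _ h3
  have b0 := abs_nonneg ((p : ℤ) - 6)
  have b2 := abs_nonneg ((q : ℤ) - 6)
  have b3 := le_abs_self ((p : ℤ) - 6)
  have b4 : k * z ≤ 6 * 48 := Nat.mul_le_mul (by omega) (by omega)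
  have c1 : (q : ℤ) + 330 - k * z = d2 * j := by zify [show k * z ≤ q + 330 by omega] at ej; exact ej
  have c2 : (k : ℤ) * y + j * x + 54 - p = d1 * m := by
    zify [show p ≤ k * y + j * x + 54 by omega] at em; exact em
  have c3 : (d1 : ℤ) * d2 * d3 = 48 := by exact_mod_cast h
  have f1 : ((d2 : ℤ) * d3 - m + 7 * d3 * x) * d1 + (j - 7 * d1 * d3) * x + k * y = p - 6 := by
    linear_combination c2 + c3
  have f2 : ((j : ℤ) - 7 * d1 * d3) * d2 + k * z = q - 6 := by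
    linear_combination -c1 - 7 * c3
  have f3 : (k : ℤ) * d3 = ((d3 * k : ℕ) : ℤ) := by push_cast; ring
  refine ⟨d2 * d3 - m + 7 * d3 * x, j - 7 * d1 * d3, k, fun ⟨g1, g2, g3⟩ => v3 ?_, ?_, ?_⟩
  · rw [g1, g2, g3] at f1
    rw [g2, g3] at f2
    rw [g3] at f3
    omega
  · rw [f1, f2, f3]; omega
  · rw [f1, f2, f3, Nat.abs_cast]; exact v1

end Pool.Agent.MP_824cb5_co.T3

end
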