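import Pool.Agent.Mg.F824cb5.G1d2455
import Pool.Agent.MP_824cb5_co.T3.Link

section

namespace Pool.Agent.MP_824cb5_co.T3

def Ev (r : V) : Prop := (r.1 + r.2.1 + r.2.2) % 2 = 0

/-- the lattice with this basis has no nonzero even vector of norm at most `2 * h` -/
def GoodL (h : ℤ) (a b c : V) : Prop :=
  ∀ x y z : ℤ, ¬(x = 0 ∧ y = 0 ∧ z = 0) → Ev (lin x y z a b c) →
    2 * h < |(lin x y z a b c).1| + |(lin x y z a b c).2.1| + |(lin x y z a b c).2.2|

theorem GoodL.uni {s : ℤ} {a b c : V} (h : GoodL s a b c) {a0 a1 a2 b0 b1 b2 c0 c1 c2 : ℤ}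
    (hU : dt a0 a1 a2 b0 b1 b2 c0 c1 c2 ≠ 0) :
    GoodL s (lin a0 a1 a2 a b c) (lin b0 b1 b2 a b c) (lin c0 c1 c2 a b c) := by
  intro x y z hz
  rw [lin_lin]
  refine h _ _ _ fun ⟨h1, h2, h3⟩ => hz ⟨?_, ?_, ?_⟩ <;>
    refine (mul_eq_zero.1 ?_).resolve_left hU <;> unfold dt
  · linear_combination (b1 * c2 - b2 * c1) * h1 - (b0 * c2 - b2 * c0) * h2 +
      (b0 * c1 - b1 * c0) * h3
  · linear_combination (c1 * a2 - c2 * a1) * h1 - (c0 * a2 - c2 * a0) * h2 +
      (c0 * a1 - c1 * a0) * h3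
  · linear_combination (a1 * b2 - a2 * b1) * h1 - (a0 * b2 - a2 * b0) * h2 +
      (a0 * b1 - a1 * b0) * h3

/-- the even vector with half forms `f` -/
def X (f : V) : V := (f.1 + f.2.1, f.1 + f.2.2, -f.2.1 - f.2.2)

theorem X_norm (f : V) : |(X f).1| + |(X f).2.1| + |(X f).2.2| = 2 * N f := by
  simp only [X, N, u, abs_eq_max_neg]
  omega

theorem X_ev (f : V) : Ev (X f) := by
  simp only [X, Ev]
  omega

theorem Ev.ex {r : V} (h : Ev r) : ∃ f, X f = r := by
  obtain ⟨x, y, z⟩ := r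
  simp only [Ev] at h
  refine ⟨((x + y + z) / 2, (x - y - z) / 2, (-x + y - z) / 2), ?_⟩
  simp only [X, Prod.mk.injEq]
  omega

theorem X_lin (x y z : ℤ) (a b c : V) : lin x y z (X a) (X b) (X c) = X (lin x y z a b c) := by
  simp only [X, lin, Prod.mk.injEq]
  exact ⟨by ring, by ring, by ring⟩

theorem X_det (a b c : V) : det3 (X a) (X b) (X c) = 2 * det3 a b c := by
  simp only [X, det3, dt]
  ring

theorem GoodL.adm {h : ℤ} {a b c : V} (g : GoodL h (X a) (X b) (X c)) : Adm (h + 1) a b c := by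
  intro x y z hz
  have := g x y z hz (by rw [X_lin]; exact X_ev _)
  rw [X_lin, X_norm] at this
  omega

theorem GoodL.odd {h : ℤ} (hh : 2 ≤ h) {a b c : V} (g : GoodL h a b c) (ha : ¬Ev a) :
    Low (h + 1) |det3 a b c| ∨ (h + 1 = 4 ∧ |det3 a b c| = 48) := by
  have ev : ∀ r : V, ∃ e : ℤ, (e * a.1 + r.1 + (e * a.2.1 + r.2.1) + (e * a.2.2 + r.2.2)) % 2 = 0 :=
    fun r => by
      unfold Ev at ha
      rcases Int.emod_two_eq_zero_or_one (r.1 + r.2.1 + r.2.2) with p | p
      · exact ⟨0, by omega⟩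
      · exact ⟨1, by omega⟩
  obtain ⟨e2, p2⟩ := ev b
  obtain ⟨e3, p3⟩ := ev c
  have g' := g.uni (a0 := 2) (a1 := 0) (a2 := 0) (b0 := e2) (b1 := 1) (b2 := 0) (c0 := e3)
    (c1 := 0) (c2 := 1) (by simp [dt])
  have d' := det_lin 2 0 0 e2 1 0 e3 0 1 a b c
  obtain ⟨f1, q1⟩ := Ev.ex (r := lin 2 0 0 a b c) (by simp only [Ev, lin]; omega)
  obtain ⟨f2, q2⟩ := Ev.ex (r := lin e2 1 0 a b c) (by simpa [Ev, lin] using p2)
  obtain ⟨f3, q3⟩ := Ev.ex (r := lin e3 0 1 a b c) (by simpa [Ev, lin] using p3)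
  have ho : HasOdd f1 f2 f3 := by
    refine ⟨1, 0, 0, ?_⟩
    rw [lin1]
    simp only [X, lin, Prod.mk.injEq] at q1
    unfold Ev at ha
    unfold AO
    omega
  rw [← q1, ← q2, ← q3] at g' d'
  have e : det3 f1 f2 f3 = det3 a b c := by
    rw [X_det, dt] at d'
    omega
  rw [← e]
  exact low_odd (by omega) g'.adm ho

theorem GoodL.low {h : ℤ} (hh : 2 ≤ h) {a b c : V} (g : GoodL h a b c) :
    Low (h + 1) |det3 a b c| ∨ (h + 1 = 4 ∧ |det3 a b c| = 48) := by
  by_cases ha : Ev a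
  swap
  · exact g.odd hh ha
  by_cases hb : Ev b
  swap
  · have g' := g.uni (a0 := 0) (a1 := 1) (a2 := 0) (b0 := 0) (b1 := 0) (b2 := 1) (c0 := 1)
      (c1 := 0) (c2 := 0) (by simp [dt])
    rw [lin1, lin2, lin3] at g'
    rw [show det3 a b c = det3 b c a by simp only [det3, dt]; ring]
    exact g'.odd hh hb
  by_cases hc : Ev c
  swap
  · have g' := g.uni (a0 := 0) (a1 := 0) (a2 := 1) (b0 := 1) (b1 := 0) (b2 := 0) (c0 := 0)
      (c1 := 1) (c2 := 0) (by simp [dt])
    rw [lin1, lin2, lin3] at g'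
    rw [show det3 a b c = det3 c a b by simp only [det3, dt]; ring]
    exact g'.odd hh hc
  obtain ⟨f1, rfl⟩ := ha.ex
  obtain ⟨f2, rfl⟩ := hb.ex
  obtain ⟨f3, rfl⟩ := hc.ex
  rw [X_det, abs_mul]
  exact Or.inl (low_even (by omega) g.adm)

theorem lower (G : Type) [AddCommGroup G] [Finite G] (h : ℕ) (hh : 2 ≤ h) (g : Good3 G h) :
    Low (h + 1) (Nat.card G) := by
  obtain ⟨a, b, c, H⟩ := g
  obtain ⟨d1, d2, d3, x, y, z, h3, hx, hy, hz, hc, r1, r2, r3⟩ := hnf G a b c
  have key : ∀ i j k : ℤ, ¬(i = 0 ∧ j = 0 ∧ k = 0) →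
      (i * d1 + j * x + k * y + (j * d2 + k * z) + k * d3) % 2 = 0 →
      2 * (h : ℤ) < |i * d1 + j * x + k * y| + |j * d2 + k * z| + |k * d3| := by
    intro i j k hn he
    by_contra hl
    obtain ⟨e1, e2, e3⟩ := H _ _ _ (not_lt.1 hl) he
      (by linear_combination (norm := module) i • r1 + j • r2 + k • r3)
    obtain rfl : k = 0 := (mul_eq_zero.1 e3).resolve_right (by omega)
    obtain rfl : j = 0 := (mul_eq_zero.1 (by simpa using e2 : j * d2 = 0)).resolve_right (by omega)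
    obtain rfl : i = 0 := (mul_eq_zero.1 (by simpa using e1 : i * d1 = 0)).resolve_right (by omega)
    simp at hn
  have g : GoodL h (d1, 0, 0) (x, d2, 0) (y, z, d3) := fun i j k hn he => by
    simpa [lin] using key i j k hn (by simpa [lin, Ev] using he)
  have e : |det3 (d1, 0, 0) (x, d2, 0) (y, z, d3)| = ((d1 * d2 * d3 : ℕ) : ℤ) := by
    rw [← Nat.abs_cast]
    simp [det3, dt, mul_assoc]
  rcases g.low (by omega) with l | ⟨l1, l2⟩
  · exact l.mono (by rw [e]; exact_mod_cast hc)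
  · obtain ⟨i, j, k, a1, a2, a3⟩ := small48 d1 d2 d3 x y z (by omega) hx hy hz
    have := key i j k a1 a2
    omega

end Pool.Agent.MP_824cb5_co.T3

end

section

namespace Pool.Agent.MP_824cb5_co.T3

theorem adm_std {s a b c r : ℤ} (hs : 0 < s) (ha : 0 ≤ a) (_hb : 0 ≤ b) (hc : 0 ≤ c) (ha' : a ≤ s)
    (hb' : b ≤ s) (hc' : c ≤ s) (hr : r = 0 ∨ r = 1) (h : a + b + c = 2 * s + r) :
    Adm s (s, 0, -c) (-a, s, 0) (r, -b, s) := by
  have key : ∀ x y z : ℤ, N (lin x y z (s, 0, -c) (-a, s, 0) (r, -b, s)) < s → x ≤ 0 := by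
    intro x y z hN
    by_contra hx
    obtain ⟨-, h0, -, h1, h2, -, h3, -⟩ := bds (lin x y z (s, 0, -c) (-a, s, 0) (r, -b, s))
    simp only [lin] at h0 h1 h2 h3 hN
    have p1 : 0 ≤ (x - 1) * s := mul_nonneg (by omega) hs.le
    have p2 : 0 ≤ x * c := mul_nonneg (by omega) hc
    have q1 : 0 ≤ z := by
      by_contra hz
      have : 0 ≤ (-z - 1) * s := mul_nonneg (by omega) hs.le
      linarith
    have p3 : 0 ≤ z * r := mul_nonneg q1 (by omega)
    have q2 : 1 ≤ y := by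
      by_contra hy
      have : 0 ≤ -y * a := mul_nonneg (by omega) ha
      linarith
    have p4 : 0 ≤ (y - 1) * s := mul_nonneg (by omega) hs.le
    have q3 : 1 ≤ z := by
      by_contra hz
      obtain rfl : z = 0 := by omega
      linarith
    have p5 : 0 ≤ (x - 1) * (s - c) := mul_nonneg (by omega) (by omega)
    have p6 : 0 ≤ (y - 1) * (s - a) := mul_nonneg (by omega) (by omega)
    have p7 : 0 ≤ (z - 1) * (s + r - b) := mul_nonneg (by omega) (by omega)
    linarith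
  intro x y z hn
  by_contra hN
  rw [not_le] at hN
  have k1 := key x y z hN
  have k2 := key (-x) (-y) (-z) (by
    rw [← N_neg] at hN
    refine lt_of_eq_of_lt (congrArg N ?_) hN
    simp only [lin, Prod.neg_mk, Prod.mk.injEq]
    exact ⟨by ring, by ring, by ring⟩)
  obtain rfl : x = 0 := by omega
  obtain ⟨-, -, h1, h2, h3, h4, -, -⟩ := bds (lin 0 y z (s, 0, -c) (-a, s, 0) (r, -b, s))
  simp only [lin] at h1 h2 h3 h4 hN
  obtain rfl : z = 0 := by
    by_contra hz
    rcases lt_or_gt_of_ne hz with g | g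
    · have : 0 ≤ (-z - 1) * s := mul_nonneg (by omega) hs.le
      linarith
    · have : 0 ≤ (z - 1) * s := mul_nonneg (by omega) hs.le
      linarith
  refine hn ⟨rfl, ?_, rfl⟩
  by_contra hy
  rcases lt_or_gt_of_ne hy with g | g
  · have : 0 ≤ (-y - 1) * s := mul_nonneg (by omega) hs.le
    linarith
  · have : 0 ≤ (y - 1) * s := mul_nonneg (by omega) hs.le
    linarith

theorem exists_group (h : ℕ) (a b c : V) (hA : Adm (h + 1) a b c) (ho : HasOdd a b c) (n : ℕ)
    (hn : 0 < n) (hd : det3 a b c = n) :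
    ∃ (G : Type) (_ : AddCommGroup G) (_ : Finite G), Nat.card G = n ∧ Good3 G h := by
  let M : Matrix (Fin 3) (Fin 3) ℤ := !![a.1, b.1, c.1; a.2.1, b.2.1, c.2.1; a.2.2, b.2.2, c.2.2]
  have hM : M.det = n := by
    rw [← hd, Matrix.det_fin_three]
    simp [M, det3, dt]
    ring
  let f : (Fin 3 → ℤ) →ₗ[ℤ] (Fin 3 → ℤ) := Matrix.toLin' M
  have hf : Function.Injective f := by
    rw [injective_iff_map_eq_zero]
    intro v hv
    exact Matrix.eq_zero_of_mulVec_eq_zero (by rw [hM]; omega) hv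
  have hc : Nat.card ((Fin 3 → ℤ) ⧸ LinearMap.range f) = n := by
    rw [← Submodule.natAbs_det_equiv _ (LinearEquiv.ofInjective f hf)]
    have : (LinearMap.range f).subtype ∘ₗ AddMonoidHom.toIntLinearMap
      (LinearEquiv.ofInjective f hf : (Fin 3 → ℤ) →+ LinearMap.range f) = f := rfl
    rw [this, LinearMap.det_toLin', hM, Int.natAbs_natCast]
  have hv : ∀ z : Fin 3 → ℤ, f z = ![(lin (z 0) (z 1) (z 2) a b c).1,
      (lin (z 0) (z 1) (z 2) a b c).2.1, (lin (z 0) (z 1) (z 2) a b c).2.2] := fun z => by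
    funext i
    fin_cases i <;> simp [f, M, lin, Matrix.mulVec, dotProduct, Fin.sum_univ_three] <;> ring
  obtain ⟨i, j, k, o1, o2, o3⟩ := ho
  obtain ⟨w0, e0⟩ : ∃ w, (lin i j k a b c).1 = 2 * w + 1 := ⟨(lin i j k a b c).1 / 2, by omega⟩
  obtain ⟨w1, e1⟩ : ∃ w, (lin i j k a b c).2.1 = 2 * w + 1 :=
    ⟨(lin i j k a b c).2.1 / 2, by omega⟩
  obtain ⟨w2, e2⟩ : ∃ w, (lin i j k a b c).2.2 = 2 * w + 1 :=
    ⟨(lin i j k a b c).2.2 / 2, by omega⟩
  refine ⟨(Fin 3 → ℤ) ⧸ LinearMap.range f, inferInstance, Nat.finite_of_card_ne_zero (by omega),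
    hc, (LinearMap.range f).mkQ ![-w0, -w1, -w2 - 1], (LinearMap.range f).mkQ ![-w0, -w1 - 1, -w2],
    (LinearMap.range f).mkQ ![-w0, -w1 - 1, -w2 - 1], fun x y z h1 h2 h3 => ?_⟩
  rw [← map_zsmul, ← map_zsmul, ← map_zsmul, ← map_add, ← map_add, Submodule.mkQ_apply,
    Submodule.Quotient.mk_eq_zero] at h3
  obtain ⟨t, ht⟩ := h3
  rw [hv] at ht
  have t0 := congrFun ht 0
  have t1 := congrFun ht 1
  have t2 := congrFun ht 2
  simp only [Pi.add_apply, Pi.smul_apply, smul_eq_mul, Matrix.cons_val_zero, Matrix.cons_val_one,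
    Matrix.cons_val] at t0 t1 t2
  obtain ⟨m, hm⟩ : ∃ m, x + y + z = 2 * m := ⟨(x + y + z) / 2, by omega⟩
  have hX : X (lin (t 0 + m * i) (t 1 + m * j) (t 2 + m * k) a b c) = (x, y, z) := by
    simp only [X, lin, Prod.mk.injEq] at t0 t1 t2 e0 e1 e2 ⊢
    refine ⟨?_, ?_, ?_⟩
    · linear_combination t0 + t1 + m * e0 + m * e1 - (w0 + w1 + 1) * hm
    · linear_combination t0 + t2 + m * e0 + m * e2 - (w0 + w2 + 1) * hm
    · linear_combination -t1 - t2 - m * e1 - m * e2 + (w1 + w2 + 1) * hm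
  have hN := X_norm (lin (t 0 + m * i) (t 1 + m * j) (t 2 + m * k) a b c)
  by_cases hz : t 0 + m * i = 0 ∧ t 1 + m * j = 0 ∧ t 2 + m * k = 0
  · rw [hz.1, hz.2.1, hz.2.2] at hX
    simp only [X, lin, Prod.mk.injEq] at hX
    omega
  · have := hA _ _ _ hz
    rw [hX] at hN
    simp only at hN
    omega

theorem upper (h n : ℕ) (a b c r j : ℤ) (hn : 0 < n) (ha : 0 ≤ a) (hb : 0 ≤ b) (hc : 0 ≤ c)
    (ha' : a ≤ h + 1) (hb' : b ≤ h + 1) (hc' : c ≤ h + 1) (hr : r = 0 ∨ r = 1)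
    (e : a + b + c = 2 * (h + 1) + r) (o1 : (h + 1 - j * a + r) % 2 = 1)
    (o2 : (j * (h + 1) - b) % 2 = 1) (o3 : (h + 1 - c) % 2 = 1)
    (hd : (h + 1) ^ 3 - a * b * c + r * (h + 1) * c = n) :
    ∃ (G : Type) (_ : AddCommGroup G) (_ : Finite G), Nat.card G = n ∧ Good3 G h := by
  refine exists_group h _ _ _ (adm_std (by omega) ha hb hc ha' hb' hc' hr e) ⟨1, j, 1, ?_, ?_, ?_⟩
    n hn ?_
  · convert o1 using 2; simp only [lin]; ring
  · convert o2 using 2; simp only [lin]; ring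
  · convert o3 using 2; simp only [lin]; ring
  · rw [← hd]; simp only [det3, dt]; ring

theorem least (k : ℕ) (r : Fin 6) (hh : 2 ≤ 6 * k + r) :
    IsLeast {n : ℕ | ∃ (G : Type) (_ : AddCommGroup G) (_ : Finite G),
        Nat.card G = n ∧ 3 ≤ sigmaPM G (6 * k + r)}
      (152 * k ^ 3 + ![76, 160, 228, 312, 380, 464] r * k ^ 2 +
        ![14, 58, 114, 214, 318, 470] r * k + ![1, 7, 19, 49, 89, 159] r) := by
  constructor
  · suffices ∃ (G : Type) (_ : AddCommGroup G) (_ : Finite G), Nat.card G =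
        152 * k ^ 3 + ![76, 160, 228, 312, 380, 464] r * k ^ 2 +
          ![14, 58, 114, 214, 318, 470] r * k + ![1, 7, 19, 49, 89, 159] r ∧
        Good3 G (6 * k + r) by
      obtain ⟨G, i1, i2, e, g⟩ := this
      exact ⟨G, i1, i2, e, (three_le_sigma_iff G _ (by omega)).2 g⟩
    fin_cases r <;> simp only [Fin.reduceFinMk, Matrix.cons_val, Fin.zero_eta, Fin.mk_one] at hh ⊢
    · exact upper _ _ (4 * k + 1) (4 * k + 1) (4 * k) 0 0 (by positivity) (by omega) (by omega)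
        (by omega) (by omega) (by omega) (by omega) (by omega) (by omega) (by omega) (by omega)
        (by omega) (by push_cast; ring)
    · exact upper _ _ (4 * k + 1) (4 * k + 3) (4 * k + 1) 1 0 (by positivity) (by omega)
        (by omega) (by omega) (by omega) (by omega) (by omega) (by omega) (by omega) (by omega)
        (by omega) (by omega) (by push_cast; ring)
    · exact upper _ _ (4 * k + 2) (4 * k + 2) (4 * k + 2) 0 1 (by positivity) (by omega)
        (by omega) (by omega) (by omega) (by omega) (by omega) (by omega) (by omega) (by omega)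
        (by omega) (by omega) (by push_cast; ring)
    · exact upper _ _ (4 * k + 3) (4 * k + 3) (4 * k + 3) 1 0 (by positivity) (by omega)
        (by omega) (by omega) (by omega) (by omega) (by omega) (by omega) (by omega) (by omega)
        (by omega) (by omega) (by push_cast; ring)
    · exact upper _ _ (4 * k + 3) (4 * k + 3) (4 * k + 4) 0 0 (by positivity) (by omega)
        (by omega) (by omega) (by omega) (by omega) (by omega) (by omega) (by omega) (by omega)
        (by omega) (by omega) (by push_cast; ring)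
    · exact upper _ _ (4 * k + 5) (4 * k + 5) (4 * k + 3) 1 0 (by positivity) (by omega)
        (by omega) (by omega) (by omega) (by omega) (by omega) (by omega) (by omega) (by omega)
        (by omega) (by omega) (by push_cast; ring)
  · rintro n ⟨G, i1, i2, rfl, g⟩
    obtain ⟨l0, l1, l2, l3, l4, l5⟩ :=
      lower G _ hh ((three_le_sigma_iff G _ (by omega)).1 g) k (by omega)
    fin_cases r <;> simp only [Fin.reduceFinMk, Matrix.cons_val, Fin.zero_eta, Fin.mk_one] at *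
    · exact_mod_cast l0 (by omega)
    · exact_mod_cast l1 (by omega)
    · exact_mod_cast l2 (by omega)
    · exact_mod_cast l3 (by omega)
    · exact_mod_cast l4 (by omega)
    · exact_mod_cast l5 (by omega)

end Pool.Agent.MP_824cb5_co.T3

end
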