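import Mathlib
import Pool.Agent.MP_824cb5_co.Defs

section

/-! Plane lattices avoiding a square: the arithmetic part. -/

namespace Pool.Agent.MP_824cb5_co

open Finset

lemma pigeon {X : Type} [Fintype X] (f : ℤ → ℤ → X) (a b : ℕ) (h : Fintype.card X < a * b) :
    ∃ u w u' w' : ℤ, |u - u'| < a ∧ |w - w'| < b ∧ ¬ (u = u' ∧ w = w') ∧ f u w = f u' w' := by
  classical
  have hc : Fintype.card X < Fintype.card (Fin a × Fin b) := by simpa using h
  obtain ⟨x, y, hne, hxy⟩ := Fintype.exists_ne_map_eq_of_card_lt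
    (fun z : Fin a × Fin b => f (z.1 : ℕ) (z.2 : ℕ)) hc
  refine ⟨(x.1 : ℕ), (x.2 : ℕ), (y.1 : ℕ), (y.2 : ℕ), ?_, ?_, ?_, hxy⟩
  · have := x.1.2; have := y.1.2; rw [abs_lt]; constructor <;> omega
  · have := x.2.2; have := y.2.2; rw [abs_lt]; constructor <;> omega
  · rintro ⟨h1, h2⟩
    exact hne (Prod.ext (Fin.ext (by exact_mod_cast h1)) (Fin.ext (by exact_mod_cast h2)))

lemma boxO (p q : ℤ) (t a b : ℕ) (ht : 0 < t) (h : t < a * b) :
    ∃ i j : ℤ, |i| < a ∧ |j| < b ∧ ¬ (i = 0 ∧ j = 0) ∧ (t : ℤ) ∣ p * i + q * j := by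
  have : NeZero t := ⟨ht.ne'⟩
  obtain ⟨u, w, u', w', h1, h2, h3, h4⟩ := pigeon (fun u w => ((p * u + q * w : ℤ) : ZMod t)) a b
    (by rwa [ZMod.card])
  refine ⟨u - u', w - w', h1, h2, fun h => h3 ⟨by omega, by omega⟩, ?_⟩
  have h5 := (ZMod.intCast_eq_intCast_iff_dvd_sub _ _ _).1 h4.symm
  have h6 : p * (u - u') + q * (w - w') = p * u + q * w - (p * u' + q * w') := by ring
  rwa [h6]

lemma boxE (α β : ℤ) (t a b : ℕ) (ht : 0 < t) (h : 2 * t < a * b) :
    ∃ x y : ℤ, |x + y| < a ∧ |x - y| < b ∧ ¬ (x = 0 ∧ y = 0) ∧ (t : ℤ) ∣ α * x + β * y := by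
  have : NeZero t := ⟨ht.ne'⟩
  obtain ⟨u, w, u', w', h1, h2, h3, h4⟩ := pigeon
    (fun u w => ((((α * ((u + w) / 2) + β * ((u - w) / 2) : ℤ) : ZMod t),
      ((u + w : ℤ) : ZMod 2)) : ZMod t × ZMod 2)) a b
    (by rw [Fintype.card_prod, ZMod.card, ZMod.card]; omega)
  have h5 := (ZMod.intCast_eq_intCast_iff_dvd_sub _ _ _).1 (congrArg Prod.fst h4).symm
  have h6 := (ZMod.intCast_eq_intCast_iff_dvd_sub _ _ _).1 (congrArg Prod.snd h4).symm
  have h7 : (2 : ℤ) ∣ u + w - (u' + w') := by exact_mod_cast h6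
  refine ⟨(u + w) / 2 - (u' + w') / 2, (u - w) / 2 - (u' - w') / 2, ?_, ?_,
    fun h => h3 ⟨by omega, by omega⟩, ?_⟩
  · have : (u + w) / 2 - (u' + w') / 2 + ((u - w) / 2 - (u' - w') / 2) = u - u' := by omega
    rwa [this]
  · have : (u + w) / 2 - (u' + w') / 2 - ((u - w) / 2 - (u' - w') / 2) = w - w' := by omega
    rwa [this]
  · have h8 : α * ((u + w) / 2 - (u' + w') / 2) + β * ((u - w) / 2 - (u' - w') / 2) =
        α * ((u + w) / 2) + β * ((u - w) / 2) - (α * ((u' + w') / 2) + β * ((u' - w') / 2)) := by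
      ring
    rwa [h8]

lemma det_bound (σ b c i j : ℤ) (hb : |b| < σ) (hc : |c| < σ) (hi : |i| = σ) (hj : |j| = σ) :
    0 < |b * c - j * i| ∧ |b * c - j * i| < 2 * σ ^ 2 := by
  have h1 : |j * i| = σ ^ 2 := by rw [abs_mul, hi, hj]; ring
  have h2 : |b * c| < σ ^ 2 := by
    rw [abs_mul]
    have := abs_nonneg b; have := abs_nonneg c
    nlinarith
  have h3 := abs_sub (b * c) (j * i)
  have h4 := abs_sub_abs_le_abs_sub (j * i) (b * c)
  rw [abs_sub_comm] at h4
  constructor <;> linarith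

/-- necessity, odd case -/
lemma necO (α β : ℤ) (hc : IsCoprime α β) (t s : ℕ) (ht : 0 < t)
    (H : ∀ i j : ℤ, |i| < s → |j| < s → (t : ℤ) ∣ (α + β) * i + (α - β) * j → i = 0 ∧ j = 0) :
    s ^ 2 ≤ t ∧ (Even t → Even s → s * (s + 1) ≤ t) := by
  have h1 : s ^ 2 ≤ t := by
    by_contra h
    obtain ⟨i, j, hi, hj, hne, hd⟩ := boxO (α + β) (α - β) t s s ht (by nlinarith)
    exact hne (H i j hi hj hd)
  refine ⟨h1, fun hte hse => ?_⟩
  by_contra h
  push Not at h
  obtain ⟨t', rfl⟩ := hte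
  obtain ⟨σ, rfl⟩ := hse
  rcases Int.even_or_odd (α + β) with ⟨k, hk⟩ | ⟨k, hk⟩
  · obtain ⟨i, j, hi, hj, hne, hd⟩ := boxO k (k - β) t' (σ + σ) (σ + σ) (by omega) (by nlinarith)
    refine hne (H i j hi hj ?_)
    obtain ⟨m, hm⟩ := hd
    refine ⟨m, ?_⟩
    have : α = k + k - β := by omega
    subst this
    push_cast
    linear_combination 2 * hm
  · obtain ⟨b, j, hb, hj, hne, hd⟩ := boxO (α + β) (α - β) (t' + t') (σ + σ) (σ + σ + 1) ht h
    obtain ⟨i, c, hi, hcc, hne', hd'⟩ := boxO (α + β) (α - β) (t' + t') (σ + σ + 1) (σ + σ) ht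
      (by rw [mul_comm]; exact h)
    have hj' : |j| = σ + σ := by
      by_contra h'
      exact hne (H b j hb (by push_cast at hj ⊢; omega) hd)
    have hi' : |i| = σ + σ := by
      by_contra h'
      exact hne' (H i c (by push_cast at hi ⊢; omega) hcc hd')
    obtain ⟨m, hm⟩ := hd
    obtain ⟨m', hm'⟩ := hd'
    have hα : α = 2 * k + 1 - β := by omega
    subst hα
    push_cast at hm hm' hb hcc
    obtain ⟨j', rfl⟩ : ∃ j', j = 2 * j' := ⟨j / 2, by simp only [abs_eq_max_neg] at *; omega⟩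
    obtain ⟨i', rfl⟩ : ∃ i', i = 2 * i' := ⟨i / 2, by simp only [abs_eq_max_neg] at *; omega⟩
    obtain ⟨b', rfl⟩ : ∃ b', b = 2 * b' :=
      ⟨t' * m - k * b - (2 * k + 1 - β - β) * j', by linear_combination hm⟩
    obtain ⟨c', rfl⟩ : ∃ c', c = 2 * c' :=
      ⟨t' * m' - (2 * k + 1) * i' - (k - β) * c, by linear_combination hm'⟩
    obtain ⟨hD0, hD1⟩ := det_bound σ b' c' i' j' (by simp only [abs_eq_max_neg] at *; omega)
      (by simp only [abs_eq_max_neg] at *; omega) (by simp only [abs_eq_max_neg] at *; omega)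
      (by simp only [abs_eq_max_neg] at *; omega)
    obtain ⟨u, v, huv⟩ := hc
    have e1 : 2 * (b' * c' - j' * i') * (2 * k + 1) = (t' + t') * (c' * m - j' * m') := by
      linear_combination c' * hm - j' * hm'
    have e2 : 2 * (b' * c' - j' * i') * (2 * k + 1 - β - β) =
        (t' + t') * (b' * m' - i' * m) := by
      linear_combination b' * hm' - i' * hm
    have hdv : ((t' + t' : ℕ) : ℤ) ∣ 2 * (b' * c' - j' * i') := by
      refine ⟨(c' * m - j' * m') - k * (u * ((c' * m - j' * m') + (b' * m' - i' * m)) +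
        v * ((c' * m - j' * m') - (b' * m' - i' * m))), ?_⟩
      push_cast
      linear_combination (1 - k * (u + v)) * e1 - k * (u - v) * e2 +
        4 * k * (b' * c' - j' * i') * huv
    have h0 := Int.eq_zero_of_abs_lt_dvd hdv (by
      rw [abs_mul]
      have : ((σ + σ) ^ 2 : ℤ) ≤ ((t' + t' : ℕ) : ℤ) := by exact_mod_cast h1
      have h2 : |(2 : ℤ)| = 2 := by norm_num
      rw [h2]; nlinarith)
    have : b' * c' - j' * i' = 0 := by omega
    rw [this] at hD0
    simp at hD0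

/-- necessity, even case -/
lemma necE (α β : ℤ) (hc : IsCoprime α β) (t s : ℕ) (ht : 0 < t)
    (H : ∀ x y : ℤ, |x + y| < s → |x - y| < s → (t : ℤ) ∣ α * x + β * y → x = 0 ∧ y = 0) :
    s ^ 2 ≤ 2 * t ∧ (Even s → s * (s + 1) ≤ 2 * t ∨ (Even t ∧ (4 ∣ t → 4 ∣ s))) := by
  have h1 : s ^ 2 ≤ 2 * t := by
    by_contra h
    obtain ⟨x, y, hi, hj, hne, hd⟩ := boxE α β t s s ht (by nlinarith)
    exact hne (H x y hi hj hd)
  refine ⟨h1, fun hse => ?_⟩
  by_cases h : s * (s + 1) ≤ 2 * t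
  · exact Or.inl h
  right
  push Not at h
  obtain ⟨σ, rfl⟩ := hse
  obtain ⟨x, y, hb, hj, hne, hd⟩ := boxE α β t (σ + σ) (σ + σ + 1) ht h
  obtain ⟨x', y', hi, hcc, hne', hd'⟩ := boxE α β t (σ + σ + 1) (σ + σ) ht
    (by rw [mul_comm (σ + σ + 1)]; exact h)
  have hj' : |x - y| = σ + σ := by
    by_contra h'
    exact hne (H x y hb (by push_cast at hj ⊢; omega) hd)
  have hi' : |x' + y'| = σ + σ := by
    by_contra h'
    exact hne' (H x' y' (by push_cast at hi ⊢; omega) hcc hd')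
  push_cast at hb hcc
  obtain ⟨b, j, rfl, rfl⟩ : ∃ b j, x = b + j ∧ y = b - j :=
    ⟨(x + y) / 2, (x - y) / 2, by simp only [abs_eq_max_neg] at *; omega,
      by simp only [abs_eq_max_neg] at *; omega⟩
  obtain ⟨i, c, rfl, rfl⟩ : ∃ i c, x' = i + c ∧ y' = i - c :=
    ⟨(x' + y') / 2, (x' - y') / 2, by simp only [abs_eq_max_neg] at *; omega,
      by simp only [abs_eq_max_neg] at *; omega⟩
  obtain ⟨hD0, hD1⟩ := det_bound σ b c i j (by simp only [abs_eq_max_neg] at *; omega)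
    (by simp only [abs_eq_max_neg] at *; omega) (by simp only [abs_eq_max_neg] at *; omega)
    (by simp only [abs_eq_max_neg] at *; omega)
  obtain ⟨u, v, huv⟩ := hc
  obtain ⟨m, hm⟩ := hd
  obtain ⟨m', hm'⟩ := hd'
  have h1' : ((σ + σ) ^ 2 : ℤ) ≤ 2 * (t : ℤ) := by exact_mod_cast h1
  have ht' : (0 : ℤ) < t := by exact_mod_cast ht
  obtain ⟨g, hg⟩ : ∃ g : ℤ, 2 * (b * c - j * i) = t * g := by
    refine ⟨u * ((b - j) * m' - (i - c) * m) + v * ((i + c) * m - (b + j) * m'), ?_⟩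
    linear_combination (u * (b - j) - v * (b + j)) * hm' + (v * (i + c) - u * (i - c)) * hm -
      2 * (b * c - j * i) * huv
  have habs : 2 * |b * c - j * i| = t * |g| := by
    have := congrArg abs hg
    rwa [abs_mul, abs_mul, abs_of_pos ht', abs_of_pos (by norm_num : (0 : ℤ) < 2)] at this
  have hg1 : |g| = 1 := by
    have h2 : |g| < 2 := by
      by_contra h3
      nlinarith
    have h4 : |g| ≠ 0 := by
      intro h5
      rw [h5] at habs
      omega
    have := abs_nonneg g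
    omega
  rw [hg1] at habs
  refine ⟨⟨(|b * c - j * i|).toNat, by omega⟩, fun h4 => ?_⟩
  by_contra h5
  have hσ : σ % 2 = 1 := by omega
  obtain ⟨i', rfl⟩ : ∃ i', i = 2 * i' + 1 :=
    ⟨i / 2, by simp only [abs_eq_max_neg] at hi'; omega⟩
  obtain ⟨j', rfl⟩ : ∃ j', j = 2 * j' + 1 :=
    ⟨j / 2, by simp only [abs_eq_max_neg] at hj'; omega⟩
  have hbc : Odd (b * c) := by
    have e : (2 * j' + 1) * (2 * i' + 1) = 2 * (2 * j' * i' + j' + i') + 1 := by ring
    rw [e] at habs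
    rw [Int.odd_iff]
    simp only [abs_eq_max_neg] at habs
    omega
  obtain ⟨⟨b', rfl⟩, ⟨c', rfl⟩⟩ := Int.odd_mul.1 hbc
  have hdv : (t : ℤ) ∣ (2 * b' + 1) * (2 * c' + 1) - (2 * j' + 1) * (2 * i' + 1) := by
    refine ⟨u * ((b' - j') * m' - (i' - c') * m) + v * ((i' + c' + 1) * m - (b' + j' + 1) * m'),
      ?_⟩
    linear_combination (u * (b' - j') - v * (b' + j' + 1)) * hm' +
      (v * (i' + c' + 1) - u * (i' - c')) * hm -
      ((2 * b' + 1) * (2 * c' + 1) - (2 * j' + 1) * (2 * i' + 1)) * huv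
  have h0 := Int.eq_zero_of_abs_lt_dvd hdv (by omega)
  rw [h0] at hD0
  simp at hD0

lemma digits (s q t i j : ℤ) (hq : s ≤ q) (ht : (s - 1) * (q + 1) < t) (hi : |i| < s)
    (hj : |j| < s) (hd : t ∣ i + q * j) : i = 0 ∧ j = 0 := by
  have hs : 0 < s := lt_of_le_of_lt (abs_nonneg i) hi
  have h1 : |i + q * j| < t := by
    have h2 := abs_add_le i (q * j)
    rw [abs_mul, abs_of_pos (by omega : 0 < q)] at h2
    nlinarith
  have h0 := Int.eq_zero_of_abs_lt_dvd hd h1
  have hj0 : j = 0 := by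
    by_contra h
    have h3 : 1 ≤ |j| := Int.one_le_abs h
    have h4 : |i| = q * |j| := by
      rw [show i = -(q * j) by omega, abs_neg, abs_mul, abs_of_pos (by omega : 0 < q)]
    nlinarith
  subst hj0
  exact ⟨by omega, rfl⟩

/-- sufficiency, odd case -/
lemma sufO (t s : ℕ) (h1 : s ^ 2 ≤ t) (h2 : Even t → Even s → s * (s + 1) ≤ t) :
    ∃ α β : ℤ, IsCoprime α β ∧ ∀ i j : ℤ, |i| < s → |j| < s →
      (t : ℤ) ∣ (α + β) * i + (α - β) * j → i = 0 ∧ j = 0 := by
  have h1' : (s : ℤ) ^ 2 ≤ t := by exact_mod_cast h1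
  have key : ∀ k q : ℤ, (s : ℤ) ≤ q → ((s : ℤ) - 1) * (q + 1) < t → (t : ℤ) ∣ 2 * k + 1 - q →
      ∃ α β : ℤ, IsCoprime α β ∧ ∀ i j : ℤ, |i| < s → |j| < s →
        (t : ℤ) ∣ (α + β) * i + (α - β) * j → i = 0 ∧ j = 0 := by
    intro k q hq ht hd
    refine ⟨k + 1, -k, ⟨1, 1, by ring⟩, fun i j hi hj h => digits s q t i j hq ht hi hj ?_⟩
    have e : i + q * j = (k + 1 + -k) * i + (k + 1 - -k) * j - (2 * k + 1 - q) * j := by ring
    rw [e]
    exact dvd_sub h (hd.mul_right j)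
  rcases Nat.even_or_odd s with hse | ⟨k, hk⟩
  · rcases Nat.even_or_odd t with hte | ⟨k, hk⟩
    · have h3 : (s : ℤ) * (s + 1) ≤ t := by exact_mod_cast h2 hte hse
      obtain ⟨σ, hσ⟩ := hse
      exact key σ (s + 1) (by omega) (by nlinarith) ⟨0, by omega⟩
    · obtain ⟨σ, hσ⟩ := hse
      exact key (σ + k) s le_rfl (by nlinarith) ⟨1, by omega⟩
  · exact key k s le_rfl (by nlinarith) ⟨0, by omega⟩

lemma lee (k ρ t x y : ℤ) (hk : 0 ≤ k) (hρ : ρ ≤ 2 * k) (ht : (k + 1) * ρ < t)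
    (h1 : |x + y| ≤ ρ) (h2 : |x - y| ≤ ρ) (hd : t ∣ k * x + (k + 1) * y) : x = 0 ∧ y = 0 := by
  have h3 : |x| + |y| ≤ ρ := by simp only [abs_eq_max_neg] at *; omega
  have h4 : |k * x + (k + 1) * y| < t := by
    have h5 := abs_add_le (k * x) ((k + 1) * y)
    rw [abs_mul, abs_mul, abs_of_nonneg hk, abs_of_nonneg (by omega : 0 ≤ k + 1)] at h5
    have := abs_nonneg x
    nlinarith
  have h0 := Int.eq_zero_of_abs_lt_dvd hd h4
  have hx : x = (k + 1) * (x + y) := by linear_combination -h0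
  have hy : y = -(k * (x + y)) := by linear_combination h0
  have hz : x + y = 0 := by
    by_contra h
    have h6 : 1 ≤ |x + y| := Int.one_le_abs h
    have h7 : |x| = (k + 1) * |x + y| := by
      conv_lhs => rw [hx]
      rw [abs_mul, abs_of_nonneg (by omega : 0 ≤ k + 1)]
    have h8 : |y| = k * |x + y| := by
      conv_lhs => rw [hy]
      rw [abs_neg, abs_mul, abs_of_nonneg hk]
    nlinarith
  rw [hz] at hx hy
  exact ⟨by simpa using hx, by simpa using hy⟩

/-- sufficiency, even case -/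
lemma sufE (t s : ℕ) (h1 : s ^ 2 ≤ 2 * t)
    (h2 : Even s → s * (s + 1) ≤ 2 * t ∨ (Even t ∧ (4 ∣ t → 4 ∣ s))) (hs : 0 < s) :
    ∃ α β : ℤ, IsCoprime α β ∧ ∀ x y : ℤ, |x + y| < s → |x - y| < s →
      (t : ℤ) ∣ α * x + β * y → x = 0 ∧ y = 0 := by
  have h1' : (s : ℤ) ^ 2 ≤ 2 * t := by exact_mod_cast h1
  rcases Nat.even_or_odd s with hse | ⟨k, hk⟩
  · obtain ⟨σ, hσ⟩ := id hse
    have hσ' : (s : ℤ) = σ + σ := by exact_mod_cast hσ
    rcases h2 hse with h3 | ⟨⟨t', ht'⟩, h4⟩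
    · have h3' : (s : ℤ) * (s + 1) ≤ 2 * t := by exact_mod_cast h3
      refine ⟨σ, σ + 1, ⟨-1, 1, by ring⟩, fun x y hx hy hd =>
        lee σ (2 * σ - 1) t x y (by omega) (by omega) (by nlinarith) (by omega) (by omega) hd⟩
    · have ht2 : (t : ℤ) = t' + t' := by exact_mod_cast ht'
      obtain ⟨m, hm⟩ : ∃ m : ℤ, (t' : ℤ) ∣ 2 * m - σ := by
        rcases Nat.even_or_odd σ with ⟨a, ha⟩ | ⟨a, ha⟩
        · exact ⟨a, 0, by omega⟩
        · exact ⟨(σ + t') / 2, 1, by omega⟩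
      refine ⟨1 + 2 * m, 1 - 2 * m, ⟨1 - m, -m, by ring⟩, fun x y hx hy hd => ?_⟩
      obtain ⟨g, hg⟩ := hd
      obtain ⟨i, hi⟩ : ∃ i, x + y = 2 * i :=
        ⟨t' * g - m * (x - y), by rw [ht2] at hg; linear_combination hg⟩
      obtain ⟨j, rfl, rfl⟩ : ∃ j, x = i + j ∧ y = i - j := ⟨x - i, by omega, by omega⟩
      have := digits σ σ t' i j le_rfl (by nlinarith)
        (by simp only [abs_eq_max_neg] at *; omega) (by simp only [abs_eq_max_neg] at *; omega) (by
        have e : i + σ * j = t' * g - (2 * m - σ) * j := by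
          rw [ht2] at hg
          have h9 : 2 * (i + σ * j) = 2 * (t' * g - (2 * m - σ) * j) := by linear_combination hg
          omega
        rw [e]
        exact dvd_sub (dvd_mul_right _ _) (hm.mul_right j))
      omega
  · have hk' : (s : ℤ) = 2 * k + 1 := by exact_mod_cast hk
    refine ⟨k, k + 1, ⟨-1, 1, by ring⟩, fun x y hx hy hd =>
      lee k (2 * k) t x y (by omega) le_rfl (by nlinarith) (by omega) (by omega) hd⟩

end Pool.Agent.MP_824cb5_co

end

section

namespace Pool.Agent.MP_824cb5_co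

open Finset

/-- no short relation of even norm between two elements -/
def Good (G : Type) [AddCommGroup G] (h : ℕ) : Prop :=
  ∃ a b : G, ∀ x y : ℤ, |x| + |y| ≤ 2 * h → Even (x + y) → x • a + y • b = 0 → x = 0 ∧ y = 0

lemma split_rel (h : ℕ) (x y : ℤ) (h1 : |x| + |y| ≤ 2 * h) (h2 : Even (x + y)) :
    ∃ l₁ l₂ m₁ m₂ : ℤ, |l₁| + |l₂| = h ∧ |m₁| + |m₂| = h ∧ l₁ - m₁ = x ∧ l₂ - m₂ = y := by
  obtain ⟨i, hi⟩ := h2
  obtain ⟨j, rfl, rfl⟩ : ∃ j, x = i + j ∧ y = i - j := ⟨x - i, by omega, by omega⟩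
  simp only [abs_eq_max_neg] at *
  rcases le_total 0 i with h3 | h3 <;> rcases le_total 0 j with h4 | h4
  · exact ⟨j, h - j, -i, h - i, by omega, by omega, by omega, by omega⟩
  · exact ⟨h + j, -j, h - i, -i, by omega, by omega, by omega, by omega⟩
  · exact ⟨j - h, -j, -h - i, -i, by omega, by omega, by omega, by omega⟩
  · exact ⟨j, -h - j, -i, -h - i, by omega, by omega, by omega, by omega⟩

lemma sum_two {G M : Type} [DecidableEq G] [AddCommMonoid M] (A : Finset G) {a b : G}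
    (ha : a ∈ A) (hb : b ∈ A) (hab : a ≠ b) (f : G → M) (hf : ∀ c, c ≠ a → c ≠ b → f c = 0) :
    ∑ c ∈ A, f c = f a + f b := by
  rw [← sum_pair hab]
  refine (sum_subset ?_ ?_).symm
  · intro c hc
    rcases mem_insert.1 hc with rfl | hc
    · exact ha
    · rwa [mem_singleton.1 hc]
  · intro c _ hc
    exact hf c (fun e => hc (by simp [e])) (fun e => hc (by simp [e]))

lemma two_le_sigma_iff (G : Type) [AddCommGroup G] [Finite G] (h : ℕ) (hh : 1 ≤ h) :
    2 ≤ sigmaPM G h ↔ Good G h := by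
  classical
  have := Fintype.ofFinite G
  have hbd : BddAbove {k : ℕ | ∃ A : Finset G, A.Nonempty ∧ IsBh h A ∧ A.card = k} :=
    ⟨Fintype.card G, by rintro k ⟨A, -, -, rfl⟩; exact card_le_univ A⟩
  constructor
  · intro h2
    have hne : {k : ℕ | ∃ A : Finset G, A.Nonempty ∧ IsBh h A ∧ A.card = k}.Nonempty := by
      by_contra h3
      rw [Set.not_nonempty_iff_eq_empty] at h3
      rw [sigmaPM, h3] at h2
      simp at h2
    obtain ⟨A, -, hA, hc⟩ := Nat.sSup_mem hne hbd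
    obtain ⟨a, ha, b, hb, hab⟩ := one_lt_card.1 (show 1 < A.card by rw [hc]; exact h2)
    refine ⟨a, b, fun x y h1 h3 h4 => ?_⟩
    obtain ⟨l₁, l₂, m₁, m₂, e1, e2, rfl, rfl⟩ := split_rel h x y h1 h3
    have hba : b ≠ a := hab.symm
    have key := hA (fun c => if c = a then l₁ else if c = b then l₂ else 0)
      (fun c => if c = a then m₁ else if c = b then m₂ else 0)
      (by rw [sum_two A ha hb hab _ (fun c h5 h6 => by simp [h5, h6])]; simpa [hba] using e1)
      (by rw [sum_two A ha hb hab _ (fun c h5 h6 => by simp [h5, h6])]; simpa [hba] using e2)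
      (by
        rw [sum_two A ha hb hab _ (fun c h5 h6 => by simp [h5, h6]),
          sum_two A ha hb hab _ (fun c h5 h6 => by simp [h5, h6])]
        simp only [if_true, if_neg hba]
        rw [← sub_eq_zero, ← h4, sub_smul, sub_smul]; abel)
    have k1 := key a ha
    have k2 := key b hb
    simp only [if_true, if_neg hba] at k1 k2
    exact ⟨by omega, by omega⟩
  · rintro ⟨a, b, H⟩
    have hab : a ≠ b := by
      rintro rfl
      have := H 1 (-1) (by simp only [abs_eq_max_neg]; omega) ⟨0, by simp⟩ (by simp)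
      omega
    refine le_csSup hbd ⟨{a, b}, by simp, ?_, card_pair hab⟩
    intro lam mu e1 e2 e3
    rw [sum_pair hab] at e1 e2
    rw [sum_pair hab, sum_pair hab] at e3
    have := H (lam a - mu a) (lam b - mu b) (by simp only [abs_eq_max_neg] at *; omega)
      (by rw [Int.even_iff]; simp only [abs_eq_max_neg] at *; omega)
      (by rw [sub_smul, sub_smul, ← sub_eq_zero.2 e3]; abel)
    intro c hc
    rcases mem_insert.1 hc with rfl | hc
    · omega
    · rw [mem_singleton.1 hc]; omega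

lemma good_congr {G H : Type} [AddCommGroup G] [AddCommGroup H] (e : G ≃+ H) (h : ℕ)
    (hG : Good G h) : Good H h := by
  obtain ⟨a, b, H⟩ := hG
  refine ⟨e a, e b, fun x y h1 h2 h3 => H x y h1 h2 (e.injective ?_)⟩
  rw [map_add, map_zsmul, map_zsmul, h3, map_zero]

lemma exists_coprime_rel (U V : ℤ) : ∃ x y : ℤ, IsCoprime x y ∧ x * U + y * V = 0 := by
  by_cases h : Int.gcd U V = 0
  · obtain ⟨rfl, rfl⟩ := Int.gcd_eq_zero_iff.1 h
    exact ⟨1, 0, isCoprime_one_left, by simp⟩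
  · obtain ⟨U', V', h1, h2, h3⟩ := Int.exists_gcd_one (Nat.pos_of_ne_zero h)
    refine ⟨V', -U', (Int.isCoprime_iff_gcd_eq_one.2 h1).symm.neg_right, ?_⟩
    generalize (Int.gcd U V : ℤ) = g at h2 h3
    rw [h2, h3]; ring

/-- reduction to a primitive plane lattice -/
lemma good_pi_iff (h r : ℕ) (n : Fin (r + 2) → ℕ) (hdvd : ∀ i j, i ≤ j → n i ∣ n j) (d t : ℕ)
    (hd0 : 0 < d) (hd : n (Fin.castSucc (Fin.last r)) = d) (ht : n (Fin.last (r + 1)) = d * t) :
    Good (Π i, ZMod (n i)) h ↔ ∃ α β : ℤ, IsCoprime α β ∧ ∀ x y : ℤ,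
      d * (|x| + |y|) ≤ 2 * h → Even (d * (x + y)) → (t : ℤ) ∣ α * x + β * y →
        x = 0 ∧ y = 0 := by
  classical
  have hd0' : (0 : ℤ) < d := by exact_mod_cast hd0
  constructor
  · rintro ⟨a, b, H⟩
    obtain ⟨U, hU⟩ := ZMod.intCast_surjective (a (Fin.last (r + 1)))
    obtain ⟨V, hV⟩ := ZMod.intCast_surjective (b (Fin.last (r + 1)))
    obtain ⟨x₀, y₀, ⟨u, v, huv⟩, hrel⟩ := exists_coprime_rel U V
    refine ⟨y₀, -x₀, ⟨v, -u, by linear_combination huv⟩, fun x y h1 h2 h3 => ?_⟩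
    have := H (d * x) (d * y)
      (by rw [abs_mul, abs_mul, abs_of_pos hd0']; linarith) (by rwa [← mul_add]) (by
        funext i
        simp only [Pi.add_apply, Pi.smul_apply, Pi.zero_apply]
        simp only [zsmul_eq_mul]
        by_cases hi : i = Fin.last (r + 1)
        · subst hi
          rw [← hU, ← hV]
          have h4 : ((d * x * U + d * y * V : ℤ) : ZMod (n (Fin.last (r + 1)))) = 0 := by
            rw [ZMod.intCast_zmod_eq_zero_iff_dvd, ht]
            obtain ⟨k, hk⟩ := h3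
            refine ⟨k * (v * U - u * V), ?_⟩
            push_cast
            linear_combination (d * (u * x + v * y)) * hrel + (d * (v * U - u * V)) * hk -
              (d * x * U + d * y * V) * huv
          push_cast at h4 ⊢
          exact h4
        · have h5 : i ≤ Fin.castSucc (Fin.last r) := by
            have := i.2
            have h6 : (i : ℕ) ≠ r + 1 := fun e => hi (Fin.ext e)
            rw [Fin.le_def]; simp; omega
          have h7 : ((d : ℕ) : ZMod (n i)) = 0 := by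
            rw [ZMod.natCast_eq_zero_iff, ← hd]; exact hdvd _ _ h5
          push_cast
          rw [h7]; ring)
    exact ⟨(mul_eq_zero.1 this.1).resolve_left hd0'.ne', (mul_eq_zero.1 this.2).resolve_left hd0'.ne'⟩
  · rintro ⟨α, β, ⟨u, v, huv⟩, H⟩
    refine ⟨fun i => ((if i = Fin.last (r + 1) then α else -v : ℤ) : ZMod (n i)),
      fun i => ((if i = Fin.last (r + 1) then β else u : ℤ) : ZMod (n i)),
      fun x y h1 h2 h3 => ?_⟩
    have k1 := congrFun h3 (Fin.last (r + 1))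
    have k2 := congrFun h3 (Fin.castSucc (Fin.last r))
    have hne : Fin.castSucc (Fin.last r) ≠ Fin.last (r + 1) := (Fin.castSucc_lt_last _).ne
    simp only [Pi.add_apply, Pi.smul_apply, Pi.zero_apply, if_true, if_neg hne] at k1 k2
    simp only [zsmul_eq_mul] at k1 k2
    have k3 : ((d * t : ℕ) : ℤ) ∣ x * α + y * β := by
      rw [← ht, ← ZMod.intCast_zmod_eq_zero_iff_dvd]; push_cast; exact k1
    have k4 : ((d : ℕ) : ℤ) ∣ x * -v + y * u := by
      have k5 : ((n (Fin.castSucc (Fin.last r)) : ℕ) : ℤ) ∣ x * -v + y * u := by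
        rw [← ZMod.intCast_zmod_eq_zero_iff_dvd]; push_cast at k2 ⊢; exact k2
      rwa [hd] at k5
    obtain ⟨p, hp⟩ := k3
    obtain ⟨q, hq⟩ := k4
    push_cast at hp
    obtain ⟨x', rfl⟩ : ∃ x', x = d * x' :=
      ⟨u * t * p - β * q, by linear_combination u * hp - β * hq - x * huv⟩
    obtain ⟨y', rfl⟩ : ∃ y', y = d * y' :=
      ⟨v * t * p + α * q, by linear_combination v * hp + α * hq - y * huv⟩
    have := H x' y' (by rw [abs_mul, abs_mul, abs_of_pos hd0'] at h1; linarith)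
      (by rwa [← mul_add] at h2)
      ⟨p, mul_left_cancel₀ hd0'.ne' (by linear_combination hp)⟩
    rw [this.1, this.2]; simp

lemma lt_div_succ (d k : ℕ) (hd0 : 0 < d) (z : ℤ) :
    z < ((k / d + 1 : ℕ) : ℤ) ↔ (d : ℤ) * z ≤ k := by
  have hd0' : (0 : ℤ) < d := by exact_mod_cast hd0
  push_cast
  rw [Int.lt_add_one_iff, Int.le_ediv_iff_mul_le hd0', mul_comm]

theorem classification (h : ℕ) (hh : 1 ≤ h) (G : Type) [AddCommGroup G] (r : ℕ)
    (n : Fin (r + 2) → ℕ) (hpos : ∀ i, 0 < n i) (hdvd : ∀ i j, i ≤ j → n i ∣ n j)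
    (e : G ≃+ (Π i, ZMod (n i))) (d t : ℕ)
    (hd : n (Fin.castSucc (Fin.last r)) = d) (ht : n (Fin.last (r + 1)) = d * t) :
    2 ≤ sigmaPM G h ↔
      if Odd d then
        (h / d + 1) ^ 2 ≤ t ∧ (Even t → Even (h / d + 1) → (h / d + 1) * (h / d + 1 + 1) ≤ t)
      else
        (2 * h / d + 1) ^ 2 ≤ 2 * t ∧ (Even (2 * h / d + 1) →
          (2 * h / d + 1) * (2 * h / d + 1 + 1) ≤ 2 * t ∨
            (Even t ∧ (4 ∣ t → 4 ∣ 2 * h / d + 1))) := by
  have hfin : Finite (Π i, ZMod (n i)) := by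
    have : ∀ i, NeZero (n i) := fun i => ⟨(hpos i).ne'⟩
    infer_instance
  have : Finite G := Finite.of_equiv _ e.symm.toEquiv
  have hd0 : 0 < d := hd ▸ hpos _
  have hd0' : (0 : ℤ) < d := by exact_mod_cast hd0
  have ht0 : 0 < t := Nat.pos_of_mul_pos_left (ht ▸ hpos _)
  rw [two_le_sigma_iff G h hh, show Good G h ↔ Good (Π i, ZMod (n i)) h from
    ⟨good_congr e h, good_congr e.symm h⟩, good_pi_iff h r n hdvd d t hd0 hd ht]
  split_ifs with hodd
  · have hodd' : Odd (d : ℤ) := by exact_mod_cast hodd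
    constructor
    · rintro ⟨α, β, hc, H⟩
      refine necO α β hc t _ ht0 fun i j hi hj hdv => ?_
      rw [lt_div_succ d h hd0] at hi hj
      have := H (i + j) (i - j) (by
          rcases le_total |i| |j| with h1 | h1
          · have : |i + j| + |i - j| = 2 * |j| := by simp only [abs_eq_max_neg] at *; omega
            rw [this]; linarith
          · have : |i + j| + |i - j| = 2 * |i| := by simp only [abs_eq_max_neg] at *; omega
            rw [this]; linarith)
        ⟨d * i, by ring⟩ (by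
          have e : α * (i + j) + β * (i - j) = (α + β) * i + (α - β) * j := by ring
          rwa [e])
      omega
    · rintro ⟨h1, h2⟩
      obtain ⟨α, β, hc, H⟩ := sufO t _ h1 h2
      refine ⟨α, β, hc, fun x y k1 k2 k3 => ?_⟩
      obtain ⟨i, hi⟩ : Even (x + y) := (Int.even_mul.1 k2).resolve_left
        (Int.not_even_iff_odd.2 hodd')
      obtain ⟨j, rfl, rfl⟩ : ∃ j, x = i + j ∧ y = i - j := ⟨x - i, by omega, by omega⟩
      have k4 : 2 * |i| ≤ |i + j| + |i - j| := by simp only [abs_eq_max_neg]; omega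
      have k5 : 2 * |j| ≤ |i + j| + |i - j| := by simp only [abs_eq_max_neg]; omega
      have := H i j (by rw [lt_div_succ d h hd0]; nlinarith)
        (by rw [lt_div_succ d h hd0]; nlinarith) (by
          have e : α * (i + j) + β * (i - j) = (α + β) * i + (α - β) * j := by ring
          rwa [e] at k3)
      omega
  · have hev : Even (d : ℤ) := by exact_mod_cast Nat.not_odd_iff_even.1 hodd
    constructor
    · rintro ⟨α, β, hc, H⟩
      refine necE α β hc t _ ht0 fun x y hi hj hdv => ?_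
      rw [lt_div_succ d (2 * h) hd0] at hi hj
      push_cast at hi hj
      refine H x y ?_ (hev.mul_right _) hdv
      have : |x| + |y| = |x + y| ∨ |x| + |y| = |x - y| := by simp only [abs_eq_max_neg]; omega
      rcases this with h1 | h1 <;> rw [h1] <;> assumption
    · rintro ⟨h1, h2⟩
      obtain ⟨α, β, hc, H⟩ := sufE t _ h1 h2 (Nat.succ_pos _)
      refine ⟨α, β, hc, fun x y k1 _ k3 => ?_⟩
      have k4 := abs_add_le x y
      have k5 := abs_sub x y
      exact H x y (by rw [lt_div_succ d (2 * h) hd0]; push_cast; nlinarith)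
        (by rw [lt_div_succ d (2 * h) hd0]; push_cast; nlinarith) k3

end Pool.Agent.MP_824cb5_co

end
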