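import Mathlib

section

namespace Pool.Agent.MP_824cb5_co.AS

open MeasureTheory UnitAddTorus

variable {d : Type} [Fintype d]

theorem mF_add (w : d → ℤ) (x y : UnitAddTorus d) :
    mFourier w (x + y) = mFourier w x * mFourier w y := by
  simp only [mFourier, ContinuousMap.coe_mk, Pi.add_apply, fourier_apply, smul_add,
    AddCircle.toCircle_add, Circle.coe_mul, Finset.prod_mul_distrib]

theorem kron_torus (H : AddSubgroup (UnitAddTorus d)) (hc : IsClosed (H : Set (UnitAddTorus d)))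
    (h : ∀ w : d → ℤ, w ≠ 0 → ∃ x ∈ H, mFourier w x ≠ 1) (x₀ : UnitAddTorus d) : x₀ ∈ H := by
  by_contra hx
  have : CompactSpace H := isCompact_iff_compactSpace.1 hc.isCompact
  borelize ↥H
  let μ : Measure H := Measure.addHaar
  have int : ∀ (f : C(UnitAddTorus d, ℂ)) (y : UnitAddTorus d),
      Integrable (fun x : H => f (y + x)) μ := fun f y =>
    (show Continuous fun x : H => f (y + x) by fun_prop).integrable_of_hasCompactSupport
      (HasCompactSupport.of_compactSpace _)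
  have cont : ∀ y : UnitAddTorus d, Continuous fun f : C(UnitAddTorus d, ℂ) =>
      ∫ x : H, f (y + x) ∂μ := fun y => by
    refine LipschitzWith.continuous (K := (μ.real Set.univ).toNNReal)
      (LipschitzWith.of_dist_le_mul fun f g => ?_)
    rw [dist_eq_norm, ← integral_sub (int f y) (int g y), Real.coe_toNNReal _ measureReal_nonneg,
      mul_comm]
    refine norm_integral_le_of_norm_le_const (Filter.Eventually.of_forall fun x => ?_)
    rw [← dist_eq_norm]
    exact ContinuousMap.dist_apply_le_dist _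
  have key : ∀ f : C(UnitAddTorus d, ℂ), ∫ x : H, f (x₀ + x) ∂μ = ∫ x : H, f (0 + x) ∂μ := by
    intro f
    have hf : f ∈ closure (Submodule.span ℂ (Set.range (mFourier (d := d))) :
        Set C(UnitAddTorus d, ℂ)) := by
      rw [← Submodule.topologicalClosure_coe, span_mFourier_closure_eq_top]
      trivial
    refine closure_minimal (t := {f : C(UnitAddTorus d, ℂ) |
      ∫ x : H, f (x₀ + x) ∂μ = ∫ x : H, f (0 + x) ∂μ}) (fun g hg => ?_)
      (isClosed_eq (cont x₀) (cont 0)) hf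
    induction hg using Submodule.span_induction with
    | mem g hg =>
      obtain ⟨w, rfl⟩ := hg
      by_cases hw : w = 0
      · simp [hw, mFourier_zero]
      · obtain ⟨y, hy, h1⟩ := h w hw
        have h2 : ∫ x : H, mFourier w x ∂μ = 0 := by
          have h3 := integral_add_left_eq_self (μ := μ) (fun x : H => mFourier w x) ⟨y, hy⟩
          simp only [AddSubgroup.coe_add, mF_add, integral_const_mul] at h3
          by_contra h4
          exact h1 (mul_right_cancel₀ h4 (h3.trans (one_mul _).symm))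
        simp only [Set.mem_ofPred_eq, mF_add, integral_const_mul, h2, mul_zero]
    | zero => simp
    | add f g _ _ hf hg =>
      simp only [Set.mem_ofPred_eq, ContinuousMap.add_apply] at hf hg ⊢
      rw [integral_add (int f _) (int g _), integral_add (int f _) (int g _), hf, hg]
    | smul c f _ hf =>
      simp only [Set.mem_ofPred_eq, ContinuousMap.smul_apply, smul_eq_mul, integral_const_mul]
        at hf ⊢
      rw [hf]
  obtain ⟨f, f0, f1, -⟩ := exists_continuous_zero_one_of_isClosed hc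
    (hc.preimage (f := fun y => y - x₀) (by fun_prop)) (Set.disjoint_left.2 fun y h1 h2 =>
      hx (by simpa using H.sub_mem h1 h2))
  have h5 := key ⟨fun y => (f y : ℂ), by fun_prop⟩
  have e0 : ∀ x : H, f (0 + x) = 0 := fun x => f0 (by simp)
  have e1 : ∀ x : H, f (x₀ + x) = 1 := fun x => f1 (by simp)
  simp only [ContinuousMap.coe_mk, e0, e1, Complex.ofReal_zero, Complex.ofReal_one, integral_const,
    smul_zero, smul_eq_zero, one_ne_zero, or_false] at h5
  exact (measureReal_univ_pos (μ := μ)).ne' h5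

/-- a closed subgroup that contains the integral vectors and has no integral dual vector -/
theorem kron (S : AddSubgroup (d → ℝ)) (hc : IsClosed (S : Set (d → ℝ)))
    (hz : ∀ z : d → ℤ, (fun i => (z i : ℝ)) ∈ S)
    (h : ∀ w : d → ℤ, w ≠ 0 → ∃ v ∈ S, ∀ k : ℤ, ∑ i, w i * v i ≠ k) (v₀ : d → ℝ) : v₀ ∈ S := by
  let π : (d → ℝ) →+ UnitAddTorus d :=
    { toFun := fun v i => (v i : UnitAddCircle)
      map_zero' := rfl
      map_add' := fun _ _ => rfl }
  have hq : IsOpenQuotientMap π :=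
    IsOpenQuotientMap.piMap fun _ : d => QuotientAddGroup.isOpenQuotientMap_mk
  have hs : ∀ v, π v ∈ S.map π → v ∈ S := by
    rintro v ⟨u, hu, e⟩
    have : ∀ i, ∃ z : ℤ, (z : ℝ) = v i - u i := fun i => by
      have h1 : ((v i - u i : ℝ) : UnitAddCircle) = 0 := by
        rw [AddCircle.coe_sub]
        exact sub_eq_zero.2 (congrFun e i).symm
      obtain ⟨z, hz⟩ := (AddCircle.coe_eq_zero_iff _).1 h1
      exact ⟨z, by simpa using hz⟩
    choose z hz' using this
    have h2 := S.add_mem hu (hz z)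
    convert h2 using 1
    funext i
    simp [hz']
  refine hs v₀ (kron_torus _ ?_ (fun w hw => ?_) _)
  · rw [← hq.isQuotientMap.isClosed_preimage]
    convert hc using 1
    exact Set.ext fun v => ⟨hs v, fun hv => ⟨v, hv, rfl⟩⟩
  · obtain ⟨v, hv, h1⟩ := h w hw
    refine ⟨π v, ⟨v, hv, rfl⟩, fun h2 => ?_⟩
    have h3 : mFourier w (π v) = Complex.exp (2 * Real.pi * Complex.I * (∑ i, w i * v i : ℝ)) := by
      show ∏ i, fourier (w i) ((v i : ℝ) : UnitAddCircle) = _
      simp only [fourier_coe_apply, ← Complex.exp_sum]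
      congr 1
      push_cast
      rw [Finset.mul_sum]
      exact Finset.sum_congr rfl fun i _ => by ring
    rw [h3, Complex.exp_eq_one_iff] at h2
    obtain ⟨k, hk⟩ := h2
    refine h1 k ?_
    have h4 : ((∑ i, w i * v i : ℝ) : ℂ) = (k : ℂ) :=
      mul_left_cancel₀ Complex.two_pi_I_ne_zero (hk.trans (mul_comm _ _))
    exact_mod_cast h4

/-- the version for a closed set with periods -/
theorem kron_set {ι : Type} (S : Set (d → ℝ)) (hc : IsClosed S) (hn : S.Nonempty) (D : ℝ)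
    (hD : D ≠ 0) (r : ι → d → ℝ)
    (hz : ∀ z : d → ℤ, ∀ v ∈ S, (v + fun i => D * z i) ∈ S)
    (hr : ∀ a, ∀ v ∈ S, v + r a ∈ S ∧ v - r a ∈ S)
    (h : ∀ w : d → ℤ, w ≠ 0 → ∃ a, ∀ k : ℤ, ∑ i, w i * r a i ≠ D * k) (v₀ : d → ℝ) : v₀ ∈ S := by
  let H : AddSubgroup (d → ℝ) :=
    { carrier := {u | ∀ v ∈ S, v + D • u ∈ S ∧ v - D • u ∈ S}
      zero_mem' := fun v hv => by simpa using hv
      add_mem' := fun {a b} ha hb v hv => by
        rw [smul_add, ← add_assoc, ← sub_sub]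
        exact ⟨(hb _ (ha v hv).1).1, (hb _ (ha v hv).2).2⟩
      neg_mem' := fun {a} ha v hv => by
        rw [smul_neg, sub_neg_eq_add, ← sub_eq_add_neg]
        exact (ha v hv).symm }
  have hH : IsClosed (H : Set (d → ℝ)) := by
    have : (H : Set (d → ℝ)) = ⋂ v ∈ S, ((fun u => v + D • u) ⁻¹' S ∩ (fun u => v - D • u) ⁻¹' S) :=
      Set.ext fun u => by simp [H]
    rw [this]
    exact isClosed_biInter fun v _ => (hc.preimage (by fun_prop)).inter (hc.preimage (by fun_prop))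
  obtain ⟨v, hv⟩ := hn
  have h1 := kron H hH (fun z u hu => ⟨hz z u hu, by
      convert hz (-z) u hu using 1
      funext i
      simp [sub_eq_add_neg]⟩)
    (fun w hw => by
      obtain ⟨a, ha⟩ := h w hw
      refine ⟨D⁻¹ • r a, fun u hu => by
        rw [smul_inv_smul₀ hD]
        exact hr a u hu, fun k hk => ha k ?_⟩
      rw [← hk, Finset.mul_sum]
      exact Finset.sum_congr rfl fun i _ => by
        simp only [Pi.smul_apply, smul_eq_mul]
        field_simp) (D⁻¹ • (v₀ - v)) v hv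
  simpa [smul_inv_smul₀ hD] using h1.1

end Pool.Agent.MP_824cb5_co.AS

end

section

namespace Pool.Agent.MP_824cb5_co.AS

open Matrix

variable {κ : Type} [Fintype κ] [DecidableEq κ]

theorem tv_comm {i j o : κ} (h1 : i ≠ j) (h2 : i ≠ o) (h3 : j ≠ o) (c : ℝ) :
    transvection i o c * transvection o j 1 * transvection i o (-c) * transvection o j (-1) =
      transvection i j c := by
  simp only [transvection, mul_add, add_mul, Matrix.one_mul, single_mul_single_same,
    single_mul_single_of_ne _ _ _ _ h1.symm, single_mul_single_of_ne _ _ _ _ h2.symm,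
    single_mul_single_of_ne _ _ _ _ h3, mul_one, mul_neg, add_zero]
  simp only [← single_neg]
  abel

theorem tv_diag {i j : κ} (h : i ≠ j) {a : ℝ} (ha : a ≠ 0) :
    transvection i j a * transvection j i (-a⁻¹) * transvection i j a * transvection i j (-1) *
      transvection j i 1 * transvection i j (-1) =
      diagonal fun k => if k = i then a else if k = j then a⁻¹ else 1 := by
  simp only [transvection, mul_add, add_mul, Matrix.mul_one, Matrix.one_mul, single_mul_single_same,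
    single_mul_single_of_ne _ _ _ _ h.symm, single_mul_single_of_ne _ _ _ _ h, add_zero]
  have e : (diagonal fun k => if k = i then a else if k = j then a⁻¹ else 1) =
      1 + single i i (a - 1) + single j j (a⁻¹ - 1) := by
    ext k l
    simp only [Matrix.add_apply, single, of_apply, Matrix.one_apply, diagonal_apply]
    by_cases k1 : k = l
    · subst k1
      by_cases k2 : k = i
      · subst k2
        simp [h.symm]
      · by_cases k3 : k = j
        · subst k3
          simp [h, h.symm]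
        · simp [k2, k3, Ne.symm k2, Ne.symm k3]
    · rw [if_neg k1, if_neg k1, if_neg (fun t => k1 (t.1.symm.trans t.2)),
        if_neg (fun t => k1 (t.1.symm.trans t.2)), add_zero, add_zero]
  have s1 : ∀ (k l : κ) (c : ℝ), single k l c = c • single k l (1 : ℝ) := fun k l c => by
    rw [smul_single, smul_eq_mul, mul_one]
  rw [e]
  simp only [mul_one, one_mul, mul_neg, neg_mul, neg_neg, mul_inv_cancel₀ ha, inv_mul_cancel₀ ha]
  rw [s1 i i (a - 1), s1 j j (a⁻¹ - 1)]
  simp only [← single_neg]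
  simp only [s1 _ _ a, s1 _ _ a⁻¹]
  module

/-- the transvections in one row and one column generate the special linear group -/
theorem sl_gen [Nontrivial κ] (o : κ) (P : Matrix κ κ ℝ → Prop)
    (hmul : ∀ A B, P A → P B → P (A * B)) (h1 : ∀ j, j ≠ o → ∀ c, P (transvection o j c))
    (h2 : ∀ i, i ≠ o → ∀ c, P (transvection i o c)) (A : Matrix κ κ ℝ) (hA : A.det = 1) : P A := by
  have ht : ∀ i j, i ≠ j → ∀ c, P (transvection i j c) := fun i j h c => by
    by_cases hi : i = o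
    · exact hi ▸ h1 j (hi ▸ h.symm) c
    by_cases hj : j = o
    · exact hj ▸ h2 i hi c
    rw [← tv_comm h hi hj]
    exact hmul _ _ (hmul _ _ (hmul _ _ (h2 i hi _) (h1 j hj _)) (h2 i hi _)) (h1 j hj _)
  refine SpecialLinearGroup.diagonal_transvection_induction' (fun g => P g.1) ⟨A, hA⟩
    (fun i j h c hc => ?_) (fun i j h c => ht i j h c) fun A B => hmul _ _
  show P (diagonal _)
  rw [← tv_diag h hc]
  exact hmul _ _ (hmul _ _ (hmul _ _ (hmul _ _ (hmul _ _ (ht _ _ h _) (ht _ _ h.symm _))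
    (ht _ _ h _)) (ht _ _ h _)) (ht _ _ h.symm _)) (ht _ _ h _)

end Pool.Agent.MP_824cb5_co.AS

end

section

namespace Pool.Agent.MP_824cb5_co.AS

open Matrix

variable {ι : Type} [Fintype ι] [DecidableEq ι]

/-- a matrix with one more row and column -/
def blk {R : Type} (l : R) (v w : ι → R) (B : Matrix ι ι R) : Matrix (Unit ⊕ ι) (Unit ⊕ ι) R :=
  fromBlocks (of fun _ _ => l) (of fun _ j => v j) (of fun i _ => w i) B

section ring

variable {R : Type} [CommRing R]

omit [DecidableEq ι] in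
theorem blk_mul (l l' : R) (v w v' w' : ι → R) (B B' : Matrix ι ι R) :
    blk l v w B * blk l' v' w' B' = blk (l * l' + v ⬝ᵥ w') (l • v' + v ᵥ* B')
      (l' • w + B *ᵥ w') (vecMulVec w v' + B * B') := by
  ext (a | a) (b | b) <;>
    simp [blk, Matrix.mul_apply, dotProduct, vecMul, mulVec, vecMulVec_apply, mul_comm]

omit [Fintype ι] in
theorem blk_one : blk (1 : R) 0 0 (1 : Matrix ι ι R) = 1 := by
  ext (a | a) (b | b) <;> simp [blk, Matrix.one_apply]

theorem det_blk_up (l : R) (v : ι → R) (B : Matrix ι ι R) : (blk l v 0 B).det = l * B.det := by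
  have : (of fun (i : ι) (_ : Unit) => (0 : ι → R) i) = 0 := rfl
  rw [blk, this, det_fromBlocks_zero₂₁]
  simp

theorem det_blk_dn (l : R) (w : ι → R) (B : Matrix ι ι R) : (blk l 0 w B).det = l * B.det := by
  have : (of fun (_ : Unit) (j : ι) => (0 : ι → R) j) = 0 := rfl
  rw [blk, this, det_fromBlocks_zero₁₂]
  simp

omit [Fintype ι] in
theorem tv_up (j : ι) (c : R) :
    transvection (Sum.inl ()) (Sum.inr j) c = blk 1 (Pi.single j c) 0 1 := by
  ext (a | a) (b | b) <;> simp [blk, transvection, Matrix.one_apply, single, Pi.single_apply, eq_comm]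

omit [Fintype ι] in
theorem tv_dn (j : ι) (c : R) :
    transvection (Sum.inr j) (Sum.inl ()) c = blk 1 0 (Pi.single j c) 1 := by
  ext (a | a) (b | b) <;> simp [blk, transvection, Matrix.one_apply, single, Pi.single_apply, eq_comm]

end ring

omit [Fintype ι] [DecidableEq ι] in
theorem blk_map {R S : Type} (f : R → S) (l : R) (v w : ι → R) (B : Matrix ι ι R) :
    (blk l v w B).map f = blk (f l) (fun j => f (v j)) (fun j => f (w j)) (B.map f) := by
  ext (a | a) (b | b) <;> rfl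

omit [Fintype ι] [DecidableEq ι] in
theorem cont_blk {X : Type} [TopologicalSpace X] {l : X → ℝ} {v w : X → ι → ℝ}
    {B : X → Matrix ι ι ℝ} (hl : Continuous l) (hv : Continuous v) (hw : Continuous w)
    (hB : Continuous B) : Continuous fun x => blk (l x) (v x) (w x) (B x) := by
  refine continuous_matrix ?_
  rintro (a | a) (b | b)
  · exact hl
  · exact (continuous_apply b).comp hv
  · exact (continuous_apply a).comp hw
  · exact hB.matrix_elem a b

/-- the real matrix of an integral matrix -/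
abbrev cR {κ : Type} (M : Matrix κ κ ℤ) : Matrix κ κ ℝ := M.map (Int.castRingHom ℝ)

section per

variable {κ : Type} [Fintype κ] [DecidableEq κ]

theorem det_cR (M : Matrix κ κ ℤ) : (cR M).det = M.det :=
  ((Int.castRingHom ℝ).map_det M).symm

omit [DecidableEq κ] in
theorem cR_mul (M N : Matrix κ κ ℤ) : cR (M * N) = cR M * cR N := Matrix.map_mul

/-- an invertible multiple of an integral matrix -/
def Rt (C : Matrix κ κ ℝ) : Prop := C.det ≠ 0 ∧ ∃ (r : ℝ) (M : Matrix κ κ ℤ), C = r • cR M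

theorem Rt.per {C : Matrix κ κ ℝ} (h : Rt C) : ∃ D : ℤ, D ≠ 0 ∧ ∀ N : Matrix κ κ ℤ,
    (1 + D • N).det = 1 → ∃ γ : Matrix κ κ ℤ, γ.det = 1 ∧ cR (1 + D • N) * C = C * cR γ := by
  obtain ⟨h1, r, M, rfl⟩ := h
  have h2 : M.det ≠ 0 := fun e => h1 (by rw [det_smul, det_cR, e, Int.cast_zero, mul_zero])
  refine ⟨M.det, h2, fun N hN => ?_⟩
  have e : (1 + M.det • N) * M = M * (1 + M.adjugate * N * M) := by
    rw [mul_add, add_mul, ← Matrix.mul_assoc, ← Matrix.mul_assoc, mul_adjugate, Matrix.mul_one,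
      Matrix.one_mul, smul_mul_assoc, smul_mul_assoc, smul_mul_assoc, Matrix.one_mul]
  refine ⟨1 + M.adjugate * N * M, ?_, ?_⟩
  · have h3 := congrArg det e
    rw [det_mul, det_mul, hN, one_mul] at h3
    exact (mul_left_cancel₀ h2 ((mul_one _).trans h3)).symm
  · rw [mul_smul_comm, smul_mul_assoc, ← Matrix.map_mul, ← Matrix.map_mul, e]

theorem Rt.tv {C : Matrix κ κ ℝ} (h : Rt C) {i j : κ} (hij : i ≠ j) (q : ℚ) :
    Rt (transvection i j (q : ℝ) * C) := by
  obtain ⟨h1, r, M, rfl⟩ := h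
  refine ⟨by rwa [det_mul, det_transvection_of_ne _ _ hij, one_mul], r / q.den,
    ((q.den : ℤ) • 1 + single i j q.num) * M, ?_⟩
  have h2 : (q.den : ℝ) ≠ 0 := Nat.cast_ne_zero.2 q.den_nz
  have e : cR ((q.den : ℤ) • 1 + single i j q.num) = (q.den : ℝ) • transvection i j (q : ℝ) := by
    ext a b
    simp only [map_apply, Matrix.add_apply, Matrix.smul_apply, transvection, Matrix.one_apply,
      single, of_apply, Rat.cast_def, smul_eq_mul, eq_intCast]
    split_ifs <;> simp [mul_add, mul_div_cancel₀ _ h2]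
  rw [cR_mul, e, smul_mul_assoc, smul_smul, div_mul_cancel₀ _ h2, mul_smul_comm]

end per

/-- the symmetries of the set of limits -/
structure Sym (Y : Set (Matrix (Unit ⊕ ι) (Unit ⊕ ι) ℝ)) : Prop where
  cl : IsClosed Y
  rt : ∀ A ∈ Y, ∀ γ : Matrix (Unit ⊕ ι) (Unit ⊕ ι) ℤ, γ.det = 1 → A * cR γ ∈ Y
  up : ∀ A ∈ Y, ∀ z : ι → ℤ, blk 1 (fun j => 2 * (z j : ℝ)) 0 1 * A ∈ Y
  dn : ∀ A ∈ Y, ∀ z : ι → ℤ, blk 1 0 (fun j => 2 * (z j : ℝ)) 1 * A ∈ Y

variable {Y : Set (Matrix (Unit ⊕ ι) (Unit ⊕ ι) ℝ)} {l : ℝ} {B : Matrix ι ι ℝ}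
  {C : Matrix (Unit ⊕ ι) (Unit ⊕ ι) ℝ}

theorem Sym.per (h : Sym Y) (hC : Rt C) : ∃ D : ℤ, D ≠ 0 ∧ ∀ X, X * C ∈ Y → ∀ z : ι → ℤ,
    X * blk 1 (fun j => (D : ℝ) * z j) 0 1 * C ∈ Y ∧
      X * blk 1 0 (fun j => (D : ℝ) * z j) 1 * C ∈ Y := by
  obtain ⟨D, hD, H⟩ := hC.per
  refine ⟨D, hD, fun X hX z => ⟨?_, ?_⟩⟩
  · have e : 1 + D • blk 0 z 0 0 = blk 1 (fun j => D * z j) 0 1 := by
      ext (a | a) (b | b) <;> simp [blk, Matrix.one_apply, -zsmul_eq_mul]
    obtain ⟨γ, h1, h2⟩ := H (blk 0 z 0 0) (by rw [e, det_blk_up]; simp)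
    have h3 := h.rt _ hX γ h1
    rw [Matrix.mul_assoc, ← h2, ← Matrix.mul_assoc, e, cR, blk_map] at h3
    simpa [Pi.zero_def] using h3
  · have e : 1 + D • blk 0 0 z 0 = blk 1 0 (fun j => D * z j) 1 := by
      ext (a | a) (b | b) <;> simp [blk, Matrix.one_apply, -zsmul_eq_mul]
    obtain ⟨γ, h1, h2⟩ := H (blk 0 0 z 0) (by rw [e, det_blk_dn]; simp)
    have h3 := h.rt _ hX γ h1
    rw [Matrix.mul_assoc, ← h2, ← Matrix.mul_assoc, e, cR, blk_map] at h3
    simpa [Pi.zero_def] using h3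

theorem Sym.all_up (h : Sym Y) (hC : Rt C)
    (irr : ∀ w : ι → ℤ, w ≠ 0 → ∃ i, Irrational ((∑ j, B i j * w j) / l)) (hl : l ≠ 0)
    {v₀ : ι → ℝ} (h0 : blk l v₀ 0 B * C ∈ Y) (v : ι → ℝ) : blk l v 0 B * C ∈ Y := by
  obtain ⟨D, hD, H⟩ := h.per hC
  refine kron_set {v | blk l v 0 B * C ∈ Y} (h.cl.preimage ((cont_blk continuous_const
    continuous_id continuous_const continuous_const).matrix_mul continuous_const)) ⟨v₀, h0⟩ (l * D)
    (mul_ne_zero hl (Int.cast_ne_zero.2 hD)) (fun i j => 2 * B i j) (fun z u hu => ?_)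
    (fun i u hu => ?_) (fun w hw => ?_) v
  · have h1 := (H _ hu z).1
    rw [blk_mul] at h1
    simp only [mul_one, dotProduct_zero, add_zero, vecMul_one, smul_zero, mulVec_zero,
      zero_vecMulVec, zero_add] at h1
    show blk _ _ _ _ * C ∈ Y
    convert h1 using 3
    funext j
    simp only [Pi.add_apply, Pi.smul_apply, smul_eq_mul]
    ring
  · have key : ∀ c : ℤ, blk l (u + fun j => c * (2 * B i j)) 0 B * C ∈ Y := fun c => by
      have h1 := h.up _ hu (Pi.single i c)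
      rw [← Matrix.mul_assoc, blk_mul] at h1
      simp only [one_mul, dotProduct_zero, add_zero, one_smul, smul_zero, mulVec_zero,
        zero_vecMulVec, zero_add] at h1
      convert h1 using 4
      funext j
      simp [vecMul, dotProduct, Pi.single_apply, mul_comm, mul_left_comm]
    exact ⟨by simpa using key 1, by simpa [sub_eq_add_neg, Pi.neg_def] using key (-1)⟩
  · obtain ⟨i, hi⟩ := irr w hw
    refine ⟨i, fun k hk => hi ⟨(D * k : ℤ) / 2, ?_⟩⟩
    have : ∑ j, B i j * w j = l * D * k / 2 := by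
      rw [← hk, Finset.sum_div]
      exact Finset.sum_congr rfl fun j _ => by ring
    rw [this]
    push_cast
    field_simp

theorem Sym.all_dn (h : Sym Y) (hC : Rt C)
    (irr : ∀ w : ι → ℤ, w ≠ 0 → ∃ j, Irrational ((∑ i, w i * B i j) / l)) (hl : l ≠ 0)
    (h0 : blk l 0 0 B * C ∈ Y) (u : ι → ℝ) : blk l 0 u B * C ∈ Y := by
  obtain ⟨D, hD, H⟩ := h.per hC
  refine kron_set {u | blk l 0 u B * C ∈ Y} (h.cl.preimage ((cont_blk continuous_const
    continuous_const continuous_id continuous_const).matrix_mul continuous_const)) ⟨0, h0⟩ (l * 2)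
    (mul_ne_zero hl two_ne_zero) (fun j i => D * B i j) (fun z u hu => ?_)
    (fun j u hu => ?_) (fun w hw => ?_) u
  · have h1 := h.dn _ hu z
    rw [← Matrix.mul_assoc, blk_mul] at h1
    simp only [one_mul, zero_dotProduct, add_zero, smul_zero, zero_vecMul, one_mulVec,
      vecMulVec_zero, zero_add] at h1
    show blk _ _ _ _ * C ∈ Y
    convert h1 using 3
    funext j
    simp only [Pi.add_apply, Pi.smul_apply, smul_eq_mul]
    ring
  · have key : ∀ c : ℤ, blk l 0 (u + fun i => c * (D * B i j)) B * C ∈ Y := fun c => by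
      have h1 := (H _ hu (Pi.single j c)).2
      rw [blk_mul] at h1
      simp only [mul_one, zero_dotProduct, add_zero, smul_zero, zero_vecMul, one_smul,
        vecMulVec_zero, zero_add] at h1
      convert h1 using 4
      funext i
      simp [mulVec, dotProduct, Pi.single_apply]
      ring
    exact ⟨by simpa using key 1, by simpa [sub_eq_add_neg, Pi.neg_def] using key (-1)⟩
  · obtain ⟨j, hj⟩ := irr w hw
    refine ⟨j, fun k hk => hj ⟨2 * k / D, ?_⟩⟩
    have hD' : (D : ℝ) ≠ 0 := Int.cast_ne_zero.2 hD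
    have : ∑ i, w i * B i j = l * 2 * k / D := by
      rw [← hk, Finset.sum_div]
      exact Finset.sum_congr rfl fun j _ => by field_simp
    rw [this]
    push_cast
    field_simp

/-- one irrational block triangular limit gives all limits -/
theorem Sym.dense [Nonempty ι] (h : Sym Y) (hl : l ≠ 0) (hB : B.det ≠ 0)
    (irr : ∀ w : ι → ℤ, w ≠ 0 → ∃ i, Irrational ((∑ j, B i j * w j) / l))
    (irr' : ∀ w : ι → ℤ, w ≠ 0 → ∃ j, Irrational ((∑ i, w i * B i j) / l))
    {v₀ : ι → ℝ} (h0 : blk l v₀ 0 B ∈ Y) (A : Matrix (Unit ⊕ ι) (Unit ⊕ ι) ℝ)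
    (hA : A.det = l * B.det) : A ∈ Y := by
  let Z : Set (Matrix (Unit ⊕ ι) (Unit ⊕ ι) ℝ) := {C | Rt C ∧ blk l 0 0 B * C ∈ Y}
  have r1 : Rt (1 : Matrix (Unit ⊕ ι) (Unit ⊕ ι) ℝ) := ⟨by simp, 1, 1, by simp⟩
  have z1 : 1 ∈ Z := ⟨r1, h.all_up r1 irr hl (v₀ := v₀) (by rwa [Matrix.mul_one]) 0⟩
  have W : ∀ i j, i ≠ j → (∀ C ∈ Z, ∀ c : ℝ, blk l 0 0 B * (transvection i j c * C) ∈ Y) →
      ∀ c : ℝ, Set.MapsTo (transvection i j c * ·) (closure Z) (closure Z) := fun i j hij H c => by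
    refine Set.MapsTo.closure_left (fun C hC => ?_) (by fun_prop) isClosed_closure
    refine Rat.denseRange_cast.induction_on (p := fun c : ℝ => transvection i j c * C ∈ closure Z)
      c (isClosed_closure.preimage (Continuous.matrix_mul ?_ continuous_const))
      fun q => subset_closure ⟨hC.1.tv hij q, H C hC q⟩
    refine continuous_const.add (continuous_matrix fun a b => ?_)
    simp only [single, of_apply]
    split_ifs <;> fun_prop
  have hg : (blk l 0 0 B).det ≠ 0 := by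
    rw [det_blk_up]
    exact mul_ne_zero hl hB
  have : Nontrivial (Unit ⊕ ι) := ⟨Sum.inl (), Sum.inr (Classical.arbitrary ι), by simp⟩
  have key := sl_gen (Sum.inl ()) (fun g => Set.MapsTo (g * ·) (closure Z) (closure Z))
    (fun A B hA hB C hC => by
      show A * B * C ∈ _
      rw [Matrix.mul_assoc]
      exact hA (hB hC))
    (by
      rintro (j | j) hj
      · exact (hj rfl).elim
      refine W _ _ hj.symm fun C hC c => ?_
      rw [tv_up, ← Matrix.mul_assoc, blk_mul]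
      simpa using h.all_up hC.1 irr hl hC.2 _)
    (by
      rintro (j | j) hj
      · exact (hj rfl).elim
      refine W _ _ hj fun C hC c => ?_
      rw [tv_dn, ← Matrix.mul_assoc, blk_mul]
      simpa using h.all_dn hC.1 irr' hl hC.2 _)
    ((blk l 0 0 B)⁻¹ * A) (by
      rw [det_mul, det_nonsing_inv, hA, ← det_blk_up l 0 B, Ring.inverse_mul_cancel _ hg.isUnit])
    (subset_closure z1)
  have h2 : closure Z ⊆ {C | blk l 0 0 B * C ∈ Y} :=
    closure_minimal (fun C hC => hC.2) (h.cl.preimage (by fun_prop))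
  have h3 : blk l 0 0 B * ((blk l 0 0 B)⁻¹ * A * 1) ∈ Y := h2 key
  rwa [Matrix.mul_one, mul_nonsing_inv_cancel_left _ _ hg.isUnit] at h3

end Pool.Agent.MP_824cb5_co.AS

end

section

namespace Pool.Agent.MP_824cb5_co.AS

open Matrix

/-- the solutions of a system of congruences with moduli `t` that satisfy `p` lie in the lattice
spanned by the columns of `M` -/
def Qp {κ : Type} [Fintype κ] (p : (κ → ℤ) → Prop) (t : κ → ℤ) (M : Matrix κ κ ℤ) : Prop :=
  ∃ F : Matrix κ κ ℤ, ∀ x, p x → (∀ i, t i ∣ (F *ᵥ x) i) → ∃ w, x = M *ᵥ w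

variable {ι : Type} [Fintype ι] [DecidableEq ι]

omit [DecidableEq ι] in
theorem blk_mulVec {R : Type} [CommRing R] (l : R) (v w : ι → R) (B : Matrix ι ι R)
    (z : Unit ⊕ ι → R) : blk l v w B *ᵥ z = Sum.elim
      (fun _ => l * z (Sum.inl ()) + v ⬝ᵥ fun j => z (Sum.inr j))
      (z (Sum.inl ()) • w + B *ᵥ fun j => z (Sum.inr j)) := by
  ext (a | a) <;> simp [blk, mulVec, dotProduct, mul_comm]

theorem step [Nonempty ι] {s t₀ : ℤ} {t N b : ι → ℤ} {M : Matrix ι ι ℤ} (hs : 0 < s) (ht : 0 < t₀)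
    (hN : ∀ i, 0 < N i) (hb : ∀ i, b i = 1 ∨ N i = 1) (hc : Pairwise (Function.onFun IsCoprime N))
    (hsc : IsCoprime s (t₀ * ∏ i, N i)) (hM : Qp (fun _ => True) t M) :
    ∃ (x u : ι → ℤ) (y : Matrix ι ι ℤ), (∀ j, 0 ≤ x j ∧ x j < s * t₀ * ∏ i, N i) ∧
      (∀ i, N i * u i + b i * (s * t₀ * ∏ i, N i) = 0) ∧ (∀ i j, N i * y i j + b i * x j = M i j) ∧
      Qp (fun z => s ∣ z (Sum.inl ())) (Sum.elim (fun _ => t₀) t)
        (blk (s * t₀ * ∏ i, N i) x u y) := by
  obtain ⟨μ, hμ⟩ := (exists_sum_eq_one_iff_pairwise_coprime' (s := N)).2 hc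
  obtain ⟨R, hR⟩ : ∃ R : ι → ℤ, ∀ i, R i = ∏ j ∈ {i}ᶜ, N j := ⟨_, fun _ => rfl⟩
  simp only [← hR] at hμ
  have hNR : ∀ i, N i * R i = ∏ i, N i := fun i => by
    rw [hR, ← Finset.prod_mul_prod_compl {i}, Finset.prod_singleton]
  have hd : ∀ i k, i ≠ k → N i ∣ R k := fun i k h => by
    rw [hR]
    exact Finset.dvd_prod_of_mem _ (by simpa using h)
  have hP : 0 < ∏ i, N i := Finset.prod_pos fun i _ => hN i
  have hdP : ∀ e : ℤ, (∀ i, N i ∣ e) → (∏ i, N i) ∣ e := fun e => Fintype.prod_dvd_of_coprime hc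
  generalize ∏ i, N i = P at *
  obtain ⟨φ, hφ⟩ : ∃ φ : ℤ, φ = ∑ j, μ j * (1 - b j) := ⟨_, rfl⟩
  have hp : φ * P + μ ⬝ᵥ (fun i => b i * R i) = 1 := by
    rw [← hμ, hφ, Finset.sum_mul, dotProduct, ← Finset.sum_add_distrib]
    refine Finset.sum_congr rfl fun i _ => ?_
    rcases hb i with h | h
    · rw [h]
      ring
    · rw [← hNR i, h]
      ring
  have col : ∀ c : ι → ℤ, ∃ (x : ℤ) (y : ι → ℤ), (0 ≤ x ∧ x < s * t₀ * P) ∧
      (∀ i, N i * y i + b i * x = c i) ∧ s ∣ x ∧ t₀ ∣ φ * x - μ ⬝ᵥ y := fun c => by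
    have h1 : ∀ i, ∃ y, N i * y + b i * ∑ k, c k * (μ k * R k) = c i := fun i => by
      have h2 : N i ∣ c i - b i * ∑ k, c k * (μ k * R k) := by
        rcases hb i with h | h
        · rw [h, one_mul, ← mul_one (c i), ← hμ, Finset.mul_sum, ← Finset.sum_sub_distrib]
          refine Finset.dvd_sum fun k _ => ?_
          by_cases e : i = k
          · rw [e, sub_self]
            exact dvd_zero _
          · rw [← sub_mul]
            exact (((hd i k e).mul_left _).mul_left _)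
        · rw [h]
          exact one_dvd _
      obtain ⟨y, hy⟩ := h2
      exact ⟨y, by rw [← hy]; ring⟩
    choose y hy using h1
    generalize ∑ k, c k * (μ k * R k) = x at hy
    obtain ⟨α, β, h3⟩ := hsc
    obtain ⟨f, hf⟩ : ∃ f, f = φ * x - μ ⬝ᵥ y := ⟨_, rfl⟩
    obtain ⟨x', hx'⟩ : ∃ x', x' = (x - f * P) * α * s := ⟨_, rfl⟩
    have h4 : 0 < s * t₀ * P := by positivity
    obtain ⟨e, he⟩ : ∃ e, e = -f - t₀ * (β * (x - f * P) + s * (x' / (s * t₀ * P))) := ⟨_, rfl⟩
    have h5 : x' % (s * t₀ * P) = x + e * P := by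
      rw [Int.emod_def, he]
      linear_combination hx' + (x - f * P) * h3
    refine ⟨x' % (s * t₀ * P), fun i => y i - e * (b i * R i),
      ⟨Int.emod_nonneg _ h4.ne', Int.emod_lt_of_pos _ h4⟩, fun i => ?_, ?_, ?_⟩
    · rw [h5, ← hy i, ← hNR i]
      ring
    · rw [Int.emod_def, hx']
      exact (dvd_mul_left _ _).sub (((dvd_mul_right _ _).mul_right _).mul_right _)
    · have h6 : μ ⬝ᵥ (fun i => y i - e * (b i * R i)) = μ ⬝ᵥ y - e * μ ⬝ᵥ fun i => b i * R i := by
        rw [← smul_eq_mul e, ← dotProduct_smul, ← dotProduct_sub]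
        rfl
      rw [h5, h6]
      exact ⟨-(β * (x - f * P) + s * (x' / (s * t₀ * P))), by
        linear_combination e * hp - hf + he⟩
  choose x y h1 h2 h3 h4 using fun j => col fun i => M i j
  obtain ⟨F, hF⟩ := hM
  refine ⟨x, fun i => -(s * t₀ * (b i * R i)), of fun i j => y j i, h1, fun i => ?_, fun i j => h2 j i,
    blk φ (-μ) (F *ᵥ b) (F * diagonal N), fun z z1 z2 => ?_⟩
  · rw [← hNR i]
    ring
  rw [blk_mulVec] at z2
  have z3 := z2 (Sum.inl ())
  obtain ⟨w, hw⟩ := hF (fun i => N i * z (Sum.inr i) + b i * z (Sum.inl ())) trivial fun i => by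
    have := z2 (Sum.inr i)
    rw [Sum.elim_inr, Sum.elim_inr, ← mulVec_mulVec, ← mulVec_smul, ← mulVec_add] at this
    convert this using 3
    simp only [Pi.add_apply, Pi.smul_apply, smul_eq_mul, mulVec_diagonal]
    ring
  have k1 : ∀ i, N i * (z (Sum.inr i) - ∑ j, y j i * w j) +
      b i * (z (Sum.inl ()) - x ⬝ᵥ w) = 0 := fun i => by
    have h5 := congrFun hw i
    simp only [mulVec, dotProduct, ← h2, add_mul, Finset.sum_add_distrib, mul_assoc,
      ← Finset.mul_sum] at h5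
    rw [dotProduct]
    linear_combination h5
  obtain ⟨e, he⟩ := hdP (z (Sum.inl ()) - x ⬝ᵥ w) fun i => by
    rcases hb i with h | h
    · exact ⟨-(z (Sum.inr i) - ∑ j, y j i * w j), by linear_combination k1 i - (z (Sum.inl ()) -
        x ⬝ᵥ w) * h⟩
    · rw [h]
      exact one_dvd _
  have k2 : ∀ i, z (Sum.inr i) = ∑ j, y j i * w j - e * (b i * R i) := fun i =>
    mul_left_cancel₀ (hN i).ne' (by linear_combination k1 i - b i * he + e * b i * hNR i)
  have k3 : s ∣ e := by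
    refine (hsc.of_mul_right_right).dvd_of_dvd_mul_left (he ▸ z1.sub ?_)
    exact Finset.dvd_sum fun j _ => (h3 j).mul_right _
  have k4 : t₀ ∣ e := by
    have h5 : t₀ ∣ ∑ j, (φ * x j - μ ⬝ᵥ y j) * w j := Finset.dvd_sum fun j _ => (h4 j).mul_right _
    have h6 : μ ⬝ᵥ (fun j => z (Sum.inr j)) =
        ∑ j, μ ⬝ᵥ y j * w j - e * μ ⬝ᵥ fun i => b i * R i := by
      simp only [k2, dotProduct, mul_sub, Finset.sum_sub_distrib, Finset.mul_sum, Finset.sum_mul]
      rw [Finset.sum_comm]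
      congr 1
      · exact Finset.sum_congr rfl fun _ _ => Finset.sum_congr rfl fun _ _ => by ring
      · exact Finset.sum_congr rfl fun _ _ => by ring
    simp only [Sum.elim_inl, neg_dotProduct, h6] at z3
    simp only [sub_mul, Finset.sum_sub_distrib, mul_assoc, ← Finset.mul_sum] at h5
    rw [dotProduct] at he
    exact (Dvd.dvd.sub z3 h5).trans (dvd_of_eq (by linear_combination φ * he + e * hp))
  obtain ⟨e', rfl⟩ := (hsc.of_mul_right_left).mul_dvd k3 k4
  refine ⟨Sum.elim (fun _ => e') w, ?_⟩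
  rw [blk_mulVec]
  ext (a | a)
  · simp only [Sum.elim_inl, Sum.elim_inr]
    linear_combination he
  · simp only [Sum.elim_inl, Sum.elim_inr, k2, Pi.add_apply, Pi.smul_apply, smul_eq_mul, mulVec,
      dotProduct, of_apply]
    ring

theorem step_det {l : ℤ} {x u N b : ι → ℤ} {y M : Matrix ι ι ℤ}
    (h1 : ∀ i, N i * u i + b i * l = 0) (h2 : ∀ i j, N i * y i j + b i * x j = M i j) :
    (∏ i, N i) * (blk l x u y).det = l * M.det := by
  have e : blk 1 0 b (diagonal N) * blk l x u y = blk l x 0 M := by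
    rw [blk_mul]
    congr 1
    · simp
    · simp
    · funext i
      simp only [Pi.add_apply, Pi.smul_apply, smul_eq_mul, mulVec_diagonal, Pi.zero_apply]
      linear_combination h1 i
    · ext i j
      simp only [Matrix.add_apply, vecMulVec_apply, diagonal_mul]
      linear_combination h2 i j
  rw [← det_blk_up l x M, ← e, det_mul, det_blk_dn, one_mul, det_diagonal]

end Pool.Agent.MP_824cb5_co.AS

end

section

namespace Pool.Agent.MP_824cb5_co.AS

open Matrix

section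

variable {ι : Type} [Fintype ι]

theorem split_prod {r : ι → ℝ} (hr : ∀ j, 1 ≤ r j) {σ : ℝ} (h1 : 1 ≤ σ) (h2 : σ ≤ ∏ j, r j) :
    ∃ y : ι → ℝ, (∀ j, 1 ≤ y j ∧ y j ≤ r j) ∧ ∏ j, y j = σ := by
  have hc : ContinuousOn (fun θ : ℝ => ∏ j, (1 + θ * (r j - 1))) (Set.Icc 0 1) := by fun_prop
  obtain ⟨θ, ⟨t0, t1⟩, h⟩ := intermediate_value_Icc zero_le_one hc
    (show σ ∈ _ from ⟨by simpa using h1, by simpa using h2⟩)
  exact ⟨fun j => 1 + θ * (r j - 1), fun j => ⟨by nlinarith [hr j], by nlinarith [hr j]⟩, h⟩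

theorem pour {τ t₀ : ℝ} {t ρ : ι → ℝ} (h0 : 0 < t₀) (h1 : t₀ ≤ τ) (h2 : ∀ k, τ ≤ ρ k)
    (h3 : ∀ k, t k < ρ k → ρ k = τ) (ht : ∀ k, 0 < t k) (h4 : τ * ∏ k, ρ k = t₀ * ∏ k, t k) :
    ∃ y : ι → ℝ, (∀ j, 1 ≤ y j) ∧ t₀ * ∏ j, y j = τ ∧ (∀ k, τ ≤ ρ k * y k) ∧
      (∀ k, t k < ρ k * y k → ρ k * y k = τ) ∧ ∏ k, ρ k * y k = ∏ k, t k := by
  have hρ : ∀ k, 0 < ρ k := fun k => by linarith [h2 k]
  have hP : 0 < ∏ k, ρ k := Finset.prod_pos fun k _ => hρ k
  obtain ⟨y, y1, y2⟩ := split_prod (r := fun j => max 1 (t j / ρ j)) (fun j => le_max_left _ _)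
    ((one_le_div h0).2 h1) (by
      refine le_trans (le_of_eq ?_) (Finset.prod_le_prod (f := fun j => t j / ρ j)
        (fun j _ => (div_pos (ht j) (hρ j)).le) fun j _ => le_max_right _ _)
      rw [Finset.prod_div_distrib, div_eq_div_iff h0.ne' hP.ne', h4, mul_comm])
  have y3 : t₀ * ∏ j, y j = τ := by rw [y2, mul_div_cancel₀ _ h0.ne']
  refine ⟨y, fun j => (y1 j).1, y3, fun k => by nlinarith [(y1 k).1, h2 k, hρ k], fun k hk => ?_, ?_⟩
  · rcases le_max_iff.1 (y1 k).2 with h | h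
    · rw [le_antisymm h (y1 k).1, mul_one] at hk ⊢
      exact h3 k hk
    · rw [le_div_iff₀ (hρ k)] at h
      linarith
  · rw [Finset.prod_mul_distrib]
    exact mul_left_cancel₀ h0.ne' (by rw [← h4, ← y3]; ring)

theorem exists_pw {p : ℤ} (hp : 1 < p) {y : ℝ} (hy : 1 ≤ y) :
    ∃ e : ℕ, y ≤ (p ^ e : ℤ) ∧ ((p ^ e : ℤ) : ℝ) ≤ p * y := by
  have h : (1 : ℝ) < p := by exact_mod_cast hp
  obtain ⟨n, h1, h2⟩ := exists_nat_pow_near hy h
  refine ⟨n + 1, by exact_mod_cast h2.le, ?_⟩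
  push_cast
  rw [pow_succ']
  gcongr

theorem exists_p (ι : Type) [Fintype ι] : ∃ p : ι → ℤ, (∀ i, 1 < p i) ∧ (∀ i, Odd (p i)) ∧
    Pairwise (Function.onFun IsCoprime p) :=
  ⟨fun i => Nat.fermatNumber (Fintype.equivFin ι i), fun _ =>
    Nat.one_lt_cast.2 ((Nat.two_lt_fermatNumber _).trans' one_lt_two),
    fun _ => (Int.odd_coe_nat _).2 (Nat.odd_fermatNumber _), fun _ _ h => Nat.isCoprime_iff_coprime.2
      (Nat.coprime_fermatNumber_fermatNumber fun e => h ((Fintype.equivFin ι).injective (Fin.ext e)))⟩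

theorem Qp.equiv {κ : Type} [Fintype κ] (e : κ ≃ ι) {p : (ι → ℤ) → Prop} {t : ι → ℤ}
    {M : Matrix ι ι ℤ} (h : Qp p t M) :
    Qp (fun x => p (x ∘ e.symm)) (t ∘ e) (M.submatrix e e) := by
  obtain ⟨F, hF⟩ := h
  refine ⟨F.submatrix e e, fun x h1 h2 => ?_⟩
  obtain ⟨w, hw⟩ := hF (x ∘ e.symm) h1 fun i => by
    have := h2 (e.symm i)
    rw [submatrix_mulVec_equiv] at this
    simpa using this
  refine ⟨w ∘ e, ?_⟩
  rw [submatrix_mulVec_equiv, Function.comp_assoc, e.self_comp_symm, Function.comp_id, ← hw,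
    Function.comp_assoc, e.symm_comp_self, Function.comp_id]

theorem Qp.mono {p q : (ι → ℤ) → Prop} {t : ι → ℤ} {M : Matrix ι ι ℤ} (h : Qp p t M)
    (hq : ∀ x, q x → p x) : Qp q t M :=
  h.imp fun _ hF x hx => hF x (hq x hx)

theorem Qp_diag [DecidableEq ι] (t : ι → ℤ) : Qp (fun _ => True) t (diagonal t) :=
  ⟨1, fun x _ h => by
    rw [one_mulVec] at h
    choose w hw using h
    exact ⟨w, funext fun i => by rw [mulVec_diagonal, hw]⟩⟩

end

/-- the first index and the others -/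
def eqv (n : ℕ) : Fin (n + 1) ≃ Unit ⊕ Fin n where
  toFun := Fin.cases (Sum.inl ()) Sum.inr
  invFun := Sum.elim (fun _ => 0) Fin.succ
  left_inv i := by cases i using Fin.cases <;> rfl
  right_inv := by rintro (a | a) <;> rfl

/-- balanced bases -/
theorem bal (n : ℕ) : ∃ C : ℝ, 1 ≤ C ∧ ∀ (τ : ℝ) (t : Fin n → ℤ) (ρ : Fin n → ℝ), 0 < τ →
    (∀ k, 0 < t k) → Monotone t → (∀ k, τ ≤ ρ k) → (∀ k, t k < ρ k → ρ k = τ) →
    ∏ k, ρ k = ∏ k, (t k : ℝ) → ∃ M : Matrix (Fin n) (Fin n) ℤ, Qp (fun _ => True) t M ∧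
      M.det = ∏ k, t k ∧ ∀ i j, |(M i j : ℝ)| ≤ C * ρ i := by
  induction n with
  | zero => exact ⟨1, le_rfl, fun _ t _ _ _ _ _ _ _ => ⟨_, Qp_diag t, by simp, fun i => i.elim0⟩⟩
  | succ n ih =>
    obtain ⟨C, hC, ih⟩ := ih
    obtain ⟨p, p1, -, p3⟩ := exists_p (Fin n)
    have p0 : ∀ i, (1 : ℝ) ≤ p i := fun i => by exact_mod_cast (p1 i).le
    have hP : (1 : ℝ) ≤ ∏ i, (p i : ℝ) := Finset.one_le_prod fun i _ => p0 i
    refine ⟨C + ∏ i, (p i : ℝ), by linarith, fun τ t ρ h0 ht hm h1 h2 h3 => ?_⟩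
    have ht' : ∀ k, (0 : ℝ) < t k := fun k => by exact_mod_cast ht k
    have hρ : ∀ k, 0 < ρ k := fun k => h0.trans_le (h1 k)
    by_cases hs : t 0 < ρ 0
    · have e0 := h2 0 hs
      rw [Fin.prod_univ_succ, Fin.prod_univ_succ, e0] at h3
      have : Nonempty (Fin n) := by
        rcases n with _ | n
        · simp at h3
          linarith
        · infer_instance
      obtain ⟨y, y1, y2, y3, y4, y5⟩ := pour (ht' 0) (e0 ▸ hs.le) (fun k : Fin n => h1 k.succ)
        (fun k => h2 k.succ) (fun k => ht' k.succ) h3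
      obtain ⟨M, m1, m2, m3⟩ := ih τ (fun k => t k.succ) _ h0 (fun k => ht _)
        (fun a b h => hm (Fin.succ_le_succ_iff.2 h)) y3 y4 y5
      choose e e1 e2 using fun j => exists_pw (p1 j) (y1 j)
      have hN : ∀ i, 0 < p i ^ e i := fun i => pow_pos (zero_lt_one.trans (p1 i)) _
      obtain ⟨x, u, z, s1, s2, s3, s4⟩ := step (b := fun _ => 1) one_pos (ht 0) hN
        (fun _ => Or.inl rfl) (fun i j h => (p3 h).pow) isCoprime_one_left m1
      have hd := step_det s2 s3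
      have hb : ((1 * t 0 * ∏ i, p i ^ e i : ℤ) : ℝ) ≤ (∏ i, (p i : ℝ)) * τ := by
        rw [← y2, mul_left_comm, ← Finset.prod_mul_distrib, one_mul, Int.cast_mul, Int.cast_prod]
        exact mul_le_mul_of_nonneg_left (Finset.prod_le_prod (fun i _ => by
          exact_mod_cast (hN i).le) fun i _ => e2 i) (ht' 0).le
      have hP0 : 0 < ∏ i, p i ^ e i := Finset.prod_pos fun i _ => hN i
      have hl : 0 < 1 * t 0 * ∏ i, p i ^ e i := mul_pos (mul_pos one_pos (ht 0)) hP0
      refine ⟨(blk (1 * t 0 * ∏ i, p i ^ e i) x u z).submatrix (eqv n) (eqv n), ?_, ?_, fun i j => ?_⟩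
      · convert (s4.equiv (eqv n)).mono (q := fun _ => True) (fun _ _ => one_dvd _) using 1
        funext i
        cases i using Fin.cases <;> rfl
      · rw [det_submatrix_equiv_self, Fin.prod_univ_succ]
        exact mul_left_cancel₀ hP0.ne' (by rw [hd, m2]; ring)
      · generalize 1 * t 0 * ∏ i, p i ^ e i = l at *
        generalize ∏ i, (p i : ℝ) = P at *
        have hl' : (0 : ℝ) < l := by exact_mod_cast hl
        have hx : ∀ j, |(x j : ℝ)| ≤ P * τ := fun j => by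
          rw [abs_of_nonneg (by exact_mod_cast (s1 j).1)]
          exact le_trans (by exact_mod_cast (s1 j).2.le) hb
        have hN1 : ∀ i, (1 : ℝ) ≤ (p i ^ e i : ℤ) := fun i => by exact_mod_cast hN i
        cases i using Fin.cases with
        | zero =>
          rw [e0]
          cases j using Fin.cases with
          | zero =>
            show |(l : ℝ)| ≤ _
            rw [abs_of_pos hl']
            nlinarith
          | succ j =>
            show |(x j : ℝ)| ≤ _
            nlinarith [hx j]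
        | succ i =>
          have k0 : P * τ ≤ P * ρ i.succ := by gcongr; exact h1 _
          have k1 := hρ i.succ
          have k2 := hN1 i
          cases j using Fin.cases with
          | zero =>
            show |(u i : ℝ)| ≤ _
            have k3 : ((p i ^ e i : ℤ) : ℝ) * |(u i : ℝ)| = l := by
              rw [← abs_of_pos hl', ← abs_of_pos (zero_lt_one.trans_le k2), ← abs_mul, ← abs_neg]
              congr 1
              exact_mod_cast (by linear_combination -s2 i : -(p i ^ e i * u i) = l)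
            nlinarith [abs_nonneg (u i : ℝ)]
          | succ j =>
            show |(z i j : ℝ)| ≤ _
            have k3 : ((p i ^ e i : ℤ) : ℝ) * |(z i j : ℝ)| = |(M i j : ℝ) - x j| := by
              rw [← abs_of_pos (zero_lt_one.trans_le k2), ← abs_mul]
              congr 1
              exact_mod_cast (by linear_combination s3 i j : p i ^ e i * z i j = M i j - x j)
            have k4 := abs_sub (M i j : ℝ) (x j)
            have k5 := m3 i j
            have k6 : C * (ρ i.succ * y i) ≤ C * (ρ i.succ * (p i ^ e i : ℤ)) := by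
              gcongr
              exact e1 i
            have k7 : P * ρ i.succ ≤ (p i ^ e i : ℤ) * (P * ρ i.succ) :=
              le_mul_of_one_le_left (by positivity) k2
            refine le_of_mul_le_mul_left ?_ (zero_lt_one.trans_le k2)
            nlinarith [hx j]
    · have k1 : ∀ k, ρ k ≤ t k := fun k => by
        by_contra h
        have h4 : (t 0 : ℝ) ≤ t k := by exact_mod_cast hm (Fin.zero_le k)
        linarith [h2 k (not_le.1 h), h1 0, not_lt.1 hs, not_le.1 h]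
      have k2 : ∀ k, (t k : ℝ) ≤ ρ k := fun k => by
        by_contra h
        exact (Finset.prod_lt_prod (fun i _ => hρ i) (fun i _ => k1 i)
          ⟨k, Finset.mem_univ _, not_le.1 h⟩).ne h3
      refine ⟨_, Qp_diag t, det_diagonal, fun i j => ?_⟩
      have k3 := hρ i
      rw [diagonal_apply]
      split_ifs
      · rw [abs_of_pos (ht' i)]
        nlinarith [k2 i]
      · rw [Int.cast_zero, abs_zero]
        positivity

end Pool.Agent.MP_824cb5_co.AS

end

section

namespace Pool.Agent.MP_824cb5_co.AS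

open Matrix Filter Topology

theorem gen_mu {α : Type} [Countable α] (a b : α → ℝ) :
    ∃ μ : ℝ, 0 < μ ∧ ∀ i, a i + b i ≠ 0 → Irrational ((a i * μ + b i) / μ ^ 2) := by
  have hc : (⋃ (i : α) (q : ℚ), {μ : ℝ | a i + b i ≠ 0 ∧ q * μ ^ 2 - a i * μ - b i = 0}).Countable := by
    refine Set.countable_iUnion fun i => Set.countable_iUnion fun q => Set.Finite.countable ?_
    by_cases h : a i + b i = 0
    · simp [h]
    · refine (Polynomial.finite_setOfPred_isRoot (p := Polynomial.C (q : ℝ) * Polynomial.X ^ 2 -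
        Polynomial.C (a i) * Polynomial.X - Polynomial.C (b i)) fun e => h ?_).subset
        fun μ hμ => by simpa using hμ.2
      have e0 := congrArg (Polynomial.eval 0) e
      have e1 := congrArg (Polynomial.eval 1) e
      have e2 := congrArg (Polynomial.eval (-1)) e
      simp at e0 e1 e2
      linarith
  obtain ⟨μ, h1, h2⟩ := (hc.dense_compl ℝ).inter_open_nonempty _ isOpen_Ioi
    (Set.nonempty_Ioi (a := (0 : ℝ)))
  refine ⟨μ, h1, fun i hi ⟨q, hq⟩ => h2 (Set.mem_iUnion₂.2 ⟨i, q, hi, ?_⟩)⟩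
  have h3 : μ ≠ 0 := ne_of_gt h1
  rw [hq]
  field_simp
  ring

variable {U : Ultrafilter ℕ}

theorem dich {f : ℕ → ℝ} (h : ¬ Tendsto f U atTop) : ∃ K, ∀ᶠ k in U, f k ≤ K := by
  rw [tendsto_atTop, not_forall] at h
  obtain ⟨K, hK⟩ := h
  exact ⟨K, (Ultrafilter.eventually_not.2 hK).mono fun k hk => (not_le.1 hk).le⟩

theorem lim_bdd {f : ℕ → ℝ} {K : ℝ} (h : ∀ᶠ k in U, |f k| ≤ K) : ∃ a, Tendsto f U (𝓝 a) := by
  obtain ⟨a, -, ha⟩ := (isCompact_Icc (a := -K) (b := K)).ultrafilter_le_nhds (U.map f)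
    (le_principal_iff.2 (h.mono fun k hk => abs_le.1 hk))
  exact ⟨a, ha⟩

/-- the limits of a sequence of sets -/
def LimS {X : Type} [TopologicalSpace X] (l : Filter ℕ) (S : ℕ → Set X) : Set X :=
  {A | ∀ V ∈ 𝓝 A, ∀ᶠ k in l, ∃ B ∈ S k, B ∈ V}

section

variable {X : Type} [TopologicalSpace X] {l : Filter ℕ} {S : ℕ → Set X}

theorem limS_closed : IsClosed (LimS l S) :=
  isClosed_of_closure_subset fun A hA V hV => by
    obtain ⟨A', h1, h2⟩ := mem_closure_iff_nhds.1 hA _ (interior_mem_nhds.2 hV)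
    exact h2 V (mem_interior_iff_mem_nhds.1 h1)

theorem limS_map {f : X → X} (hf : Continuous f) (h : ∀ k, ∀ B ∈ S k, f B ∈ S k) {A : X}
    (hA : A ∈ LimS l S) : f A ∈ LimS l S := fun _ hV =>
  (hA _ (hf.continuousAt hV)).mono fun k ⟨B, h1, h2⟩ => ⟨f B, h k B h1, h2⟩

theorem limS_of {B : ℕ → X} {A : X} (h : ∀ k, B k ∈ S k) (h' : Tendsto B l (𝓝 A)) :
    A ∈ LimS l S := fun _ hV => (h'.eventually_mem hV).mono fun k hk => ⟨B k, h k, hk⟩

end

variable {ι : Type} [Fintype ι] [DecidableEq ι]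

theorem Qp.right {p : (ι → ℤ) → Prop} {t : ι → ℤ} {M γ : Matrix ι ι ℤ} (h : Qp p t M)
    (hγ : γ.det = 1) : Qp p t (M * γ) :=
  h.imp fun _ hF x h1 h2 => by
    obtain ⟨w, hw⟩ := hF x h1 h2
    exact ⟨γ.adjugate *ᵥ w, by
      rw [mulVec_mulVec, Matrix.mul_assoc, mul_adjugate, hγ, one_smul, Matrix.mul_one, hw]⟩

theorem Qp.left {p q : (ι → ℤ) → Prop} {t : ι → ℤ} {M γ γ' : Matrix ι ι ℤ} (h : Qp p t M)
    (hγ : γ * γ' = 1) (hq : ∀ x, q x → p (γ' *ᵥ x)) : Qp q t (γ * M) := by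
  obtain ⟨F, hF⟩ := h
  refine ⟨F * γ', fun x h1 h2 => ?_⟩
  obtain ⟨w, hw⟩ := hF (γ' *ᵥ x) (hq x h1) (by rwa [mulVec_mulVec])
  exact ⟨w, by rw [← mulVec_mulVec, ← hw, mulVec_mulVec, hγ, one_mulVec]⟩

/-- the rescaled bases -/
def SB (s : ℤ) (t : Unit ⊕ ι → ℤ) (τ : ℝ) : Set (Matrix (Unit ⊕ ι) (Unit ⊕ ι) ℝ) :=
  {B | ∃ M, Qp (fun z => s ∣ z (Sum.inl ())) t M ∧ B = τ⁻¹ • cR M}

theorem sym_lim {s : ℤ} (hs : s ∣ 2) (l : Filter ℕ) (t : ℕ → Unit ⊕ ι → ℤ) (τ : ℕ → ℝ) :
    Sym (LimS l fun k => SB s (t k) (τ k)) where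
  cl := limS_closed
  rt A hA γ hγ := limS_map (f := (· * cR γ)) (by fun_prop) (by
    rintro k _ ⟨M, h, rfl⟩
    exact ⟨_, h.right hγ, by rw [cR_mul, smul_mul_assoc]⟩) hA
  up A hA z := limS_map (f := (blk 1 (fun j => 2 * (z j : ℝ)) 0 1 * ·)) (by fun_prop) (by
    rintro k _ ⟨M, h, rfl⟩
    refine ⟨_, h.left (γ := blk 1 (fun j => 2 * z j) 0 1) (γ' := blk 1 (-fun j => 2 * z j) 0 1)
      (by rw [blk_mul, ← blk_one]; simp) fun x hx => ?_, ?_⟩
    · rw [blk_mulVec, Sum.elim_inl, one_mul, neg_dotProduct]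
      exact hx.add (Finset.dvd_sum fun j _ => (hs.mul_right _).mul_right _).neg_right
    · rw [cR_mul, mul_smul_comm]
      simp [blk_map, Pi.zero_def]) hA
  dn A hA z := limS_map (f := (blk 1 0 (fun j => 2 * (z j : ℝ)) 1 * ·)) (by fun_prop) (by
    rintro k _ ⟨M, h, rfl⟩
    refine ⟨_, h.left (γ := blk 1 0 (fun j => 2 * z j) 1) (γ' := blk 1 0 (-fun j => 2 * z j) 1)
      (by rw [blk_mul, ← blk_one]; simp) fun x hx => ?_, ?_⟩
    · rw [blk_mulVec, Sum.elim_inl]
      simpa using hx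
    · rw [cR_mul, mul_smul_comm]
      simp [blk_map, Pi.zero_def]) hA

end Pool.Agent.MP_824cb5_co.AS

end

section

namespace Pool.Agent.MP_824cb5_co.AS

open Matrix Filter Topology

variable {U : Ultrafilter ℕ} {n : ℕ} {t₀ : ℕ → ℤ} {t : ℕ → Fin n → ℤ} {τ : ℕ → ℝ}

theorem inner_lim (h0 : ∀ k, 0 < t₀ k) (ht : ∀ k i, 0 < t k i) (hm : ∀ k, Monotone (t k))
    (h1 : ∀ k, t₀ k ≤ τ k) (hp : ∀ k, τ k * τ k ^ n = t₀ k * ∏ i, (t k i : ℝ))
    (hi : Tendsto (fun k => τ k / t₀ k) U atTop) {p : Fin n → ℤ} (p1 : ∀ i, 1 < p i) :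
    ∃ (o : Fin n) (e : ℕ → Fin n → ℕ) (b : Fin n → ℤ) (ν : ℕ → Fin n → ℝ)
      (M : ℕ → Matrix (Fin n) (Fin n) ℤ) (B : Matrix (Fin n) (Fin n) ℝ),
      b o = 1 ∧ (∀ j, b j = 1 ∨ ∀ k, e k j = 0) ∧ (∀ k j, 1 ≤ ν k j) ∧
      (∀ k j, j ≠ o → ν k j = (p j ^ e k j : ℤ)) ∧
      (∀ j, Tendsto (fun k => b j / ν k j) U (𝓝 0)) ∧ (∀ k, Qp (fun _ => True) (t k) (M k)) ∧
      (∀ i j, Tendsto (fun k => M k i j / (ν k i * τ k)) U (𝓝 (B i j))) ∧ B.det ≠ 0 ∧
      Tendsto (fun k => t₀ k * (∏ j, ν k j) / τ k) U (𝓝 B.det⁻¹) := by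
  classical
  have h0' : ∀ k, (0 : ℝ) < t₀ k := fun k => by exact_mod_cast h0 k
  have hτ : ∀ k, 0 < τ k := fun k => (h0' k).trans_le (h1 k)
  choose y y1 y2 y3 y4 y5 using fun k => pour (t := fun i => (t k i : ℝ)) (ρ := fun _ => τ k)
    (h0' k) (h1 k) (fun _ => le_rfl) (fun _ _ => rfl) (fun i => by exact_mod_cast ht k i)
    (by rw [← hp k]; simp)
  obtain ⟨C, hC, hb⟩ := bal n
  choose M m1 m2 m3 using fun k => hb (τ k) (t k) _ (hτ k) (ht k) (hm k) (y3 k) (y4 k) (y5 k)
  obtain ⟨o, ho⟩ : ∃ o, Tendsto (fun k => y k o) U atTop := by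
    by_contra h
    choose K hK using fun j => dich (not_exists.1 h j)
    obtain ⟨k, k1, k2⟩ := ((eventually_all.2 hK).and (hi.eventually_gt_atTop (∏ j, K j))).exists
    rw [← y2 k, mul_div_cancel_left₀ _ (h0' k).ne'] at k2
    exact k2.not_ge (Finset.prod_le_prod (fun j _ => zero_le_one.trans (y1 k j)) fun j _ => k1 j)
  choose e e1 e2 using fun k j => exists_pw (p1 j) (y1 k j)
  have p0 : ∀ i, (1 : ℝ) ≤ p i := fun i => by exact_mod_cast (p1 i).le
  obtain ⟨ν, hν⟩ : ∃ ν : ℕ → Fin n → ℝ, ∀ k j, ν k j = if j = o then y k j else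
    (p j ^ (if Tendsto (fun k => y k j) U atTop then e k j else 0) : ℤ) := ⟨_, fun _ _ => rfl⟩
  have n1 : ∀ j, Tendsto (fun k => y k j) U atTop → ∀ k, y k j ≤ ν k j := fun j h k => by
    rw [hν, if_pos h]
    split_ifs
    · exact le_rfl
    · exact e1 k j
  have n2 : ∀ j, ¬ Tendsto (fun k => y k j) U atTop → ∀ k, ν k j = 1 := fun j h k => by
    rw [hν, if_neg h, if_neg fun e : j = o => h (e ▸ ho)]
    simp
  have n3 : ∀ k j, 1 ≤ ν k j := fun k j => by
    by_cases h : Tendsto (fun k => y k j) U atTop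
    · exact (y1 k j).trans (n1 j h k)
    · rw [n2 j h]
  have n4 : ∀ k j, ν k j ≤ p j * y k j := fun k j => by
    rw [hν]
    split_ifs
    · exact le_mul_of_one_le_left (zero_le_one.trans (y1 k j)) (p0 j)
    · exact e2 k j
    · simpa using one_le_mul_of_one_le_of_one_le (p0 j) (y1 k j)
  have n0 : ∀ k j, 0 < ν k j := fun k j => zero_lt_one.trans_le (n3 k j)
  have hB : ∀ i j, ∃ a, Tendsto (fun k => M k i j / (ν k i * τ k)) U (𝓝 a) := fun i j => by
    obtain ⟨K, hK⟩ : ∃ K, ∀ᶠ k in U, y k i ≤ K * ν k i := by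
      by_cases h : Tendsto (fun k => y k i) U atTop
      · exact ⟨1, Eventually.of_forall fun k => by simpa using n1 i h k⟩
      · simpa only [n2 i h, mul_one] using dich h
    refine lim_bdd (K := C * K) (hK.mono fun k hk => ?_)
    rw [abs_div, abs_of_pos (mul_pos (n0 k i) (hτ k)), div_le_iff₀ (mul_pos (n0 k i) (hτ k))]
    calc _ ≤ _ := m3 k i j
      _ ≤ C * (τ k * (K * ν k i)) := by have := hτ k; gcongr
      _ = _ := by ring
  choose B hB using hB
  have hd : Tendsto (fun k => τ k / (t₀ k * ∏ j, ν k j)) U (𝓝 (det (of B))) := by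
    have h2 : Tendsto (fun k => (of fun i j => M k i j / (ν k i * τ k) : Matrix _ _ ℝ)) U
        (𝓝 (of B)) := tendsto_pi_nhds.2 fun i => tendsto_pi_nhds.2 fun j => hB i j
    refine ((continuous_id.matrix_det.tendsto _).comp h2).congr fun k => ?_
    have h3 : (of fun i j => M k i j / (ν k i * τ k) : Matrix _ _ ℝ) =
        of fun i j => (ν k i * τ k)⁻¹ * cR (M k) i j := by
      ext i j
      simp [div_eq_inv_mul]
    have h4 : 0 < ∏ j, ν k j := Finset.prod_pos fun j _ => n0 k j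
    have h5 := hτ k
    have h6 := h0' k
    simp only [Function.comp_apply, id, h3, det_mul_column, det_cR, m2, Finset.prod_inv_distrib,
      Finset.prod_mul_distrib, Finset.prod_const, Finset.card_univ, Fintype.card_fin, Int.cast_prod]
    field_simp
    linear_combination -hp k
  have hd0 : 0 < det (of B) := by
    have hP : (0 : ℝ) < ∏ j, (p j : ℝ) := Finset.prod_pos fun j _ => zero_lt_one.trans_le (p0 j)
    refine (inv_pos.2 hP).trans_le (ge_of_tendsto' hd fun k => ?_)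
    rw [le_div_iff₀ (mul_pos (h0' k) (Finset.prod_pos fun j _ => n0 k j)), inv_mul_le_iff₀ hP,
      ← y2 k, mul_left_comm, ← Finset.prod_mul_distrib]
    exact mul_le_mul_of_nonneg_left
      (Finset.prod_le_prod (fun j _ => (n0 k j).le) fun j _ => n4 k j) (h0' k).le
  refine ⟨o, fun k j => if Tendsto (fun k => y k j) U atTop then e k j else 0,
    fun j => if Tendsto (fun k => y k j) U atTop then 1 else 0, ν, M, of B, if_pos ho, fun j => ?_,
    n3, fun k j h => by rw [hν, if_neg h], fun j => ?_, m1, hB, hd0.ne', ?_⟩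
  · by_cases h : Tendsto (fun k => y k j) U atTop
    · exact Or.inl (if_pos h)
    · exact Or.inr fun k => if_neg h
  · by_cases h : Tendsto (fun k => y k j) U atTop
    · exact tendsto_const_nhds.div_atTop (tendsto_atTop_mono (n1 j h) h)
    · simp [h]
  · simpa only [inv_div] using hd.inv₀ hd0.ne'

end Pool.Agent.MP_824cb5_co.AS

end

section

namespace Pool.Agent.MP_824cb5_co.AS

open Matrix Filter Topology

variable {U : Ultrafilter ℕ} {n : ℕ} {t₀ : ℕ → ℤ} {t : ℕ → Fin n → ℤ} {τ : ℕ → ℝ}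

theorem fine {y : ℕ → ℝ} {l : Filter ℕ} (hy : Tendsto y l atTop) (y1 : ∀ k, 1 ≤ y k) {P : ℤ}
    (hP : 0 < P) {μ : ℝ} (hμ : 0 < μ) : ∃ c : ℕ → ℤ, (∀ k, 0 ≤ c k) ∧
      Tendsto (fun k => ((1 + P * c k : ℤ) : ℝ) / y k) l (𝓝 μ) := by
  have hP' : (0 : ℝ) < P := by exact_mod_cast hP
  have y0 : ∀ k, 0 < y k := fun k => zero_lt_one.trans_le (y1 k)
  refine ⟨fun k => ⌊μ * y k / P⌋, fun k => Int.floor_nonneg.2 (by have := y0 k; positivity), ?_⟩
  have h1 : Tendsto (fun k => μ + (1 - P) / y k) l (𝓝 μ) := by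
    simpa using tendsto_const_nhds.add (tendsto_const_nhds.div_atTop hy)
  have h2 : Tendsto (fun k => μ + 1 / y k) l (𝓝 μ) := by
    simpa only [add_zero] using tendsto_const_nhds.add (tendsto_const_nhds.div_atTop hy)
  refine tendsto_of_tendsto_of_tendsto_of_le_of_le h1 h2 (fun k => ?_) fun k => ?_
  · have h3 := Int.lt_floor_add_one (μ * y k / P)
    rw [div_lt_iff₀ hP'] at h3
    rw [le_div_iff₀ (y0 k), add_mul, div_mul_cancel₀ _ (y0 k).ne']
    push_cast
    linarith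
  · have h3 := Int.floor_le (μ * y k / P)
    rw [le_div_iff₀ hP'] at h3
    rw [div_le_iff₀ (y0 k), add_mul, div_mul_cancel₀ _ (y0 k).ne']
    push_cast
    linarith

theorem irr_ex {ι : Type} [Fintype ι] [DecidableEq ι] {B : Matrix ι ι ℝ} (hB : B.det ≠ 0) (o : ι)
    {c : ℝ} (hc : c ≠ 0) : ∃ μ : ℝ, 0 < μ ∧
      (∀ w : ι → ℤ, w ≠ 0 → ∃ i, Irrational
        ((∑ j, B i j / (if i = o then μ else 1) * w j) / (c * μ))) ∧
      ∀ w : ι → ℤ, w ≠ 0 → ∃ j, Irrational
        ((∑ i, w i * (B i j / if i = o then μ else 1)) / (c * μ)) := by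
  obtain ⟨μ, h0, h⟩ := gen_mu (α := Bool × (ι → ℤ) × ι)
    (fun x => cond x.1 (if x.2.2 = o then 0 else (∑ j, B x.2.2 j * x.2.1 j) / c)
      ((∑ i, if i = o then 0 else x.2.1 i * B i x.2.2) / c))
    (fun x => cond x.1 (if x.2.2 = o then (∑ j, B x.2.2 j * x.2.1 j) / c else 0)
      ((∑ i, if i = o then x.2.1 i * B i x.2.2 else 0) / c))
  have hw : ∀ w : ι → ℤ, w ≠ 0 → (fun i => (w i : ℝ)) ≠ 0 := fun w h1 h2 =>
    h1 (funext fun i => Int.cast_eq_zero.1 (congrFun h2 i))
  refine ⟨μ, h0, fun w h1 => ?_, fun w h1 => ?_⟩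
  · obtain ⟨i, hi⟩ := Function.ne_iff.1 fun e => hw w h1 (eq_zero_of_mulVec_eq_zero hB e)
    have h2 := h (true, w, i) (by
      simp only [cond_true]
      split_ifs
      · exact (zero_add _).trans_ne (div_ne_zero hi hc)
      · exact (add_zero _).trans_ne (div_ne_zero hi hc))
    refine ⟨i, ?_⟩
    convert h2 using 1
    simp only [cond_true, div_mul_eq_mul_div, ← Finset.sum_div]
    split_ifs <;> field_simp <;> ring
  · obtain ⟨j, hj⟩ := Function.ne_iff.1 fun e => hw w h1 (eq_zero_of_vecMul_eq_zero hB e)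
    have h2 := h (false, w, j) (by
      simp only [cond_false, ← add_div, ← Finset.sum_add_distrib, ite_add_ite, zero_add, add_zero,
        ite_self]
      exact div_ne_zero hj hc)
    refine ⟨j, ?_⟩
    convert h2 using 1
    simp only [cond_false, Finset.sum_div, Finset.sum_mul, ← Finset.sum_add_distrib]
    refine Finset.sum_congr rfl fun i _ => ?_
    split_ifs <;> field_simp
    · ring
    · ring

theorem all_lim {s : ℤ} (hs : 0 < s) (hs2 : s ∣ 2) (hc : ∀ k, IsCoprime s (t₀ k))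
    (h0 : ∀ k, 0 < t₀ k) (ht : ∀ k i, 0 < t k i) (hm : ∀ k, Monotone (t k))
    (h1 : ∀ k, t₀ k ≤ τ k) (hp : ∀ k, τ k * τ k ^ n = t₀ k * ∏ i, (t k i : ℝ))
    (hi : Tendsto (fun k => τ k / t₀ k) U atTop) (A : Matrix (Unit ⊕ Fin n) (Unit ⊕ Fin n) ℝ)
    (hA : A.det = s) : A ∈ LimS U fun k => SB s (Sum.elim (fun _ => t₀ k) (t k)) (τ k) := by
  obtain ⟨p, p1, p2, p3⟩ := exists_p (Fin n)
  obtain ⟨o, e, b, ν, M, B, b1, b2, n1, n2, n3, m1, m2, hB, m3⟩ := inner_lim h0 ht hm h1 hp hi p1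
  have : Nonempty (Fin n) := ⟨o⟩
  have hs' : (0 : ℝ) < s := by exact_mod_cast hs
  have hτ : ∀ k, 0 < τ k := fun k => lt_of_lt_of_le (by exact_mod_cast h0 k) (h1 k)
  have n0 : ∀ k j, 0 < ν k j := fun k j => zero_lt_one.trans_le (n1 k j)
  have p0 : ∀ i, 0 < p i := fun i => zero_lt_one.trans (p1 i)
  obtain ⟨μ, hμ, i1, i2⟩ := irr_ex hB o (mul_ne_zero hs'.ne' (inv_ne_zero hB))
  have ho : Tendsto (fun k => ν k o) U atTop := by
    have h2 := n3 o
    simp only [b1, Int.cast_one, one_div] at h2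
    simpa [Pi.inv_def] using (tendsto_nhdsWithin_iff.2 ⟨h2, Eventually.of_forall fun k =>
      Set.mem_Ioi.2 (inv_pos.2 (n0 k o))⟩).inv_tendsto_nhdsGT_zero
  have hP : 0 < 2 * ∏ i, p i := mul_pos two_pos (Finset.prod_pos fun i _ => p0 i)
  obtain ⟨c, c0, c1⟩ := fine ho (fun k => n1 k o) hP hμ
  obtain ⟨N, hN⟩ : ∃ N : ℕ → Fin n → ℤ, ∀ k j, N k j =
    if j = o then 1 + (2 * ∏ i, p i) * c k else p j ^ e k j := ⟨_, fun _ _ => rfl⟩
  have N0 : ∀ k j, 0 < N k j := fun k j => by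
    rw [hN]
    split_ifs
    · have := mul_nonneg hP.le (c0 k)
      omega
    · exact pow_pos (p0 j) _
  have cp : ∀ k, ∀ q : ℤ, q ∣ 2 * ∏ i, p i → IsCoprime q (N k o) := fun k q ⟨r, hr⟩ => by
    rw [hN, if_pos rfl, hr, mul_assoc]
    exact isCoprime_one_right.add_mul_left_right _
  have cq : ∀ k j, j ≠ o → IsCoprime (N k j) (N k o) := fun k j h => by
    rw [hN k j, if_neg h]
    exact (cp k _ ((Finset.dvd_prod_of_mem p (Finset.mem_univ j)).mul_left 2)).pow_left
  choose x u z s1 s2 s3 s4 using fun k => step (b := b) (N := N k) hs (h0 k) (N0 k)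
    (fun i => by
      by_cases h : i = o
      · exact Or.inl (h ▸ b1)
      · exact (b2 i).imp_right fun h2 => by rw [hN, if_neg h, h2, pow_zero])
    (fun i j h => by
      by_cases h2 : j = o
      · exact h2 ▸ cq k i (h2 ▸ h)
      by_cases h3 : i = o
      · exact h3 ▸ (cq k j h2).symm
      · show IsCoprime (N k i) (N k j)
        rw [hN, hN, if_neg h3, if_neg h2]
        exact (p3 h).pow)
    ((hc k).mul_right (IsCoprime.prod_right fun j _ => by
      by_cases h : j = o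
      · exact h ▸ cp k s (hs2.mul_right _)
      · rw [hN, if_neg h]
        exact ((Int.isCoprime_two_left.2 (p2 j)).of_isCoprime_of_dvd_left hs2).pow_right)) (m1 k)
  obtain ⟨g, hg⟩ : ∃ g : ℕ → Fin n → ℝ, ∀ k j, g k j = N k j / ν k j := ⟨_, fun _ _ => rfl⟩
  have g1 : ∀ j, Tendsto (fun k => g k j) U (𝓝 (if j = o then μ else 1)) := fun j => by
    split_ifs with h
    · simpa only [hg, h, hN, if_true] using c1
    · refine tendsto_const_nhds.congr fun k => ?_
      rw [hg, hN, if_neg h, ← n2 k j h, div_self (n0 k j).ne']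
  have g2 : ∀ j, (if j = o then μ else 1) ≠ 0 := fun j => by
    split_ifs
    · exact hμ.ne'
    · exact one_ne_zero
  have N1 : ∀ k j, (N k j : ℝ) ≠ 0 := fun k j => by exact_mod_cast (N0 k j).ne'
  have hl : Tendsto (fun k => ((s * t₀ k * ∏ i, N k i : ℤ) : ℝ) / τ k) U
      (𝓝 (s * B.det⁻¹ * μ)) := by
    have h2 := (m3.const_mul (s : ℝ)).mul (tendsto_finsetProd Finset.univ fun j _ => g1 j)
    rw [Finset.prod_ite_eq', if_pos (Finset.mem_univ _)] at h2
    refine h2.congr fun k => ?_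
    have h3 : 0 < ∏ j, ν k j := Finset.prod_pos fun j _ => n0 k j
    simp only [hg, Finset.prod_div_distrib]
    push_cast
    field_simp
  have hb : ∀ j, Tendsto (fun k => (b j : ℝ) / N k j) U (𝓝 0) := fun j => by
    have h2 := (n3 j).div (g1 j) (g2 j)
    rw [zero_div] at h2
    refine h2.congr fun k => ?_
    have := (n0 k j).ne'
    have := N1 k j
    rw [Pi.div_apply, hg]
    field_simp
  have hx : ∀ j, ∃ a, Tendsto (fun k => x k j / τ k) U (𝓝 a) := fun j =>
    lim_bdd ((hl.eventually_le_const (lt_add_one _)).mono fun k hk => by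
      refine le_trans ?_ hk
      rw [abs_of_nonneg (div_nonneg (by exact_mod_cast (s1 k j).1) (hτ k).le)]
      exact div_le_div_of_nonneg_right (by exact_mod_cast (s1 k j).2.le) (hτ k).le)
  choose v hv using hx
  have hd : det (of fun i j => B i j / if i = o then μ else 1) = μ⁻¹ * B.det := by
    simp only [div_eq_inv_mul, det_mul_column, Finset.prod_inv_distrib, Finset.prod_ite_eq',
      Finset.mem_univ, if_true]
  refine (sym_lim hs2 _ _ _).dense (l := s * B.det⁻¹ * μ) (v₀ := v)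
    (B := of fun i j => B i j / if i = o then μ else 1)
    (mul_ne_zero (mul_ne_zero hs'.ne' (inv_ne_zero hB)) hμ.ne')
    (hd ▸ mul_ne_zero (inv_ne_zero hμ.ne') hB) i1 i2
    (limS_of (fun k => ⟨_, s4 k, rfl⟩) (tendsto_pi_nhds.2 fun i => tendsto_pi_nhds.2 fun j => ?_))
    A (by rw [hA, hd]; field_simp)
  rcases i with i | i <;> rcases j with j | j
  · exact hl.congr fun k => div_eq_inv_mul _ _
  · exact (hv j).congr fun k => div_eq_inv_mul _ _
  · have h2 := ((hb i).mul hl).neg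
    rw [zero_mul, neg_zero] at h2
    refine h2.congr fun k => ?_
    show _ = (τ k)⁻¹ * (u k i : ℝ)
    have h3 : (N k i : ℝ) * u k i + b i * (s * t₀ k * ∏ i, N k i : ℤ) = 0 := by
      exact_mod_cast s2 k i
    have := N1 k i
    have := (hτ k).ne'
    field_simp
    linear_combination -h3
  · have h2 := ((m2 i j).div (g1 i) (g2 i)).sub ((hb i).mul (hv j))
    rw [zero_mul, sub_zero] at h2
    refine h2.congr fun k => ?_
    show _ = (τ k)⁻¹ * (z k i j : ℝ)
    have h3 : (N k i : ℝ) * z k i j + b i * x k j = M k i j := by exact_mod_cast s3 k i j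
    have := N1 k i
    have := (hτ k).ne'
    have := (n0 k i).ne'
    rw [Pi.div_apply, hg]
    field_simp
    linear_combination -h3

end Pool.Agent.MP_824cb5_co.AS

end

section

namespace Pool.Agent.MP_824cb5_co.AS

open Matrix Filter Topology

theorem dens_unif {n : ℕ} {s : ℤ} (hs : 0 < s) (hs2 : s ∣ 2)
    {A : Matrix (Unit ⊕ Fin n) (Unit ⊕ Fin n) ℝ} (hA : A.det = s) {V : Set _} (hV : V ∈ 𝓝 A) :
    ∃ C : ℝ, ∀ (t₀ : ℤ) (t : Fin n → ℤ) (τ : ℝ), IsCoprime s t₀ → 0 < t₀ → (∀ i, 0 < t i) →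
      Monotone t → τ * τ ^ n = t₀ * ∏ i, (t i : ℝ) → C * t₀ ≤ τ →
      ∃ B ∈ SB s (Sum.elim (fun _ => t₀) t) τ, B ∈ V := by
  by_contra h
  simp only [not_exists, not_forall] at h
  choose t₀ t τ h1 h2 h3 h4 h5 h6 h7 using fun k : ℕ => h (k + 1)
  have h2' : ∀ k, (0 : ℝ) < t₀ k := fun k => by exact_mod_cast h2 k
  obtain ⟨k, B, hk⟩ := (all_lim (U := hyperfilter ℕ) hs hs2 h1 h2 h3 h4
    (fun k => le_trans (le_mul_of_one_le_left (h2' k).le (by simp)) (h6 k)) h5
    (tendsto_atTop_mono (fun k => (le_add_of_nonneg_right zero_le_one).trans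
      ((le_div_iff₀ (h2' k)).2 (h6 k)))
      (tendsto_natCast_atTop_atTop.mono_left Nat.hyperfilter_le_atTop)) A hA V hV).exists
  exact h7 k B hk

theorem dens_sum {n : ℕ} {s : ℤ} (hs : 0 < s) (hs2 : s ∣ 2)
    {A : Matrix (Fin (n + 1)) (Fin (n + 1)) ℝ} (hA : A.det = s) {V : Set _} (hV : V ∈ 𝓝 A) :
    ∃ C : ℝ, ∀ (t : Fin (n + 1) → ℤ) (τ : ℝ), IsCoprime s (t 0) → (∀ i, 0 < t i) →
      Monotone t → τ ^ (n + 1) = ∏ i, (t i : ℝ) → C * t 0 ≤ τ →
      ∃ M, Qp (fun x => s ∣ ∑ i, x i) t M ∧ τ⁻¹ • cR M ∈ V := by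
  let γ : Matrix (Unit ⊕ Fin n) (Unit ⊕ Fin n) ℤ := blk 1 (-1) 0 1
  let γ' : Matrix (Unit ⊕ Fin n) (Unit ⊕ Fin n) ℤ := blk 1 1 0 1
  have e : γ * γ' = 1 := by rw [blk_mul, ← blk_one]; simp
  have hc : Continuous fun X : Matrix (Unit ⊕ Fin n) (Unit ⊕ Fin n) ℝ =>
      (cR γ * X).submatrix (eqv n) (eqv n) := (continuous_const.matrix_mul continuous_id).matrix_submatrix _ _
  obtain ⟨C, hC⟩ := dens_unif hs hs2 (A := cR γ' * A.submatrix (eqv n).symm (eqv n).symm)
    (by rw [det_mul, det_cR, det_blk_up, det_submatrix_equiv_self, hA]; simp)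
    (hc.continuousAt.preimage_mem_nhds (t := V) (by
      rw [← Matrix.mul_assoc, ← cR_mul, e]
      simpa using hV))
  refine ⟨C, fun t τ h1 h2 h3 h4 h5 => ?_⟩
  obtain ⟨_, ⟨M, h6, rfl⟩, h7⟩ := hC (t 0) (fun i => t i.succ) τ h1 (h2 0) (fun i => h2 _)
    (fun a b h => h3 (Fin.succ_le_succ_iff.2 h)) (by rw [← pow_succ', h4, Fin.prod_univ_succ]) h5
  refine ⟨(γ * M).submatrix (eqv n) (eqv n), ?_, ?_⟩
  · convert ((h6.left (q := fun x => s ∣ ∑ i, x i) e fun x hx => ?_).equiv (eqv n)).mono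
      (q := fun x => s ∣ ∑ i, x i) (fun x hx => ?_) using 1
    · funext i
      cases i using Fin.cases <;> rfl
    · rw [blk_mulVec]
      simpa [dotProduct] using hx
    · rwa [← (eqv n).symm.sum_comp] at hx
  · rw [Set.mem_preimage, mul_smul_comm, ← cR_mul] at h7
    exact h7

theorem robust {κ : Type} [Fintype κ] [DecidableEq κ] {B : Matrix κ κ ℝ} (hB : B.det ≠ 0)
    {c c' : ℝ} (hc : 0 < c) (h : c' < c)
    (hz : ∀ z : κ → ℤ, z ≠ 0 → c ≤ ∑ i, |∑ j, B i j * z j|) :
    {X : Matrix κ κ ℝ | ∀ z : κ → ℤ, z ≠ 0 → c' ≤ ∑ i, |∑ j, X i j * z j|} ∈ 𝓝 B := by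
  have hf : Continuous fun X : Matrix κ κ ℝ => c * ∑ i, ∑ j, |((B - X) * B⁻¹) i j| := by
    refine continuous_const.mul (continuous_finsetSum _ fun i _ => continuous_finsetSum _ fun j _ =>
      (Continuous.matrix_elem ?_ i j).abs)
    fun_prop
  refine mem_of_superset ((isOpen_lt hf (continuous_const (y := min c (c - c')))).mem_nhds
    (by simpa using ⟨hc, h⟩)) fun X hX z h0 => ?_
  rw [Set.mem_ofPred_eq, lt_min_iff] at hX
  obtain ⟨y, hy⟩ : ∃ y, y = B *ᵥ fun j => (z j : ℝ) := ⟨_, rfl⟩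
  have h1 : c ≤ ∑ i, |y i| := hy ▸ hz z h0
  have h2 : y = (X *ᵥ fun j => (z j : ℝ)) + ((B - X) * B⁻¹) *ᵥ y := by
    conv_rhs => rw [hy, mulVec_mulVec, nonsing_inv_mul_cancel_right _ _ hB.isUnit, ← add_mulVec,
      add_sub_cancel, ← hy]
  have h3 : ∑ i, |y i| ≤ ∑ i, |∑ j, X i j * z j| +
      (∑ i, ∑ j, |((B - X) * B⁻¹) i j|) * ∑ i, |y i| := by
    rw [Finset.sum_mul, ← Finset.sum_add_distrib]
    refine Finset.sum_le_sum fun i _ => (congrArg abs (congrFun h2 i)).trans_le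
      ((abs_add_le _ _).trans (add_le_add le_rfl ((Finset.abs_sum_le_sum_abs _ _).trans ?_)))
    rw [Finset.sum_mul]
    refine Finset.sum_le_sum fun j _ => ?_
    rw [abs_mul]
    exact mul_le_mul_of_nonneg_left
      (Finset.single_le_sum (fun k _ => abs_nonneg (y k)) (Finset.mem_univ j)) (abs_nonneg _)
  generalize ∑ i, ∑ j, |((B - X) * B⁻¹) i j| = f at *
  have h4 : f < 1 := by nlinarith [hX.1]
  nlinarith [hX.2]

end Pool.Agent.MP_824cb5_co.AS

end
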