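import Pool.Agent.MP_824cb5_co.T3.Link
import Mathlib
import Pool.Agent.MP_824cb5_co.AS.Defs
import Pool.Agent.Mg.F824cb5.G7607ea

section

namespace Pool.Agent.MP_824cb5_co.AS

open Finset

variable {κ : Type} [Fintype κ]

/-- no short relation of even norm -/
def Good {G : Type} [AddCommGroup G] (h : ℕ) (a : κ → G) : Prop :=
  ∀ x : κ → ℤ, ∑ i, |x i| ≤ 2 * h → Even (∑ i, x i) → ∑ i, x i • a i = 0 → x = 0

theorem even_abs (x : κ → ℤ) : Even (∑ i, |x i|) ↔ Even (∑ i, x i) := by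
  have : Even (∑ i, (|x i| + x i)) := even_sum _ fun i _ => by
    obtain ⟨-, -, -, h⟩ := T3.ex_sign (x i)
    exact Int.even_iff.2 h
  rwa [sum_add_distrib, Int.even_add] at this

theorem sub_vec [DecidableEq κ] {L X : κ → ℤ} (h : ∀ i, L i ≤ X i) {j : ℤ} (h1 : ∑ i, L i ≤ j)
    (h2 : j ≤ ∑ i, X i) : ∃ Y : κ → ℤ, (∀ i, L i ≤ Y i ∧ Y i ≤ X i) ∧ ∑ i, Y i = j := by
  induction j, h1 using Int.leInduction with
  | base => exact ⟨L, fun i => ⟨le_rfl, h i⟩, rfl⟩
  | succ j _ ih =>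
    obtain ⟨Y, y1, y2⟩ := ih (by omega)
    obtain ⟨i, -, hi⟩ := exists_lt_of_sum_lt (show ∑ i, Y i < ∑ i, X i by omega)
    refine ⟨Y + Pi.single i 1, fun k => ?_, by simp [sum_add_distrib, y2]⟩
    have := y1 k
    rw [Pi.add_apply, Pi.single_apply]
    split_ifs with e
    · subst e
      omega
    · omega

theorem split_vec [Nontrivial κ] (h : ℕ) (x : κ → ℤ) (h1 : ∑ i, |x i| ≤ 2 * h)
    (h2 : Even (∑ i, x i)) : ∃ l m : κ → ℤ, ∑ i, |l i| = h ∧ ∑ i, |m i| = h ∧ l - m = x := by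
  classical
  obtain ⟨k, hk⟩ := (even_abs x).2 h2
  obtain ⟨o, ho⟩ : ∃ o, |x o| ≤ k := by
    obtain ⟨a, b, hab⟩ := exists_pair_ne κ
    have : ∑ i ∈ {a, b}, |x i| ≤ ∑ i, |x i| :=
      sum_le_sum_of_subset_of_nonneg (subset_univ _) fun i _ _ => abs_nonneg _
    rw [sum_pair hab] at this
    by_contra h3
    have := not_exists.1 h3 a
    have := not_exists.1 h3 b
    omega
  obtain ⟨Y, y1, y2⟩ := sub_vec (L := Pi.single o |x o|) (X := fun i => |x i|) (j := k)
    (fun i => by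
      rw [Pi.single_apply]
      split_ifs with e
      · rw [e]
      · exact abs_nonneg _) (by simpa using ho) (by have := abs_nonneg (x o); omega)
  choose e e1 e2 _ using fun i => T3.ex_sign (x i)
  have y3 : ∀ i, 0 ≤ Y i := fun i => le_trans (by
    rw [Pi.single_apply]
    split_ifs
    · exact abs_nonneg _
    · exact le_rfl) (y1 i).1
  have y4 : Y o = |x o| := le_antisymm (y1 o).2 (by simpa using (y1 o).1)
  refine ⟨fun i => e i * (Y i + Pi.single (M := fun _ => ℤ) o (h - k) i),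
    fun i => e i * (Y i - |x i| + Pi.single (M := fun _ => ℤ) o (h - k) i), ?_, ?_, funext fun i => ?_⟩
  · rw [sum_congr rfl (g := fun i => Y i + Pi.single (M := fun _ => ℤ) o (h - k) i) fun i _ => by
      rw [e1, Pi.single_apply]
      have := y3 i
      split_ifs <;> exact abs_of_nonneg (by omega)]
    simp [sum_add_distrib, y2]
  · rw [sum_congr rfl (g := fun i => |x i| - Y i + Pi.single (M := fun _ => ℤ) o (h - k) i)
      fun i _ => by
        rw [e1, Pi.single_apply]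
        have := (y1 i).2
        split_ifs with c
        · rw [c, y4, sub_self]
          exact abs_of_nonneg (by omega)
        · rw [add_zero, add_zero, abs_sub_comm]
          exact abs_of_nonneg (by omega)]
    simp [sum_add_distrib, y2, hk]
  · rw [Pi.sub_apply, ← e2 i, e1, abs_abs]
    ring

theorem le_sigma_iff (G : Type) [AddCommGroup G] [Finite G] {h : ℕ} (hh : 1 ≤ h) [Nontrivial κ] :
    Fintype.card κ ≤ sigmaPM G h ↔ ∃ a : κ → G, Good h a := by
  classical
  have := Fintype.ofFinite G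
  have hbd : BddAbove {k : ℕ | ∃ A : Finset G, A.Nonempty ∧ IsBh h A ∧ A.card = k} :=
    ⟨Fintype.card G, by rintro k ⟨A, -, -, rfl⟩; exact card_le_univ A⟩
  constructor
  · intro h2
    have hne : {k : ℕ | ∃ A : Finset G, A.Nonempty ∧ IsBh h A ∧ A.card = k}.Nonempty := by
      by_contra h3
      rw [Set.not_nonempty_iff_eq_empty] at h3
      rw [sigmaPM, h3] at h2
      simp at h2
    obtain ⟨A, -, hA, hc⟩ := Nat.sSup_mem hne hbd
    obtain ⟨f⟩ := Function.Embedding.nonempty_of_card_le (α := κ) (β := A)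
      (by rw [Fintype.card_coe, hc]; exact h2)
    let a := f.trans (Function.Embedding.subtype _)
    have key : ∀ {M : Type} [AddCommMonoid M] (F : ℤ → G → M) (l : κ → ℤ), (∀ g, F 0 g = 0) →
        ∑ g ∈ A, F (Function.extend a l 0 g) g = ∑ i, F (l i) (a i) := fun F l hF => by
      rw [← sum_subset (s₁ := univ.map a) (fun g hg => by
        obtain ⟨i, -, rfl⟩ := mem_map.1 hg
        exact (f i).2) fun g _ hg => by
          rw [Function.extend_apply' _ _ _ fun ⟨i, hi⟩ => hg (mem_map.2 ⟨i, mem_univ _, hi⟩)]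
          exact hF g, sum_map]
      exact sum_congr rfl fun i _ => by rw [a.injective.extend_apply]
    refine ⟨a, fun x h1 h3 h4 => ?_⟩
    obtain ⟨l, m, e1, e2, rfl⟩ := split_vec h x h1 h3
    have := hA (Function.extend a l 0) (Function.extend a m 0)
      ((key (fun z _ => |z|) l fun _ => rfl).trans e1)
      ((key (fun z _ => |z|) m fun _ => rfl).trans e2) (by
        rw [key (fun z g => z • g) l (zero_smul _), key (fun z g => z • g) m (zero_smul _),
          ← sub_eq_zero, ← sum_sub_distrib, ← h4]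
        exact sum_congr rfl fun i _ => (sub_smul _ _ _).symm)
    funext i
    have h5 := this (a i) (f i).2
    rw [a.injective.extend_apply, a.injective.extend_apply] at h5
    exact sub_eq_zero.2 h5
  · rintro ⟨a, H⟩
    have inj : Function.Injective a := fun i j e => by
      by_contra c
      have h1 := H (Pi.single i 1 - Pi.single j 1) (by
          refine (sum_le_sum fun k _ => abs_sub _ _).trans ?_
          simp only [Pi.single_apply, apply_ite abs, abs_one, abs_zero, sum_add_distrib,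
            sum_ite_eq', mem_univ, if_true]
          omega) (by simp) (by simp [sub_smul, Pi.single_apply, e])
      simpa [Ne.symm c, c] using congrFun h1 i
    refine le_csSup hbd ⟨univ.map ⟨a, inj⟩, by simp, fun l m e1 e2 e3 g hg => ?_, by simp⟩
    obtain ⟨i, -, rfl⟩ := mem_map.1 hg
    simp only [sum_map, Function.Embedding.coeFn_mk] at e1 e2 e3
    refine sub_eq_zero.1 (congrFun (H (fun i => l (a i) - m (a i)) ?_ ?_ ?_) i)
    · refine (sum_le_sum fun k _ => abs_sub _ _).trans ?_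
      rw [sum_add_distrib, e1, e2]
      omega
    · rw [sum_sub_distrib, Int.even_sub, ← even_abs, e1, ← even_abs, e2]
    · simp only [sub_smul, sum_sub_distrib, e3, sub_self]

end Pool.Agent.MP_824cb5_co.AS

end

section

namespace Pool.Agent.MP_824cb5_co.AS

open Matrix

theorem tri_step {m : ℕ} (F : Matrix (Fin m) (Fin m) ℤ) (o : Fin m)
    (h : ∃ U : Matrix (Fin m) (Fin m) ℤ, U.det = 1 ∧ ∀ i j, o < i → j < i → (F * U) i j = 0) :
    ∃ U : Matrix (Fin m) (Fin m) ℤ, U.det = 1 ∧ ∀ i j, o ≤ i → j < i → (F * U) i j = 0 := by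
  have tv : ∀ U : Matrix (Fin m) (Fin m) ℤ, (U.det = 1 ∧ ∀ i j, o < i → j < i → (F * U) i j = 0) →
      ∀ a b, a ≤ o → a ≠ b → ∀ c : ℤ, (U * transvection a b c).det = 1 ∧
        ∀ i j, o < i → j < i → (F * (U * transvection a b c)) i j = 0 := fun U hU a b ha hab c => by
    refine ⟨by rw [det_mul, hU.1, det_transvection_of_ne _ _ hab, one_mul], fun i j h1 h2 => ?_⟩
    rw [← Matrix.mul_assoc]
    by_cases e : j = b
    · rw [e, mul_transvection_apply_same, ← e, hU.2 i j h1 h2, hU.2 i a h1 (ha.trans_lt h1)]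
      simp
    · rw [mul_transvection_apply_of_ne _ _ _ _ e, hU.2 i j h1 h2]
  obtain ⟨U, hmin⟩ := exists_minimalFor_of_wellFoundedLT _ (fun U : Matrix (Fin m) (Fin m) ℤ =>
    ∑ j ∈ Finset.Iic o, ((F * U) o j).natAbs) h
  have hU := hmin.1
  have key : ∀ a b, a ≤ o → b ≤ o → a ≠ b → (F * U) o a ≠ 0 →
      ((F * U) o b).natAbs < ((F * U) o a).natAbs := fun a b ha hb hab h0 => by
    by_contra h1
    obtain ⟨c, hc⟩ : ∃ c : ℤ, ((F * U) o b + c * (F * U) o a).natAbs < ((F * U) o b).natAbs := by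
      by_cases h2 : 0 < (F * U) o a ↔ 0 < (F * U) o b
      · exact ⟨-1, by omega⟩
      · exact ⟨1, by omega⟩
    refine hmin.not_lt (tv U hU a b ha hab c)
      (Finset.sum_lt_sum (fun j _ => ?_) ⟨b, Finset.mem_Iic.2 hb, ?_⟩)
    · rw [← Matrix.mul_assoc]
      by_cases e : j = b
      · rw [e, mul_transvection_apply_same]
        exact hc.le
      · rw [mul_transvection_apply_of_ne _ _ _ _ e]
    · rwa [← Matrix.mul_assoc, mul_transvection_apply_same]
  by_cases h0 : ∀ j, j < o → (F * U) o j = 0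
  · exact ⟨U, hU.1, fun i j h1 h2 => h1.eq_or_lt.elim (fun e => e ▸ h0 j (e ▸ h2))
      fun h3 => hU.2 i j h3 h2⟩
  · simp only [not_forall] at h0
    obtain ⟨a, ha, h1⟩ := h0
    have h2 : ∀ b, b ≤ o → a ≠ b → (F * U) o b = 0 := fun b hb hab => by
      by_contra h3
      exact (key a b ha.le hb hab h1).not_gt (key b a hb ha.le hab.symm h3)
    have h3 := tv _ (tv U hU a o ha.le ha.ne 1) o a le_rfl ha.ne' (-1)
    refine ⟨_, h3.1, fun i j h4 h5 => h4.eq_or_lt.elim (fun e => ?_) fun h6 => h3.2 i j h6 h5⟩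
    subst e
    rw [← Matrix.mul_assoc, ← Matrix.mul_assoc]
    by_cases e : j = a
    · rw [e, mul_transvection_apply_same, mul_transvection_apply_same,
        mul_transvection_apply_of_ne _ _ _ _ ha.ne, h2 o le_rfl ha.ne]
      ring
    · rw [mul_transvection_apply_of_ne _ _ _ _ e, mul_transvection_apply_of_ne _ _ _ _ h5.ne,
        h2 j h5.le (Ne.symm e)]

/-- triangular form by column operations -/
theorem tri {m : ℕ} (F : Matrix (Fin m) (Fin m) ℤ) :
    ∃ U : Matrix (Fin m) (Fin m) ℤ, U.det = 1 ∧ ∀ i j, j < i → (F * U) i j = 0 := by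
  have : ∀ k : ℕ, ∃ U : Matrix (Fin m) (Fin m) ℤ, U.det = 1 ∧
      ∀ i j : Fin m, m ≤ i + k → j < i → (F * U) i j = 0 := fun k => by
    induction k with
    | zero => exact ⟨1, det_one, fun i _ h => (by omega : False).elim⟩
    | succ k ih =>
      obtain ⟨U, h1, h2⟩ := ih
      by_cases h : k < m
      · obtain ⟨V, h3, h4⟩ := tri_step F ⟨m - k - 1, by omega⟩ ⟨U, h1, fun i j h5 =>
          h2 i j (by rw [Fin.lt_def] at h5; simp only at h5; omega)⟩
        exact ⟨V, h3, fun i j h5 => h4 i j (by rw [Fin.le_def]; simp only; omega)⟩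
      · exact ⟨U, h1, fun i j _ => h2 i j (by omega)⟩
  obtain ⟨U, h1, h2⟩ := this m
  exact ⟨U, h1, fun i j => h2 i j (by omega)⟩

end Pool.Agent.MP_824cb5_co.AS

end

section

namespace Pool.Agent.MP_824cb5_co.AS

open Matrix Filter Topology

theorem rel_iff {G κ ι : Type} [AddCommGroup G] [Fintype κ] {n : ι → ℕ} (e : G ≃+ Π i, ZMod (n i))
    {a : κ → G} {F : Matrix ι κ ℤ} (h : ∀ i j, e (a j) i = F i j) (x : κ → ℤ) :
    ∑ j, x j • a j = 0 ↔ ∀ i, (n i : ℤ) ∣ (F *ᵥ x) i := by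
  rw [← e.map_eq_zero_iff, funext_iff]
  refine forall_congr' fun i => ?_
  rw [← ZMod.intCast_zmod_eq_zero_iff_dvd]
  simp [mulVec, dotProduct, h, mul_comm]

theorem crit_le {m : ℕ} {K : Matrix (Fin m) (Fin m) ℤ} (hK : K.det ≠ 0) {σ : ℤ} (hσ : 0 < σ)
    (h : ∀ w, w ≠ 0 → σ ≤ ∑ i, |(K *ᵥ w) i|) : critDet m * σ ^ m ≤ |K.det| := by
  have h0 : (0 : ℝ) < σ := by exact_mod_cast hσ
  have h1 : critDet m ≤ |((σ : ℝ)⁻¹ • cR K).det| := csInf_le ⟨0, fun _ ⟨_, _, e, _⟩ =>
    e ▸ abs_nonneg _⟩ ⟨_, by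
      rw [det_smul, det_cR]
      exact mul_ne_zero (by positivity) (Int.cast_ne_zero.2 hK), rfl, fun z hz => by
      have h2 : (σ : ℝ) ≤ ∑ i, |∑ j, (K i j : ℝ) * z j| := by exact_mod_cast h z hz
      simp only [Matrix.smul_apply, map_apply, eq_intCast, smul_eq_mul, mul_assoc, ← Finset.mul_sum,
        abs_mul, abs_of_pos (inv_pos.2 h0)]
      rwa [le_inv_mul_iff₀ h0, mul_one]⟩
  rw [det_smul, det_cR, abs_mul, abs_of_pos (by positivity), Fintype.card_fin, inv_pow,
    le_inv_mul_iff₀ (by positivity), mul_comm] at h1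
  exact_mod_cast h1

theorem crit_ex {m : ℕ} {D : ℝ} (h : critDet (m + 1) < D) :
    ∃ B : Matrix (Fin (m + 1)) (Fin (m + 1)) ℝ, 0 < B.det ∧ B.det < D ∧
      ∀ z : Fin (m + 1) → ℤ, z ≠ 0 → 1 ≤ ∑ i, |∑ j, B i j * z j| := by
  obtain ⟨_, ⟨B, h1, rfl, h2⟩, h3⟩ := exists_lt_of_csInf_lt (by
    refine ⟨_, 1, by simp, rfl, fun z hz => ?_⟩
    obtain ⟨i, hi⟩ := Function.ne_iff.1 hz
    simp only [Matrix.one_apply, ite_mul, one_mul, zero_mul, Finset.sum_ite_eq, Finset.mem_univ,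
      if_true]
    exact le_trans (by exact_mod_cast Int.one_le_abs hi)
      (Finset.single_le_sum (fun k _ => abs_nonneg (z k : ℝ)) (Finset.mem_univ i))) h
  rcases h1.lt_or_gt with h4 | h4
  · have e : (of fun i j => (if i = 0 then -1 else 1) * B i j).det = |B.det| := by
      rw [det_mul_column, abs_of_neg h4]
      simp
    refine ⟨_, e ▸ abs_pos.2 h1, e ▸ h3, fun z hz => (h2 z hz).trans_eq
      (Finset.sum_congr rfl fun i _ => ?_)⟩
    simp only [of_apply, mul_assoc, ← Finset.mul_sum, abs_mul]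
    split_ifs <;> simp
  · exact ⟨B, h4, (le_abs_self _).trans_lt h3, h2⟩

variable {G : Type} [AddCommGroup G] {m r h d : ℕ} {n : Fin (r + (m + 2)) → ℕ} {t : Fin (m + 2) → ℕ}

theorem fin_of (hpos : ∀ i, 0 < n i) (e : G ≃+ Π i, ZMod (n i)) : Finite G := by
  have : ∀ i, NeZero (n i) := fun i => ⟨(hpos i).ne'⟩
  exact Finite.of_equiv _ e.toEquiv.symm

theorem nec (hh : 1 ≤ h) (hpos : ∀ i, 0 < n i) (hdvd : ∀ i j, i ≤ j → n i ∣ n j)
    (e : G ≃+ Π i, ZMod (n i)) (ht : ∀ i, n (Fin.natAdd r i) = d * t i)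
    (H : m + 2 ≤ sigmaPM G h) :
    critDet (m + 2) * ((if Odd d then 2 * (h / d + 1) else 2 * h / d + 1 : ℕ) : ℝ) ^ (m + 2) ≤
      ((if Odd d then 2 else 1) * ∏ i, t i : ℕ) := by
  have := fin_of hpos e
  obtain ⟨a, ha⟩ := (le_sigma_iff (κ := Fin (m + 2)) G hh).1 (by simpa using H)
  choose F hF using fun i j => ZMod.intCast_surjective (e (a j) i)
  obtain ⟨U, hU, hT⟩ := tri ((of F).submatrix (Fin.natAdd r) id)
  have dt : ∀ i, 0 < d * t i := fun i => ht i ▸ hpos _
  have d0 : 0 < d := Nat.pos_of_mul_pos_right (dt 0)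
  have t0 : 0 < ∏ i, t i := Finset.prod_pos fun i _ => Nat.pos_of_mul_pos_left (dt i)
  obtain ⟨K, hK⟩ : ∃ K, K = U * diagonal fun i => (t i : ℤ) := ⟨_, rfl⟩
  have k1 : K.det = (∏ i, t i : ℕ) := by rw [hK, det_mul, hU, det_diagonal]; simp
  have k2 : ∀ w, K *ᵥ w ≠ 0 → Even (d * ∑ i, (K *ᵥ w) i) → (2 * h : ℤ) < d * ∑ i, |(K *ᵥ w) i| := by
    intro w h1 h2
    by_contra h3
    refine h1 ((smul_eq_zero.1 (ha ((d : ℤ) • K *ᵥ w) ?_ ?_ ?_)).resolve_left (by omega))
    · simpa [abs_mul, ← Finset.mul_sum] using not_lt.1 h3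
    · simpa only [Pi.smul_apply, smul_eq_mul, ← Finset.mul_sum] using h2
    · refine (rel_iff e (F := of F) (fun i j => (hF i j).symm) _).2 fun i => ?_
      rw [hK, ← mulVec_mulVec w U, ← mulVec_smul U, mulVec_mulVec]
      show _ ∣ ∑ j, (of F * U) i j * _
      refine Finset.dvd_sum fun j _ => ?_
      by_cases c : i ≤ Fin.natAdd r j
      · rw [Pi.smul_apply, mulVec_diagonal, smul_eq_mul, ← mul_assoc (d : ℤ), ← Nat.cast_mul, ← ht]
        exact ((Int.natCast_dvd_natCast.2 (hdvd _ _ c)).mul_right _).mul_left _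
      · induction i using Fin.addCases with
        | left i => exact (c (by rw [Fin.le_def]; simp; omega)).elim
        | right i =>
          have h4 : (of F * U) (Fin.natAdd r i) j = 0 :=
            hT i j (by rw [Fin.le_def] at c; rw [Fin.lt_def]; simp at c; omega)
          rw [h4, zero_mul]
          exact dvd_zero _
  have k0 : K.det ≠ 0 := by rw [k1]; omega
  split_ifs with hd
  · obtain ⟨V, hV, hW⟩ := tri (of fun _ j => ∑ i, K i j)
    obtain ⟨E, hE⟩ : ∃ E, E = V * diagonal fun i => if i = Fin.last _ then (2 : ℤ) else 1 := ⟨_, rfl⟩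
    have e1 : (K * E).det = (2 * ∏ i, t i : ℕ) := by
      rw [hE, det_mul, det_mul, hV, k1, det_diagonal]
      simp [mul_comm]
    have e0 : (K * E).det ≠ 0 := by rw [e1]; omega
    have h1 := crit_le e0 (σ := (2 * (h / d + 1) : ℕ)) (by positivity) fun w hw => by
      have h2 : Even (∑ i, ((K * E) *ᵥ w) i) := by
        have h3 : ∑ i, ((K * E) *ᵥ w) i =
            (((of fun _ j => ∑ i, K i j) * E) *ᵥ w) (Fin.last (m + 1)) := by
          simp only [← mulVec_mulVec]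
          simp only [mulVec, dotProduct, of_apply, Finset.sum_mul]
          exact Finset.sum_comm
        rw [h3, hE, ← Matrix.mul_assoc, mulVec, dotProduct]
        refine Finset.even_sum _ fun j _ => ?_
        rw [mul_diagonal]
        split_ifs with c
        · exact (even_two.mul_left _).mul_right _
        · rw [hW _ j (lt_of_le_of_ne (Fin.le_last j) c)]
          simp
      have h3 : (K * E) *ᵥ w ≠ 0 := fun c => hw (eq_zero_of_mulVec_eq_zero e0 c)
      obtain ⟨k, hk⟩ := (even_abs _).2 h2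
      rw [← mulVec_mulVec] at h2 h3 hk ⊢
      have h4 := k2 _ h3 (h2.mul_left _)
      rw [hk] at h4 ⊢
      have h5 : (h : ℤ) / d < k := (Int.ediv_lt_iff_lt_mul (by omega)).2 (by nlinarith)
      push_cast
      omega
    rw [e1] at h1
    exact_mod_cast h1
  · have h1 := crit_le k0 (σ := (2 * h / d + 1 : ℕ)) (by positivity) fun w hw => by
      have h4 := k2 _ (fun c => hw (eq_zero_of_mulVec_eq_zero k0 c))
        (((Int.even_coe_nat d).2 (Nat.not_odd_iff_even.1 hd)).mul_right _)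
      have h5 : (2 * h : ℤ) / d < ∑ i, |(K *ᵥ w) i| :=
        (Int.ediv_lt_iff_lt_mul (by omega)).2 (by rwa [mul_comm _ (d : ℤ)])
      push_cast
      omega
    rw [k1] at h1
    rw [one_mul]
    exact_mod_cast h1

theorem suf_aux (m : ℕ) {ε : ℝ} (hε : 0 < ε) {s : ℕ} (hs : 0 < s) (hs2 : s ∣ 2) :
    ∃ T₀ : ℕ, ∀ (G : Type) [AddCommGroup G] (r h d σ : ℕ) (n : Fin (r + (m + 2)) → ℕ)
      (t : Fin (m + 2) → ℕ), (∀ i, 0 < n i) → (∀ i j, i ≤ j → n i ∣ n j) →
      (G ≃+ Π i, ZMod (n i)) → (∀ i, n (Fin.natAdd r i) = d * t i) → t 0 = 1 → 1 ≤ h →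
      s.Coprime d → 2 * h < d * σ → T₀ ≤ s * ∏ i, t i →
      (critDet (m + 2) + ε) * (σ : ℝ) ^ (m + 2) ≤ (s * ∏ i, t i : ℕ) → m + 2 ≤ sigmaPM G h := by
  obtain ⟨B, b1, b2, b3⟩ := crit_ex (lt_add_of_pos_right (critDet (m + 1 + 1)) hε)
  have rt : ∀ x : ℝ, 0 < x → ∃ c : ℝ, 0 < c ∧ c ^ (m + 2) = x := fun x hx =>
    ⟨_, Real.rpow_pos_of_pos hx _, Real.rpow_inv_natCast_pow hx.le (by omega)⟩
  have s0 : (0 : ℝ) < s := by exact_mod_cast hs
  have hD := b1.trans b2
  generalize critDet (m + 2) + ε = D at *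
  obtain ⟨c, c0, c1⟩ := rt _ (div_pos s0 b1)
  obtain ⟨c', c0', c1'⟩ := rt _ (div_pos s0 hD)
  have hA : (c • B).det = (s : ℤ) := by
    rw [det_smul, Fintype.card_fin, c1, div_mul_cancel₀ _ b1.ne', Int.cast_natCast]
  obtain ⟨C, hC⟩ := dens_sum (by exact_mod_cast hs) (by exact_mod_cast hs2) hA
    (robust (c' := c') (by rw [hA]; exact_mod_cast hs.ne') c0
      (lt_of_pow_lt_pow_left₀ (m + 2) c0.le (by rw [c1, c1']; gcongr)) fun z hz => by
        simp only [Matrix.smul_apply, smul_eq_mul, mul_assoc, ← Finset.mul_sum, abs_mul,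
          abs_of_pos c0]
        exact le_mul_of_one_le_right c0.le (b3 z hz))
  refine ⟨s * ⌈|C| ^ (m + 2)⌉₊, fun G _ r h d σ n t hpos hdvd e ht t1 hh hc h1 h2 h3 => ?_⟩
  have := fin_of hpos e
  have d0 : (0 : ℝ) < d := by exact_mod_cast Nat.pos_of_mul_pos_right (ht 0 ▸ hpos _)
  obtain ⟨τ, τ0, τ1⟩ := rt (∏ i, ((n (Fin.natAdd r i) : ℤ) : ℝ))
    (Finset.prod_pos fun i _ => by exact_mod_cast hpos _)
  have τ2 : τ ^ (m + 2) = d ^ (m + 2) * (∏ i, t i : ℕ) := by
    simp [τ1, ht, Finset.prod_mul_distrib]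
  obtain ⟨M, ⟨F, hF⟩, hM⟩ := hC (fun i => n (Fin.natAdd r i)) τ
    (by simpa [ht, t1] using hc) (fun i => by exact_mod_cast hpos _)
    (fun i j h => Int.ofNat_le.2 (Nat.le_of_dvd (hpos _) (hdvd _ _ (by
      rw [Fin.le_def] at h ⊢
      simpa using h)))) τ1 (by
      rw [ht, t1, mul_one, Int.cast_natCast]
      refine (mul_le_mul_of_nonneg_right (le_abs_self C) d0.le).trans
        (le_of_pow_le_pow_left₀ (n := m + 2) (by omega) τ0.le ?_)
      rw [τ2, mul_pow, mul_comm]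
      exact mul_le_mul_of_nonneg_left (Nat.ceil_le.1 (Nat.le_of_mul_le_mul_left h2 hs))
        (by positivity))
  have key : (d * σ : ℝ) ≤ c' * τ := by
    refine le_of_pow_le_pow_left₀ (n := m + 2) (by omega) (by positivity) ?_
    rw [mul_pow, mul_pow, τ2, c1', mul_left_comm]
    refine mul_le_mul_of_nonneg_left ?_ (by positivity)
    rw [div_mul_eq_mul_div, le_div_iff₀' hD]
    exact_mod_cast h3
  let F' : Matrix (Fin (r + (m + 2))) (Fin (m + 2)) ℤ := of (Fin.addCases (fun _ => 0) F)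
  refine (Fintype.card_fin (m + 2)).ge.trans ((le_sigma_iff G hh).2
    ⟨fun j => e.symm fun i => F' i j, fun x x1 x2 x3 => ?_⟩)
  obtain ⟨w, rfl⟩ := hF x ((Int.natCast_dvd_natCast.2 hs2).trans x2.two_dvd) fun i => by
    have := (rel_iff e (F := F') (fun i j => by simp) x).1 x3 (Fin.natAdd r i)
    have h4 : F' (Fin.natAdd r i) = F i :=
      Fin.addCases_right (motive := fun _ => Fin (m + 2) → ℤ) (left := fun _ => 0) (right := F) i
    simpa only [mulVec, h4] using this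
  by_contra h4
  have h5 := hM w fun c => h4 (by rw [c, mulVec_zero])
  simp only [Matrix.smul_apply, map_apply, eq_intCast, smul_eq_mul, mul_assoc, ← Finset.mul_sum,
    abs_mul, abs_of_pos (inv_pos.2 τ0)] at h5
  rw [le_inv_mul_iff₀ τ0, mul_comm] at h5
  have h6 : ∑ i, |∑ j, (M i j : ℝ) * w j| ≤ 2 * h := by exact_mod_cast x1
  have h7 : (2 * h : ℝ) < d * σ := by exact_mod_cast h1
  linarith

theorem threshold (m : ℕ) (ε : ℝ) (hε : 0 < ε) :
    ∃ T₀ : ℕ, ∀ (G : Type) [AddCommGroup G] (r : ℕ) (n : Fin (r + (m + 2)) → ℕ) (d : ℕ)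
      (t : Fin (m + 2) → ℕ) (h s T : ℕ), (∀ i, 0 < n i) → (∀ i j, i ≤ j → n i ∣ n j) →
      Nonempty (G ≃+ Π i, ZMod (n i)) → (∀ i, n (Fin.natAdd r i) = d * t i) → t 0 = 1 → 1 ≤ h →
      s = (if Odd d then 2 * (h / d + 1) else 2 * h / d + 1) →
      T = (if Odd d then 2 else 1) * ∏ i, t i →
      (m + 2 ≤ sigmaPM G h → critDet (m + 2) * (s : ℝ) ^ (m + 2) ≤ T) ∧
        (T₀ ≤ T → (critDet (m + 2) + ε) * (s : ℝ) ^ (m + 2) ≤ T → m + 2 ≤ sigmaPM G h) := by
  obtain ⟨T₁, h1⟩ := suf_aux m hε one_pos (one_dvd 2)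
  obtain ⟨T₂, h2⟩ := suf_aux m hε two_pos dvd_rfl
  refine ⟨max T₁ T₂, ?_⟩
  rintro G _ r n d t h _ _ hpos hdvd ⟨e⟩ ht t1 hh rfl rfl
  refine ⟨nec hh hpos hdvd e ht, ?_⟩
  have d0 : 0 < d := Nat.pos_of_mul_pos_right (ht 0 ▸ hpos _)
  split_ifs with hd
  · exact fun h3 => h2 G r h d _ n t hpos hdvd e ht t1 hh (Nat.coprime_two_left.2 hd)
      (by have := Nat.lt_mul_div_succ h d0; nlinarith) ((le_max_right _ _).trans h3)
  · exact fun h3 => h1 G r h d _ n t hpos hdvd e ht t1 hh (Nat.coprime_one_left d)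
      (Nat.lt_mul_div_succ _ d0) ((le_max_left _ _).trans h3)

end Pool.Agent.MP_824cb5_co.AS

end
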